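import Mathlib

set_option autoImplicit false

/-!
Rounding with small error in every row (Beck and Fiala).
-/

namespace Pool.Agent.H88.God

open Finset

/-- Let every column `i` of a 0-1 matrix have at most `L ≥ 1` ones. Then every vector `θ` with
coordinates in `[0, 1]` can be rounded to a 0-1 vector such that all row sums change by less
than `L`. -/
theorem bf_round {κ ι : Type} [Fintype κ] [Fintype ι] (inc : κ → ι → Prop)
    [∀ e i, Decidable (inc e i)] (L : ℕ) (hL : 1 ≤ L)
    (hinc : ∀ i, (univ.filter (fun e => inc e i)).card ≤ L) :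
    ∀ (n : ℕ) (θ : ι → ℝ), (∀ i, 0 ≤ θ i ∧ θ i ≤ 1) →
      (Set.ncard {i | θ i ≠ 0 ∧ θ i ≠ 1}) = n →
      ∃ ε : ι → ℕ, (∀ i, ε i ≤ 1) ∧ (∀ i, θ i = 0 ∨ θ i = 1 → (ε i : ℝ) = θ i) ∧
        ∀ e, |∑ i, if inc e i then ((ε i : ℝ) - θ i) else 0| < L := by
  classical
  intro n
  induction n using Nat.strong_induction_on with
  | _ n ih =>
  intro θ hθ hn
  have hLR : (0 : ℝ) < L := by exact_mod_cast hL
  set F : Finset ι := univ.filter (fun i => θ i ≠ 0 ∧ θ i ≠ 1) with hF
  have hFcard : F.card = n := by
    rw [← hn, ← Set.ncard_coe_finset]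
    congr 1
    ext i
    simp [hF]
  have hnF : ∀ i, i ∉ F → θ i = 0 ∨ θ i = 1 := by
    intro i hi
    by_contra hcon
    push Not at hcon
    exact hi (by simp [hF, hcon])
  have hF' : ∀ i, i ∈ F → 0 < θ i ∧ θ i < 1 := by
    intro i hi
    simp only [hF, mem_filter, mem_univ, true_and] at hi
    exact ⟨lt_of_le_of_ne (hθ i).1 (Ne.symm hi.1), lt_of_le_of_ne (hθ i).2 hi.2⟩
  by_cases hn0 : F = ∅
  · -- everything is integral
    refine ⟨fun i => if θ i = 1 then 1 else 0, fun i => by
      show (if θ i = 1 then 1 else 0) ≤ 1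
      split_ifs <;> simp, ?_, ?_⟩
    · intro i hi
      rcases hi with h | h
      · simp [h]
      · simp [h]
    · intro e
      have h1 : ∑ i, (if inc e i then (((if θ i = 1 then 1 else 0 : ℕ) : ℝ) - θ i) else 0) = 0 := by
        apply Finset.sum_eq_zero
        intro i _
        rcases hnF i (by rw [hn0]; simp) with h | h
        · simp [h]
        · simp [h]
      rw [h1, abs_zero]
      exact hLR
  have hne : F.Nonempty := Finset.nonempty_iff_ne_empty.2 hn0
  -- active rows
  set A : Finset κ := univ.filter (fun e => L < (F.filter (fun i => inc e i)).card) with hA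
  have hAF : A.card < F.card := by
    have h1 : A.card * (L + 1) ≤ ∑ e ∈ A, (F.filter (fun i => inc e i)).card := by
      rw [← smul_eq_mul]
      apply Finset.card_nsmul_le_sum
      intro e he
      simp only [hA, mem_filter, mem_univ, true_and] at he
      exact he
    have h2 : ∑ e ∈ A, (F.filter (fun i => inc e i)).card ≤ F.card * L := by
      calc ∑ e ∈ A, (F.filter (fun i => inc e i)).card
          ≤ ∑ e : κ, (F.filter (fun i => inc e i)).card :=
            Finset.sum_le_sum_of_subset (Finset.subset_univ A)
        _ = ∑ e : κ, ∑ i ∈ F, (if inc e i then 1 else 0) := by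
            apply Finset.sum_congr rfl
            intro e _
            rw [Finset.card_filter]
        _ = ∑ i ∈ F, ∑ e : κ, (if inc e i then 1 else 0) := Finset.sum_comm
        _ = ∑ i ∈ F, (univ.filter (fun e => inc e i)).card := by
            apply Finset.sum_congr rfl
            intro i _
            rw [Finset.card_filter]
        _ ≤ ∑ i ∈ F, L := Finset.sum_le_sum (fun i _ => hinc i)
        _ = F.card * L := by rw [Finset.sum_const, smul_eq_mul]
    by_contra hcon
    push Not at hcon
    have h3 : F.card * (L + 1) ≤ F.card * L :=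
      (Nat.mul_le_mul_right _ hcon).trans (h1.trans h2)
    have h4 : 0 < F.card := Finset.card_pos.2 hne
    have h5 := Nat.le_of_mul_le_mul_left h3 h4
    omega
  -- a vector in the kernel
  obtain ⟨y, hy0, hyA, i0, hi0⟩ : ∃ y : ι → ℝ, (∀ i, i ∉ F → y i = 0) ∧
      (∀ e ∈ A, ∑ i, (if inc e i then y i else 0) = 0) ∧ ∃ i, y i ≠ 0 := by
    let f : {i // i ∈ F} → ({e // e ∈ A} → ℝ) := fun i e => if inc e.1 i.1 then 1 else 0
    have hdep : ¬ LinearIndependent ℝ f := by
      intro hli
      have h1 := hli.fintype_card_le_finrank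
      rw [Module.finrank_fintype_fun_eq_card, Fintype.card_coe, Fintype.card_coe] at h1
      omega
    rw [Fintype.not_linearIndependent_iff] at hdep
    obtain ⟨g, hg, i0, hi0⟩ := hdep
    let y : ι → ℝ := fun i => if h : i ∈ F then g ⟨i, h⟩ else 0
    have hy0 : ∀ i, i ∉ F → y i = 0 := fun i hi => dif_neg hi
    have hy1 : ∀ i : {i // i ∈ F}, y i.1 = g i := fun i => dif_pos i.2
    refine ⟨y, hy0, ?_, i0.1, by rw [hy1]; exact hi0⟩
    intro e he
    have h1 := congrFun hg ⟨e, he⟩
    rw [Finset.sum_apply, Pi.zero_apply] at h1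
    have h2 : ∑ i : ι, (if inc e i then y i else 0) = ∑ i ∈ F, (if inc e i then y i else 0) := by
      symm
      apply Finset.sum_subset (Finset.subset_univ F)
      intro i _ hi
      rw [hy0 i hi, ite_self]
    rw [h2, ← Finset.sum_coe_sort F]
    refine Eq.trans ?_ h1
    apply Finset.sum_congr rfl
    intro i _
    rw [hy1]
    simp only [f, Pi.smul_apply, smul_eq_mul, mul_ite, mul_one, mul_zero]
  -- the maximal step
  let τ : ι → ℝ := fun i => if 0 < y i then (1 - θ i) / y i else θ i / (- y i)
  obtain ⟨i1, hi1, hmin⟩ := Finset.exists_min_image (univ.filter (fun i => y i ≠ 0)) τ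
    ⟨i0, by simp [hi0]⟩
  have hi1' : y i1 ≠ 0 := (Finset.mem_filter.1 hi1).2
  have hyF : ∀ i, y i ≠ 0 → i ∈ F := fun i h => by
    by_contra hcon
    exact h (hy0 i hcon)
  set t : ℝ := τ i1 with ht
  have ht0 : 0 ≤ t := by
    rw [ht]
    simp only [τ]
    split_ifs with h
    · exact div_nonneg (by linarith [(hθ i1).2]) h.le
    · exact div_nonneg (hθ i1).1 (by linarith)
  let θ' : ι → ℝ := fun i => θ i + t * y i
  have hθ' : ∀ i, 0 ≤ θ' i ∧ θ' i ≤ 1 := by
    intro i
    by_cases hyi : y i = 0
    · simp only [θ', hyi, mul_zero, add_zero]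
      exact hθ i
    · have h1 := hmin i (by simp [hyi])
      by_cases hpos : 0 < y i
      · have h2 : t ≤ (1 - θ i) / y i := by
          refine h1.trans (le_of_eq ?_)
          simp only [τ, if_pos hpos]
        rw [le_div_iff₀ hpos] at h2
        refine ⟨?_, ?_⟩
        · show 0 ≤ θ i + t * y i
          have := (hθ i).1
          positivity
        · show θ i + t * y i ≤ 1
          linarith
      · have hneg : y i < 0 := lt_of_le_of_ne (not_lt.1 hpos) hyi
        have h2 : t ≤ θ i / (- y i) := by
          refine h1.trans (le_of_eq ?_)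
          simp only [τ, if_neg hpos]
        rw [le_div_iff₀ (by linarith)] at h2
        refine ⟨?_, ?_⟩
        · show 0 ≤ θ i + t * y i
          linarith
        · show θ i + t * y i ≤ 1
          have h3 := (hθ i).2
          have h4 : t * y i ≤ 0 := mul_nonpos_of_nonneg_of_nonpos ht0 hneg.le
          linarith
  have hθ'1 : θ' i1 = 0 ∨ θ' i1 = 1 := by
    by_cases hpos : 0 < y i1
    · right
      show θ i1 + t * y i1 = 1
      have h1 : t = (1 - θ i1) / y i1 := by rw [ht]; simp only [τ, if_pos hpos]
      rw [h1, div_mul_cancel₀ _ hi1']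
      ring
    · left
      show θ i1 + t * y i1 = 0
      have h1 : t = θ i1 / (- y i1) := by rw [ht]; simp only [τ, if_neg hpos]
      rw [h1]
      field_simp
      ring
  have hcard' : Set.ncard {i | θ' i ≠ 0 ∧ θ' i ≠ 1} < n := by
    rw [← hFcard, ← Set.ncard_coe_finset]
    apply Set.ncard_lt_ncard _ (Set.toFinite _)
    refine ⟨?_, ?_⟩
    · intro i hi
      by_contra hcon
      have hiF : i ∉ F := fun h => hcon (by exact_mod_cast h)
      have h1 : θ' i = θ i := by
        show θ i + t * y i = θ i
        rw [hy0 i hiF, mul_zero, add_zero]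
      rcases hnF i hiF with h | h
      · exact hi.1 (by rw [h1, h])
      · exact hi.2 (by rw [h1, h])
    · intro hsub
      have h1 : i1 ∈ (F : Set ι) := by exact_mod_cast hyF i1 hi1'
      have h2 := hsub h1
      rcases hθ'1 with h | h
      · exact h2.1 h
      · exact h2.2 h
  obtain ⟨ε, hε1, hε2, hε3⟩ := ih _ hcard' θ' hθ' rfl
  have hεF : ∀ i, i ∉ F → (ε i : ℝ) = θ i := by
    intro i hi
    have h1 : θ' i = θ i := by
      show θ i + t * y i = θ i
      rw [hy0 i hi, mul_zero, add_zero]
    rw [← h1]
    apply hε2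
    rw [h1]
    exact hnF i hi
  refine ⟨ε, hε1, fun i hi => ?_, fun e => ?_⟩
  · apply hεF
    intro h
    have := hF' i h
    rcases hi with h1 | h1 <;> rw [h1] at this
    · exact absurd this.1 (lt_irrefl _)
    · exact absurd this.2 (lt_irrefl _)
  · by_cases heA : e ∈ A
    · have h1 : ∑ i, (if inc e i then ((ε i : ℝ) - θ i) else 0) =
          ∑ i, (if inc e i then ((ε i : ℝ) - θ' i) else 0) +
            t * ∑ i, (if inc e i then y i else 0) := by
        rw [Finset.mul_sum, ← Finset.sum_add_distrib]
        apply Finset.sum_congr rfl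
        intro i _
        by_cases h : inc e i
        · simp only [if_pos h, θ']
          ring
        · simp only [if_neg h, mul_zero, add_zero]
      rw [h1, hyA e heA, mul_zero, add_zero]
      exact hε3 e
    · have hle : (F.filter (fun i => inc e i)).card ≤ L := by
        by_contra hcon
        exact heA (by simp only [hA, mem_filter, mem_univ, true_and]; omega)
      have h1 : ∑ i, (if inc e i then ((ε i : ℝ) - θ i) else 0) =
          ∑ i ∈ F.filter (fun i => inc e i), ((ε i : ℝ) - θ i) := by
        rw [Finset.sum_filter]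
        symm
        apply Finset.sum_subset (Finset.subset_univ F)
        intro i _ hi
        rw [hεF i hi, sub_self, ite_self]
      rw [h1]
      by_cases hemp : (F.filter (fun i => inc e i)).Nonempty
      · calc |∑ i ∈ F.filter (fun i => inc e i), ((ε i : ℝ) - θ i)|
            ≤ ∑ i ∈ F.filter (fun i => inc e i), |(ε i : ℝ) - θ i| := Finset.abs_sum_le_sum_abs _ _
          _ < ∑ i ∈ F.filter (fun i => inc e i), (1 : ℝ) := by
              apply Finset.sum_lt_sum_of_nonempty hemp
              intro i hi
              have h2 := hF' i (Finset.mem_filter.1 hi).1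
              have h3 := hε1 i
              rw [abs_lt]
              rcases Nat.le_one_iff_eq_zero_or_eq_one.1 h3 with h4 | h4
              · rw [h4]; constructor <;> push_cast <;> linarith
              · rw [h4]; constructor <;> push_cast <;> linarith
          _ = ((F.filter (fun i => inc e i)).card : ℝ) := by
              rw [Finset.sum_const, nsmul_eq_mul, mul_one]
          _ ≤ L := by exact_mod_cast hle
      · rw [Finset.not_nonempty_iff_eq_empty] at hemp
        rw [hemp, Finset.sum_empty, abs_zero]
        exact hLR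

end Pool.Agent.H88.God
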