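import Pool.Graph.R_seed8.H655R2.GOD.Main

set_option autoImplicit false
set_option linter.unusedSectionVars false

/-!
Building blocks: families of even subgraphs coming from flows over the group of order eight.
-/

namespace Pool.Agent.H88.God

open Finset
open Pool.Agent.Helper879.ECD (F2 IsFlow f2_add_self f2_cases cn inc fnl fnl_inc)
open Pool.Agent.H126R2.CDC (MGraph IsFl isFl_iff exists_flow8)
open Pool.Agent.H126R2.NC
open Pool.Agent.H655R2.GOD

variable {V E : Type} [Fintype V] [DecidableEq V] [Fintype E] [DecidableEq E]

/-- the support of a flow is covered once -/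
lemma cover_flow (G : MGraph V E) (v : E × Bool → V)
    (hv : ∀ e, G.ends e = s(v (e, false), v (e, true))) (x : E → F2)
    (hx : IsFlow (fun e => v (e, false)) (fun e => v (e, true)) x) :
    InIntCone G (fun e => if x e = 1 then 1 else 0) := by
  have h1 : G.IsEven (univ.filter (fun e => x e = 1)) := by
    rw [G.isEven_iff v hv, isFl_iff]
    have h2 : (fun e => if e ∈ univ.filter (fun e => x e = 1) then (1 : F2) else 0) = x := by
      ext e
      rcases f2_cases (x e) with h4 | h4
      · simp [h4]
      · simp [h4]
    rw [h2]; exact hx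
  have h2 := cover_even G _ h1
  simpa using h2

lemma zero_cover (G : MGraph V E) : InIntCone G (fun _ => 0) :=
  ⟨0, by simp, by simp⟩

lemma sum_cover (G : MGraph V E) {ι : Type} [DecidableEq ι] (s : Finset ι) (p : ι → E → ℕ)
    (hp : ∀ i ∈ s, InIntCone G (p i)) : InIntCone G (fun e => ∑ i ∈ s, p i e) := by
  induction s using Finset.induction_on with
  | empty => simpa using zero_cover G
  | insert i s hi ih =>
    have h1 := ih (fun j hj => hp j (Finset.mem_insert_of_mem hj))
    have h2 := hp i (Finset.mem_insert_self i s)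
    have h3 := add_cover G h2 h1
    have h4 : (fun e => ∑ j ∈ insert i s, p j e) = fun e => p i e + ∑ j ∈ s, p j e := by
      ext e
      rw [Finset.sum_insert hi]
    rw [h4]; exact h3

lemma flow_add {a b : E → V} {x y : E → F2} (hx : IsFlow a b x) (hy : IsFlow a b y) :
    IsFlow a b (fun e => x e + y e) := by
  intro c
  have h1 := hx c
  have h2 := hy c
  have : ∑ e, (x e + y e) * (c (a e) + c (b e)) =
      ∑ e, x e * (c (a e) + c (b e)) + ∑ e, y e * (c (a e) + c (b e)) := by
    rw [← Finset.sum_add_distrib]
    apply Finset.sum_congr rfl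
    intro e _
    ring
  rw [this, h1, h2, add_zero]

lemma flow_smul {a b : E → V} {x : E → F2} (k : F2) (hx : IsFlow a b x) :
    IsFlow a b (fun e => k * x e) := by
  intro c
  have h1 := hx c
  have : ∑ e, (k * x e) * (c (a e) + c (b e)) = k * ∑ e, x e * (c (a e) + c (b e)) := by
    rw [Finset.mul_sum]
    apply Finset.sum_congr rfl
    intro e _
    ring
  rw [this, h1, mul_zero]

/-- a flow over the group of order eight with support exactly the complement of `C` -/
lemma flow8_off (a b : E → V) (C : Finset E) (hC : ∀ B : Finset V, cn a b (univ \ C) B ≠ 1) :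
    ∃ ψ : Fin 3 → E → F2, (∀ e, e ∉ C → (ψ 0 e ≠ 0 ∨ ψ 1 e ≠ 0 ∨ ψ 2 e ≠ 0)) ∧
      (∀ e ∈ C, ∀ i, ψ i e = 0) ∧ ∀ i, IsFlow a b (ψ i) := by
  classical
  let b' : E → V := fun e => if e ∈ C then a e else b e
  obtain ⟨ψ, h1, h2⟩ := exists_flow8 _ a b' rfl (by
    intro B
    have h1 : cn a b' univ B = cn a b (univ \ C) B := by
      unfold cn
      congr 1
      ext e
      simp only [Finset.mem_filter, Finset.mem_univ, true_and, Finset.mem_sdiff, b']
      by_cases h : e ∈ C
      · simp [h]
      · simp [h]
    rw [h1]
    exact hC B)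
  refine ⟨fun i e => if e ∈ C then 0 else ψ i e, ?_, ?_, ?_⟩
  · intro e he
    simp only [he, if_false]
    exact h1 e
  · intro e he i
    simp [he]
  · intro i c
    refine Eq.trans ?_ (h2 i c)
    apply Finset.sum_congr rfl
    intro e _
    by_cases h : e ∈ C
    · simp only [h, if_true, b', f2_add_self, mul_zero, zero_mul]
    · simp only [h, if_false, b']

lemma count8 : ∀ a b c o : F2, (a ≠ 0 ∨ b ≠ 0 ∨ c ≠ 0) →
    ((univ : Finset (F2 × F2 × F2)).filter (fun h =>
      h.1 * a + h.2.1 * b + h.2.2 * c + o = 1)).card = 4 := by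
  decide

/-- eight even subgraphs: every edge outside `C` is in four of them, every edge of `C` is in all
or in none of them as prescribed by the flow `h` -/
lemma delta_block (G : MGraph V E) (v : E × Bool → V)
    (hv : ∀ e, G.ends e = s(v (e, false), v (e, true))) (C : Finset E)
    (hC : ∀ B : Finset V, cn (fun e => v (e, false)) (fun e => v (e, true)) (univ \ C) B ≠ 1)
    (h : E → F2) (hh : IsFlow (fun e => v (e, false)) (fun e => v (e, true)) h) :
    InIntCone G (fun e => if e ∈ C then (if h e = 1 then 8 else 0) else 4) := by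
  classical
  obtain ⟨ψ, h1, h2, h3⟩ := flow8_off (fun e => v (e, false)) (fun e => v (e, true)) C hC
  let val : F2 × F2 × F2 → E → F2 := fun z e =>
    z.1 * ψ 0 e + z.2.1 * ψ 1 e + z.2.2 * ψ 2 e + h e
  have hval : ∀ z, IsFlow (fun e => v (e, false)) (fun e => v (e, true)) (val z) := fun z =>
    flow_add (flow_add (flow_add (flow_smul _ (h3 0)) (flow_smul _ (h3 1)))
      (flow_smul _ (h3 2))) hh
  have h4 := sum_cover G (univ : Finset (F2 × F2 × F2)) (fun z e => if val z e = 1 then 1 else 0)
    (fun z _ => cover_flow G v hv _ (hval z))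
  have h5 : (fun e => ∑ z : F2 × F2 × F2, if val z e = 1 then 1 else 0) =
      fun e => if e ∈ C then (if h e = 1 then 8 else 0) else 4 := by
    ext e
    rw [← Finset.card_filter]
    by_cases he : e ∈ C
    · rw [if_pos he]
      have h6 : ∀ z, val z e = h e := by
        intro z
        simp [val, h2 e he]
      simp only [h6]
      by_cases h7 : h e = 1
      · rw [if_pos h7]
        simp only [h7, Finset.filter_true]
        rfl
      · rw [if_neg h7]
        simp [h7]
    · rw [if_neg he]
      exact count8 (ψ 0 e) (ψ 1 e) (ψ 2 e) (h e) (h1 e he)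
  rw [← h5]; exact h4

/-- prescribed values on `C` extend to a flow if they are compatible with the cuts inside `C` -/
lemma ext_flow (a b : E → V) (C : Finset E) (t : E → F2)
    (h : ∀ c : V → F2, (∀ e, e ∉ C → c (a e) + c (b e) = 0) →
      ∑ e ∈ C, t e * (c (a e) + c (b e)) = 0) :
    ∃ x : E → F2, IsFlow a b x ∧ ∀ e ∈ C, x e = t e := by
  classical
  let y : V → F2 := ∑ e ∈ C, t e • inc a b e
  let S : Submodule F2 (V → F2) := Submodule.span F2 (Set.range (fun e : {e // e ∉ C} => inc a b e))
  have hy : y ∈ S := by
    by_contra hcon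
    obtain ⟨f, hf1, hf2⟩ := Submodule.exists_le_ker_of_notMem hcon
    -- the functional is given by a vector
    let c : V → F2 := fun w => f (Pi.single w 1)
    have hc : ∀ x : V → F2, f x = fnl c x := by
      intro x
      have hx : x = ∑ w, x w • (Pi.single w 1 : V → F2) := by
        ext w
        simp [Finset.sum_apply, Pi.single_apply]
      rw [hx, map_sum, map_sum]
      apply Finset.sum_congr rfl
      intro w _
      rw [map_smul, map_smul, Pool.Agent.Helper879.ECD.fnl_single]
    have h1 := h c (by
      intro e he
      have h2 : inc a b e ∈ S := Submodule.subset_span ⟨⟨e, he⟩, rfl⟩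
      have h3 := hf2 h2
      rw [LinearMap.mem_ker, hc, fnl_inc] at h3
      exact h3)
    apply hf1
    rw [hc]
    show fnl c (∑ e ∈ C, t e • inc a b e) = 0
    rw [map_sum, ← h1]
    apply Finset.sum_congr rfl
    intro e _
    rw [map_smul, fnl_inc, smul_eq_mul]
  obtain ⟨g, hg⟩ := (Submodule.mem_span_range_iff_exists_fun F2).1 hy
  refine ⟨fun e => if he : e ∈ C then t e else g ⟨e, he⟩, ?_, ?_⟩
  · intro c
    have h1 : fnl c y = fnl c (∑ i, g i • inc a b i) := by rw [hg]
    have h2 : fnl c y = ∑ e ∈ C, t e * (c (a e) + c (b e)) := by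
      show fnl c (∑ e ∈ C, t e • inc a b e) = _
      rw [map_sum]
      apply Finset.sum_congr rfl
      intro e _
      rw [map_smul, fnl_inc, smul_eq_mul]
    have h3 : fnl c (∑ i, g i • inc a b i) =
        ∑ i : {e // e ∉ C}, g i * (c (a i) + c (b i)) := by
      rw [map_sum]
      apply Finset.sum_congr rfl
      intro e _
      rw [map_smul, fnl_inc, smul_eq_mul]
    have h4 : ∑ e, (if he : e ∈ C then t e else g ⟨e, he⟩) * (c (a e) + c (b e)) =
        ∑ e ∈ C, t e * (c (a e) + c (b e)) + ∑ i : {e // e ∉ C}, g i * (c (a i) + c (b i)) := by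
      rw [← Finset.sum_add_sum_compl C]
      congr 1
      · apply Finset.sum_congr rfl
        intro e he
        rw [dif_pos he]
      · rw [Finset.sum_subtype Cᶜ (p := fun e => e ∉ C) (by simp)
          (fun e => (if he : e ∈ C then t e else g ⟨e, he⟩) * (c (a e) + c (b e)))]
        apply Finset.sum_congr rfl
        intro e _
        rw [dif_neg e.2]
    rw [h4, ← h2, ← h3, h1, f2_add_self]
  · intro e he
    show (if he : e ∈ C then t e else g ⟨e, he⟩) = t e
    rw [dif_pos he]

/-- the difference of two flows etc.: a set of edges closed under two-edge cuts inside a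
removable set `C` is the trace of a flow -/
lemma ext_tc (a b : E → V) (C T : Finset E) (hTC : T ⊆ C)
    (hCc : ∀ e ∈ C, ∀ f, TC a b e f → f ∈ C) (hTc : ∀ e ∈ T, ∀ f, TC a b e f → f ∈ T)
    (hrem : ∀ X : Finset E, X ⊆ C → (∀ e ∈ X, ∀ f, TC a b e f → f ∈ X) →
      ∀ B : Finset V, cn a b (univ \ X) B ≠ 1) :
    ∃ x : E → F2, IsFlow a b x ∧ ∀ e ∈ C, x e = if e ∈ T then 1 else 0 := by
  classical
  apply ext_flow a b C (fun e => if e ∈ T then 1 else 0)
  -- induction on the size of the cut
  have key : ∀ (n : ℕ) (c : V → F2), (univ.filter (fun e => c (a e) + c (b e) = 1)).card = n →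
      (∀ e, e ∉ C → c (a e) + c (b e) = 0) →
      ∑ e ∈ C, (if e ∈ T then (1 : F2) else 0) * (c (a e) + c (b e)) = 0 := by
    intro n
    induction n using Nat.strong_induction_on with
    | _ n ih =>
    intro c hn hc
    by_cases hex : ∃ e ∈ T, c (a e) + c (b e) = 1
    · obtain ⟨e, heT, he1⟩ := hex
      let X : Finset E := C.filter (fun f => ¬ TC a b e f)
      have hX := hrem X (Finset.filter_subset _ _) (by
        intro f hf g hfg
        rw [Finset.mem_filter] at hf ⊢
        exact ⟨hCc f hf.1 g hfg, fun h => hf.2 (h.trans hfg.symm)⟩)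
        (univ.filter (fun w => c w = 1))
      have hmem : ∀ g, g ∈ (univ \ X).filter (fun f => ¬ (a f ∈ univ.filter (fun w => c w = 1) ↔
          b f ∈ univ.filter (fun w => c w = 1))) ↔ c (a g) + c (b g) = 1 ∧ TC a b e g := by
        intro g
        rw [Finset.mem_filter, Finset.mem_sdiff]
        simp only [Finset.mem_univ, true_and, Finset.mem_filter, X]
        rw [f2_ne]
        constructor
        · rintro ⟨h1, h2⟩
          refine ⟨h2, ?_⟩
          by_contra h3
          apply h1
          refine ⟨?_, h3⟩
          by_contra h4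
          rw [hc g h4] at h2
          exact absurd h2 (by decide)
        · rintro ⟨h1, h2⟩
          exact ⟨fun h3 => h3.2 h2, h1⟩
      obtain ⟨f, hfe, hf⟩ : ∃ f, f ≠ e ∧ (c (a f) + c (b f) = 1 ∧ TC a b e f) := by
        by_contra hcon
        push Not at hcon
        apply hX
        unfold cn
        rw [Finset.card_eq_one]
        refine ⟨e, ?_⟩
        ext g
        rw [hmem, Finset.mem_singleton]
        constructor
        · rintro ⟨h1, h2⟩
          by_contra h3
          exact hcon g h3 h1 h2
        · rintro rfl
          exact ⟨he1, TC.refl a b g⟩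
      obtain ⟨hf1, z, hz⟩ := hf
      have hfT : f ∈ T := hTc e heT f ⟨z, hz⟩
      have hval : ∀ g, (c (a g) + z (a g)) + (c (b g) + z (b g)) = (c (a g) + c (b g)) +
          ((if g = e then 1 else 0) + (if g = f then 1 else 0)) := by
        intro g
        rw [← hz g]; ring
      have h1 := ih _ (by
        rw [← hn]
        apply Finset.card_lt_card
        rw [Finset.ssubset_iff_of_subset]
        · refine ⟨e, by simpa using he1, ?_⟩
          rw [Finset.mem_filter, hval, he1, if_pos rfl, if_neg (Ne.symm hfe)]
          simp [f2_add_self]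
        · intro g
          rw [Finset.mem_filter, Finset.mem_filter]
          rintro ⟨h1, h2⟩
          refine ⟨h1, ?_⟩
          by_cases h3 : g = e
          · rw [h3]; exact he1
          · by_cases h4 : g = f
            · rw [h4]; exact hf1
            · rw [hval, if_neg h3, if_neg h4] at h2
              simpa using h2) (fun w => c w + z w) rfl (by
        intro g hg
        have hge : g ≠ e := by
          intro h5
          rw [h5] at hg
          exact hg (hTC heT)
        have hgf : g ≠ f := by
          intro h5
          rw [h5] at hg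
          exact hg (hTC hfT)
        rw [hval, hc g hg, if_neg hge, if_neg hgf]
        simp)
      have h2 : ∑ g ∈ C, (if g ∈ T then (1 : F2) else 0) *
          ((c (a g) + z (a g)) + (c (b g) + z (b g))) =
          ∑ g ∈ C, (if g ∈ T then (1 : F2) else 0) * (c (a g) + c (b g)) +
          (∑ g ∈ C, (if g = e then (1 : F2) else 0) + ∑ g ∈ C, (if g = f then (1 : F2) else 0)) := by
        rw [← Finset.sum_add_distrib, ← Finset.sum_add_distrib]
        apply Finset.sum_congr rfl
        intro g _
        rw [hval]
        by_cases h3 : g = e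
        · subst h3
          rw [if_pos heT]; ring
        · by_cases h4 : g = f
          · subst h4
            rw [if_pos hfT]; ring
          · rw [if_neg h3, if_neg h4]; ring
      rw [h2, Finset.sum_ite_eq', Finset.sum_ite_eq', if_pos (hTC heT), if_pos (hTC hfT),
        f2_add_self, add_zero] at h1
      exact h1
    · apply Finset.sum_eq_zero
      intro e _
      by_cases heT : e ∈ T
      · have h1 : c (a e) + c (b e) = 0 := by
          rcases f2_cases (c (a e) + c (b e)) with h2 | h2
          · exact h2
          · exact absurd ⟨e, heT, h2⟩ hex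
        rw [h1, mul_zero]
      · rw [if_neg heT, zero_mul]
  intro c hc
  exact key _ c rfl hc

end Pool.Agent.H88.God
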