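import Pool.Agent.H88.God.Blocks

set_option autoImplicit false
set_option linter.unusedSectionVars false

/-!
Even weights in a range of ratio 5/4, constant on the two-edge cuts.
-/

namespace Pool.Agent.H88.God

open Finset
open Pool.Agent.Helper879.ECD (F2 IsFlow f2_add_self f2_cases cn inc fnl fnl_inc)
open Pool.Agent.H126R2.CDC (MGraph IsFl isFl_iff exists_flow8)
open Pool.Agent.H126R2.NC
open Pool.Agent.H655R2.GOD

variable {V E : Type} [Fintype V] [DecidableEq V] [Fintype E] [DecidableEq E]

/-- removable classes give covers: `r + 1` classes -/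
theorem cover_classes (G : MGraph V E) (v : E × Bool → V)
    (hv : ∀ e, G.ends e = s(v (e, false), v (e, true))) {κ : Type} [Fintype κ] [DecidableEq κ]
    (col : E → κ)
    (hcol1 : ∀ e f, TC (fun e => v (e, false)) (fun e => v (e, true)) e f → col e = col f)
    (hcol2 : ∀ (X : Finset E) (γ : κ), (∀ e ∈ X, col e = γ) →
      (∀ e ∈ X, ∀ f, TC (fun e => v (e, false)) (fun e => v (e, true)) e f → f ∈ X) →
      ∀ B : Finset V, cn (fun e => v (e, false)) (fun e => v (e, true)) (univ \ X) B ≠ 1)
    (q : E → ℕ) (n m r : ℕ) (hr : Fintype.card κ = r + 1)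
    (hq : ∀ e, 2 * r * n + r * m ≤ q e ∧ q e ≤ (2 * r + 4) * n + (r + 1) * m)
    (hnm : n = 0 ∨ 3 ≤ m)
    (htc : ∀ e f, TC (fun e => v (e, false)) (fun e => v (e, true)) e f → q e = q f) :
    InIntCone G (fun e => 2 * q e) := by
  classical
  set a : E → V := fun e => v (e, false) with ha
  set b : E → V := fun e => v (e, true) with hb
  -- the number of blocks
  let R : E → ℕ := fun e => q e - (2 * r * n + r * m)
  let t : E → ℕ := fun e => min n (R e / 4)
  let u : E → ℕ := fun e => R e - 4 * t e
  have hRle : ∀ e, R e ≤ 4 * n + m := by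
    intro e
    have h1 := hq e
    have h2 : (2 * r + 4) * n + (r + 1) * m = (2 * r * n + r * m) + (4 * n + m) := by ring
    simp only [R]
    omega
  have htn : ∀ e, t e ≤ n := fun e => min_le_left _ _
  have htR : ∀ e, 4 * t e ≤ R e := by
    intro e
    have : t e ≤ R e / 4 := min_le_right _ _
    omega
  have hum : ∀ e, u e ≤ m := by
    intro e
    have h1 := hRle e
    simp only [u, t]
    rcases Nat.le_total n (R e / 4) with h | h
    · rw [min_eq_left h]; omega
    · rw [min_eq_right h]
      rcases hnm with h2 | h2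
      · subst h2; omega
      · omega
  have hRtu : ∀ e, q e = 2 * r * n + r * m + 4 * t e + u e := by
    intro e
    have h1 := hq e
    have h2 := htR e
    simp only [u]
    simp only [R] at h2 ⊢
    omega
  have hR : ∀ e f, TC a b e f → R e = R f := fun e f h => by simp only [R]; rw [htc e f h]
  have ht : ∀ e f, TC a b e f → t e = t f := fun e f h => by simp only [t]; rw [hR e f h]
  have hu : ∀ e f, TC a b e f → u e = u f := fun e f h => by
    simp only [u]; rw [hR e f h, ht e f h]
  -- the first kind of blocks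
  have hd : ∀ (γ : κ) (j : ℕ), InIntCone G (fun e => if col e = γ then
      (if j < t e then 8 else 0) else 4) := by
    intro γ j
    obtain ⟨x, hx1, hx2⟩ := ext_tc a b (univ.filter (fun e => col e = γ))
      (univ.filter (fun e => col e = γ ∧ j < t e))
      (by
        intro e he
        rw [Finset.mem_filter] at he ⊢
        exact ⟨he.1, he.2.1⟩)
      (by
        intro e he f hf
        rw [Finset.mem_filter] at he ⊢
        exact ⟨Finset.mem_univ _, (hcol1 e f hf) ▸ he.2⟩)
      (by
        intro e he f hf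
        rw [Finset.mem_filter] at he ⊢
        refine ⟨Finset.mem_univ _, (hcol1 e f hf) ▸ he.2.1, ?_⟩
        rw [← ht e f hf]; exact he.2.2)
      (by
        intro X hX hXc
        exact hcol2 X γ (fun e he => (Finset.mem_filter.1 (hX he)).2) hXc)
    have h1 := delta_block G v hv (univ.filter (fun e => col e = γ)) (by
      apply hcol2 _ γ
      · intro e he
        exact (Finset.mem_filter.1 he).2
      · intro e he f hf
        rw [Finset.mem_filter] at he ⊢
        exact ⟨Finset.mem_univ _, (hcol1 e f hf) ▸ he.2⟩) x hx1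
    convert h1 using 2 with e
    by_cases he : col e = γ
    · have he2 : e ∈ univ.filter (fun e => col e = γ) := by simp [he]
      rw [if_pos he, if_pos he2, hx2 e he2]
      by_cases h2 : j < t e
      · simp [he, h2]
      · simp [h2]
    · rw [if_neg he, if_neg (by simp [he])]
  -- the second kind of blocks
  have hb2 : ∀ (γ : κ) (j : ℕ), InIntCone G (fun e =>
      if e ∈ univ.filter (fun e => col e = γ ∧ ¬ j < u e) then 0 else 2) := by
    intro γ j
    apply cover_minus G v hv
    apply hcol2 _ γ
    · intro e he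
      exact (Finset.mem_filter.1 he).2.1
    · intro e he f hf
      rw [Finset.mem_filter] at he ⊢
      refine ⟨Finset.mem_univ _, (hcol1 e f hf) ▸ he.2.1, ?_⟩
      rw [← hu e f hf]; exact he.2.2
  have h1 := sum_cover G (univ : Finset κ) _ (fun γ _ =>
    sum_cover G (Finset.range n) _ (fun j _ => hd γ j))
  have h2 := sum_cover G (univ : Finset κ) _ (fun γ _ =>
    sum_cover G (Finset.range m) _ (fun j _ => hb2 γ j))
  have h3 := add_cover G h1 h2
  convert h3 using 2 with e
  have hcard : ∀ (P : κ → ℕ) (B : ℕ), (∀ γ, γ ≠ col e → P γ = B) →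
      ∑ γ, P γ = P (col e) + r * B := by
    intro P B hP
    rw [← Finset.add_sum_erase _ _ (Finset.mem_univ (col e))]
    congr 1
    rw [Finset.sum_congr rfl (fun γ hγ => hP γ (Finset.ne_of_mem_erase hγ)), Finset.sum_const,
      Finset.card_erase_of_mem (Finset.mem_univ _), Finset.card_univ, hr, smul_eq_mul]
    rfl
  have hlt : ∀ s N : ℕ, s ≤ N → ((Finset.range N).filter (fun j => j < s)).card = s := by
    intro s N hs
    have h7 : (Finset.range N).filter (fun j => j < s) = Finset.range s := by
      ext j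
      rw [Finset.mem_filter, Finset.mem_range, Finset.mem_range]
      omega
    rw [h7, Finset.card_range]
  have e1 : ∑ γ : κ, ∑ j ∈ Finset.range n, (if col e = γ then (if j < t e then 8 else 0) else 4) =
      8 * t e + r * (4 * n) := by
    rw [hcard _ (4 * n)]
    · congr 1
      simp only [if_true]
      rw [← Finset.sum_filter, Finset.sum_const, hlt _ _ (htn e), smul_eq_mul, mul_comm]
    · intro γ hγ
      simp only [if_neg (Ne.symm hγ)]
      rw [Finset.sum_const, Finset.card_range, smul_eq_mul, mul_comm]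
  have e2 : ∑ γ : κ, ∑ j ∈ Finset.range m,
      (if e ∈ univ.filter (fun e => col e = γ ∧ ¬ j < u e) then 0 else 2) =
      2 * u e + r * (2 * m) := by
    rw [hcard _ (2 * m)]
    · congr 1
      have h4 : ∀ j ∈ Finset.range m,
          (if e ∈ univ.filter (fun e' => col e' = col e ∧ ¬ j < u e') then 0 else 2) =
          if j < u e then 2 else 0 := by
        intro j _
        by_cases h5 : j < u e
        · rw [if_pos h5, if_neg (by simp [h5])]
        · rw [if_neg h5, if_pos (by rw [Finset.mem_filter]; exact ⟨Finset.mem_univ _, rfl, h5⟩)]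
      rw [Finset.sum_congr rfl h4, ← Finset.sum_filter, Finset.sum_const, hlt _ _ (hum e),
        smul_eq_mul, mul_comm]
    · intro γ hγ
      have h4 : ∀ j ∈ Finset.range m,
          (if e ∈ univ.filter (fun e' => col e' = γ ∧ ¬ j < u e') then 0 else 2) = 2 := by
        intro j _
        rw [if_neg (by simp [Ne.symm hγ])]
      rw [Finset.sum_congr rfl h4, Finset.sum_const, Finset.card_range, smul_eq_mul, mul_comm]
  rw [e1, e2, hRtu e]
  ring

/-- ratio 5/4 -/
theorem cover_ratio (G : MGraph V E) (v : E × Bool → V)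
    (hv : ∀ e, G.ends e = s(v (e, false), v (e, true)))
    (hbr : ∀ X : Finset V, cn (fun e => v (e, false)) (fun e => v (e, true)) univ X ≠ 1)
    (q : E → ℕ) (n m : ℕ) (hnm : n = 0 ∨ 3 ≤ m)
    (hq : ∀ e, 16 * n + 8 * m ≤ q e ∧ q e ≤ 20 * n + 9 * m)
    (htc : ∀ e f, TC (fun e => v (e, false)) (fun e => v (e, true)) e f → q e = q f) :
    InIntCone G (fun e => 2 * q e) := by
  obtain ⟨col, hcol1, hcol2⟩ := nine_colouring_bridgeless (fun e => v (e, false))
    (fun e => v (e, true)) hbr
  exact cover_classes G v hv col hcol1 hcol2 q n m 8 (by simp) (fun e => by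
    have := hq e
    constructor
    · omega
    · omega) hnm htc

lemma exists_nm {E : Type} [Fintype E] (q : E → ℕ) (h : ∀ e f, 4 * q e + 51 ≤ 5 * q f) :
    ∃ n m : ℕ, (n = 0 ∨ 3 ≤ m) ∧ ∀ e, 16 * n + 8 * m ≤ q e ∧ q e ≤ 20 * n + 9 * m := by
  by_cases hE : IsEmpty E
  · exact ⟨0, 0, Or.inl rfl, fun e => (hE.false e).elim⟩
  rw [not_isEmpty_iff] at hE
  obtain ⟨e1, -, he1⟩ := Finset.exists_min_image (univ : Finset E) q Finset.univ_nonempty
  have h0 := h e1 e1
  -- remainder modulo 16 of q e1 - 24
  refine ⟨(q e1 - 24) / 16, 3 + ((q e1 - 24) % 16) / 8, Or.inr (by omega), ?_⟩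
  intro e
  have h1 := he1 e (Finset.mem_univ _)
  have h2 := h e e1
  constructor
  · omega
  · omega

theorem ratio_main (G : MGraph V E) (w : E → ℕ) (hpos : ∀ e, 0 < w e)
    (heul : ∀ X : Finset V, Even (∑ e ∈ cut G X, w e))
    (hadm : ∀ X : Finset V, ∀ e ∈ cut G X, 2 * w e ≤ ∑ f ∈ cut G X, w f)
    (q : E → ℕ) (k : ℕ)
    (hk : (∀ e, w e = 2 * q e + k * (w e % 2)) ∨ (∀ e, w e + k * (w e % 2) = 2 * q e + 4 * k))
    (hq : (∃ n m : ℕ, (n = 0 ∨ 3 ≤ m) ∧ ∀ e, 16 * n + 8 * m ≤ q e ∧ q e ≤ 20 * n + 9 * m) ∨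
      ∀ e f, 4 * q e + 51 ≤ 5 * q f) :
    InIntCone G w := by
  obtain ⟨v, hv⟩ := G.exists_halves
  have hq' : ∃ n m : ℕ, (n = 0 ∨ 3 ≤ m) ∧ ∀ e, 16 * n + 8 * m ≤ q e ∧ q e ≤ 20 * n + 9 * m := by
    rcases hq with h | h
    · exact h
    · exact exists_nm q h
  obtain ⟨n, m, hnm, hq2⟩ := hq'
  have htc : ∀ e f, TC (fun e => v (e, false)) (fun e => v (e, true)) e f → q e = q f := by
    intro e f hef
    have h1 := adm_tc G v hv w hadm e f hef
    rcases hk with hk | hk
    · have h2 := hk e
      have h3 := hk f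
      rw [h1] at h2
      omega
    · have h2 := hk e
      have h3 := hk f
      rw [h1] at h2
      omega
  apply combine G w hpos heul hadm (fun e => 2 * q e) _ k hk
  exact cover_ratio G v hv (adm_cn G v hv w hpos hadm) q n m hnm hq2 htc

end Pool.Agent.H88.God
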