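import Pool.Agent.H88.God.Multi
import Pool.Agent.H88.God.Ratio
import Pool.Graph.R_seed8.W831.ECC.Soc

set_option autoImplicit false
set_option linter.unusedSectionVars false

/-!
Representations of a vector of the circuit cone with few circuits, and rounding.
-/

namespace Pool.Agent.H88.God

open Finset
open Pool.Agent.Helper879.ECD (F2 IsFlow f2_add_self f2_cases cn)
open Pool.Agent.H126R2.CDC (MGraph IsFl isFl_iff)
open Pool.Agent.H126R2.NC
open Pool.Agent.H655R2.GOD
open Pool.Agent.W831.ECC (RCone rcone_of_cut exists_rounding dev)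
open Pool.Agent.W831.ECC.Gad (CutC Lv)

variable {V E : Type} [Fintype V] [DecidableEq V] [Fintype E] [DecidableEq E]

/-- a representation over the family `s` -/
def Rep (G : MGraph V E) (x : E → ℝ) (s : Finset (Finset E)) (c : Finset E → ℝ) : Prop :=
  (∀ C ∈ s, G.IsCircuit C) ∧ (∀ C, 0 ≤ c C) ∧
    ∀ e, x e = ∑ C ∈ s, c C * (if e ∈ C then 1 else 0)

lemma rep_shrink (G : MGraph V E) (x : E → ℝ) (s : Finset (Finset E)) (c : Finset E → ℝ)
    (h : Rep G x s c) (hs : Fintype.card E < s.card) :
    ∃ s' c', s'.card < s.card ∧ Rep G x s' c' := by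
  classical
  obtain ⟨hC, h0, hx⟩ := h
  let f : {C // C ∈ s} → (E → ℝ) := fun C e => if e ∈ C.1 then 1 else 0
  have hdep : ¬ LinearIndependent ℝ f := by
    intro hli
    have h1 := hli.fintype_card_le_finrank
    rw [Module.finrank_fintype_fun_eq_card, Fintype.card_coe] at h1
    omega
  rw [Fintype.not_linearIndependent_iff] at hdep
  obtain ⟨g, hg, i0, hi0⟩ := hdep
  -- a relation with a positive coefficient
  obtain ⟨g, hg, i0, hi0⟩ : ∃ g : {C // C ∈ s} → ℝ, ∑ i, g i • f i = 0 ∧ ∃ i, 0 < g i := by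
    rcases lt_or_gt_of_ne hi0 with h | h
    · refine ⟨fun i => - g i, ?_, i0, by simpa using h⟩
      have : ∑ i, (- g i) • f i = - ∑ i, g i • f i := by
        rw [← Finset.sum_neg_distrib]
        apply Finset.sum_congr rfl
        intro i _
        rw [neg_smul]
      rw [this, hg, neg_zero]
    · exact ⟨g, hg, i0, h⟩
  have hge : ∀ e, ∑ i : {C // C ∈ s}, g i * (if e ∈ i.1 then 1 else 0) = 0 := by
    intro e
    have h1 := congrFun hg e
    rw [Finset.sum_apply] at h1
    simpa [f, smul_eq_mul] using h1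
  obtain ⟨i1, hi1, hmin⟩ := Finset.exists_min_image (univ.filter (fun i : {C // C ∈ s} => 0 < g i))
    (fun i => c i.1 / g i) ⟨i0, by simp [hi0]⟩
  have hi1' : 0 < g i1 := (Finset.mem_filter.1 hi1).2
  set t : ℝ := c i1.1 / g i1 with ht
  have ht0 : 0 ≤ t := div_nonneg (h0 _) hi1'.le
  let c' : Finset E → ℝ := fun C => if hCs : C ∈ s then c C - t * g ⟨C, hCs⟩ else c C
  have hc'0 : ∀ C, 0 ≤ c' C := by
    intro C
    by_cases hCs : C ∈ s
    · simp only [c', hCs, dif_pos]
      by_cases hgC : 0 < g ⟨C, hCs⟩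
      · have h1 := hmin ⟨C, hCs⟩ (by simp [hgC])
        have h2 : t * g ⟨C, hCs⟩ ≤ c C := by
          rw [le_div_iff₀ hgC] at h1
          exact h1
        linarith
      · have h2 : t * g ⟨C, hCs⟩ ≤ 0 := mul_nonpos_of_nonneg_of_nonpos ht0 (not_lt.1 hgC)
        have := h0 C
        linarith
    · simp only [c', hCs, dif_neg, not_false_eq_true]
      exact h0 C
  have hc'1 : c' i1.1 = 0 := by
    have h1 : i1.1 ∈ s := i1.2
    simp only [c', h1, dif_pos]
    have h2 : t * g i1 = c i1.1 := by
      rw [ht]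
      field_simp
    have h3 : g ⟨i1.1, h1⟩ = g i1 := rfl
    rw [h3, h2, sub_self]
  refine ⟨s.erase i1.1, c', ?_, ?_, hc'0, ?_⟩
  · exact Finset.card_erase_lt_of_mem i1.2
  · intro C hC'
    exact hC C (Finset.mem_of_mem_erase hC')
  · intro e
    have h1 : ∑ C ∈ s.erase i1.1, c' C * (if e ∈ C then (1 : ℝ) else 0) =
        ∑ C ∈ s, c' C * (if e ∈ C then (1 : ℝ) else 0) := by
      rw [← Finset.add_sum_erase s _ i1.2, hc'1, zero_mul, zero_add]
    rw [h1, hx e]
    have h2 : ∑ C ∈ s, c' C * (if e ∈ C then (1 : ℝ) else 0) =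
        ∑ i : {C // C ∈ s}, (c i.1 * (if e ∈ i.1 then (1 : ℝ) else 0) -
          t * (g i * (if e ∈ i.1 then (1 : ℝ) else 0))) := by
      rw [← Finset.sum_coe_sort s]
      apply Finset.sum_congr rfl
      intro i _
      have h3 : i.1 ∈ s := i.2
      simp only [c', h3, dif_pos]
      ring
    rw [h2, Finset.sum_sub_distrib, ← Finset.mul_sum, hge e, mul_zero, sub_zero,
      Finset.sum_coe_sort s (fun C => c C * (if e ∈ C then (1 : ℝ) else 0))]

/-- Caratheodory -/
lemma exists_rep (G : MGraph V E) (x : E → ℝ) (h : RCone G x) :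
    ∃ s c, s.card ≤ Fintype.card E ∧ Rep G x s c := by
  classical
  have hex : ∃ n : ℕ, ∃ s c, s.card = n ∧ Rep G x s c := by
    obtain ⟨c, h0, h1, h2⟩ := h
    refine ⟨_, univ.filter (fun C => G.IsCircuit C), c, rfl, ?_, h0, ?_⟩
    · intro C hC
      exact (Finset.mem_filter.1 hC).2
    · intro e
      rw [h2 e, Finset.sum_filter]
      apply Finset.sum_congr rfl
      intro C _
      by_cases hC : G.IsCircuit C
      · rw [if_pos hC]
      · rw [if_neg hC, h1 C hC, zero_mul]
  obtain ⟨s, c, hs, hrep⟩ := Nat.find_spec hex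
  refine ⟨s, c, ?_, hrep⟩
  by_contra hcon
  push Not at hcon
  obtain ⟨s', c', hs', hrep'⟩ := rep_shrink G x s c hrep hcon
  have := Nat.find_min hex (m := s'.card) (by omega)
  exact this ⟨s', c', rfl, hrep'⟩

/-- near-constant weights, constant on the two-edge cuts, on graphs without one-edge cuts -/
theorem near_cover (G : MGraph V E) (v : E × Bool → V)
    (hv : ∀ e, G.ends e = s(v (e, false), v (e, true)))
    (hbr : ∀ X : Finset V, cn (fun e => v (e, false)) (fun e => v (e, true)) univ X ≠ 1)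
    (w : E → ℕ) (heul : ∀ X : Finset V, Even (∑ e ∈ cut G X, w e))
    (htc : ∀ e f, TC (fun e => v (e, false)) (fun e => v (e, true)) e f → w e = w f)
    (hq : ∀ e f, 4 * (w e / 2) + 51 ≤ 5 * (w f / 2)) : InIntCone G w := by
  obtain ⟨n, m, hnm, hq2⟩ := exists_nm (fun e => w e / 2) hq
  have h1 := cover_ratio G v hv hbr (fun e => w e / 2) n m hnm hq2 (by
    intro e f hef
    show w e / 2 = w f / 2
    rw [htc e f hef])
  apply combine_br G v hv hbr w heul _ h1 1
  left
  intro e
  show w e = 2 * (w e / 2) + 1 * (w e % 2)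
  omega

/-- a circuit meets every cut in an even number of edges -/
lemma even_cut (G : MGraph V E) (v : E × Bool → V)
    (hv : ∀ e, G.ends e = s(v (e, false), v (e, true))) (C : Finset E) (hC : G.IsCircuit C)
    (X : Finset V) : Even (∑ e ∈ cut G X, (if e ∈ C then 1 else 0)) := by
  rw [← ZMod.natCast_eq_zero_iff_even]
  have h1 := (isFl_iff v _).1 ((G.isEven_iff v hv C).1 hC.isEven) (fun w => if w ∈ X then 1 else 0)
  refine Eq.trans ?_ h1
  rw [Nat.cast_sum]
  have h2 : ∑ e ∈ cut G X, (((if e ∈ C then 1 else 0 : ℕ) : ℕ) : F2) =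
      ∑ e : E, (if e ∈ cut G X then (((if e ∈ C then 1 else 0 : ℕ) : ℕ) : F2) else 0) := by
    rw [← Finset.sum_filter]
    apply Finset.sum_congr _ (fun _ _ => rfl)
    ext e
    simp
  rw [h2]
  apply Finset.sum_congr rfl
  intro e _
  have h3 := mem_cut G v hv X e
  by_cases h4 : v (e, false) ∈ X <;> by_cases h5 : v (e, true) ∈ X
  · rw [if_neg (fun h => (h3.1 h) ⟨fun _ => h5, fun _ => h4⟩), if_pos h4, if_pos h5, f2_add_self,
      mul_zero]
  · rw [if_pos (h3.2 (fun h => h5 (h.1 h4))), if_pos h4, if_neg h5, add_zero, mul_one]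
    by_cases h6 : e ∈ C <;> simp [h6]
  · rw [if_pos (h3.2 (fun h => h4 (h.2 h5))), if_neg h4, if_pos h5, zero_add, mul_one]
    by_cases h6 : e ∈ C <;> simp [h6]
  · rw [if_neg (fun h => (h3.1 h) ⟨fun h => absurd h h4, fun h => absurd h h5⟩), if_neg h4,
      if_neg h5, add_zero, mul_zero]

/-- Every admissible weight becomes a sum of circuits after the addition of a constant. -/
theorem conductor (G : MGraph V E) (v : E × Bool → V)
    (hv : ∀ e, G.ends e = s(v (e, false), v (e, true)))
    (hbr : ∀ X : Finset V, cn (fun e => v (e, false)) (fun e => v (e, true)) univ X ≠ 1)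
    (w : E → ℕ) (hadm : ∀ X : Finset V, ∀ e ∈ cut G X, 2 * w e ≤ ∑ f ∈ cut G X, w f) (N : ℕ)
    (heul : ∀ X : Finset V, Even (∑ e ∈ cut G X, (w e + N)))
    (hN : 18 * Real.sqrt (Fintype.card E * Real.log (2 * Fintype.card E)) + 107 ≤ N) :
    InIntCone G (fun e => w e + N) := by
  classical
  by_cases hE : IsEmpty E
  · exact ⟨0, by simp, fun e => (hE.false e).elim⟩
  rw [not_isEmpty_iff] at hE
  have hcard : 1 ≤ Fintype.card E := Fintype.card_pos_iff.2 hE
  have hcard' : (1 : ℝ) ≤ Fintype.card E := by exact_mod_cast hcard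
  have hrc : RCone G (fun e => (w e : ℝ)) := by
    apply rcone_of_cut G v hv _ (fun e => Nat.cast_nonneg _)
    intro S e he
    have hme : e ∈ cut G S := (mem_cut G v hv S e).2 he
    have h1 := hadm S e hme
    have h2 : ∑ f : E, (if f ≠ e ∧ Lv v S f then (w f : ℝ) else 0) + w e =
        ((∑ f ∈ cut G S, w f : ℕ) : ℝ) := by
      rw [← Finset.add_sum_erase _ _ hme, Nat.cast_add, Nat.cast_sum, add_comm,
        ← Finset.sum_filter]
      congr 1
      apply Finset.sum_congr _ (fun _ _ => rfl)
      ext f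
      rw [Finset.mem_erase, Finset.mem_filter, mem_cut G v hv S f]
      simp only [Finset.mem_univ, true_and]
      rfl
    have h3 : ((2 * w e : ℕ) : ℝ) ≤ ((∑ f ∈ cut G S, w f : ℕ) : ℝ) := by exact_mod_cast h1
    rw [← h2] at h3
    push_cast at h3
    linarith
  obtain ⟨s, c, hs, hC, h0, hx⟩ := exists_rep G _ hrc
  have hlog : Real.log (2 * Fintype.card E) ≤ (Fintype.card E : ℝ) := by
    rw [Real.log_mul (by norm_num) (by linarith)]
    have h1 := Real.log_le_sub_one_of_pos (show (0 : ℝ) < Fintype.card E by linarith)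
    have h2 := Real.log_two_lt_d9
    linarith
  obtain ⟨ε, hε1, hε2⟩ := exists_rounding (fun (e : E) (C : Finset E) => e ∈ C)
    (fun C => Int.fract (c C)) (fun C => Int.fract_nonneg _) (fun C => (Int.fract_lt_one _).le) s
    (Fintype.card E : ℝ) (by
      intro e
      calc ∑ C ∈ s, (if e ∈ C then Int.fract (c C) else 0) ≤ ∑ C ∈ s, (1 : ℝ) := by
            apply Finset.sum_le_sum
            intro C _
            split_ifs
            · exact (Int.fract_lt_one _).le
            · norm_num
        _ = s.card := by rw [Finset.sum_const, nsmul_eq_mul, mul_one]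
        _ ≤ Fintype.card E := by exact_mod_cast hs) hcard hlog
  set D : ℝ := 2 * Real.sqrt (Fintype.card E * Real.log (2 * Fintype.card E)) with hD
  let r : Finset E → ℕ := fun C => ⌊c C⌋₊ + ε C
  let R : E → ℕ := fun e => ∑ C ∈ s, r C * (if e ∈ C then 1 else 0)
  have hR : ∀ e, (R e : ℝ) - w e = dev (fun (e : E) (C : Finset E) => e ∈ C)
      (fun C => Int.fract (c C)) ε s e := by
    intro e
    rw [show ((w e : ℕ) : ℝ) = ∑ C ∈ s, c C * (if e ∈ C then 1 else 0) from hx e]
    unfold dev
    simp only [R]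
    rw [Nat.cast_sum, ← Finset.sum_sub_distrib]
    apply Finset.sum_congr rfl
    intro C _
    by_cases he : e ∈ C
    · rw [if_pos he, if_pos he, if_pos he]
      have h1 : (⌊c C⌋₊ : ℝ) = (⌊c C⌋ : ℝ) := by
        rw [← Int.natCast_floor_eq_floor (h0 C)]
        rfl
      have h2 : Int.fract (c C) = c C - ⌊c C⌋ := rfl
      simp only [r]
      push_cast
      rw [h1, h2]
      ring
    · rw [if_neg he, if_neg he, if_neg he]
      simp
  have hRb : ∀ e, |(R e : ℝ) - w e| ≤ D := fun e => by rw [hR e]; exact hε2 e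
  have hD0 : 0 ≤ D := by positivity
  have hND : 9 * D + 107 ≤ N := by
    rw [hD]; linarith
  have hRle : ∀ e, R e ≤ w e + N := by
    intro e
    have h1 := (abs_le.1 (hRb e)).2
    have h2 : (R e : ℝ) ≤ w e + N := by linarith
    exact_mod_cast h2
  have hRcov : InIntCone G R := by
    apply sum_cover G s (fun C e => r C * (if e ∈ C then 1 else 0))
    intro C hCs
    apply smul_cover G (r C)
    exact cover_even G C (hC C hCs).isEven
  have hRcut : ∀ X : Finset V, Even (∑ e ∈ cut G X, R e) := by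
    intro X
    simp only [R]
    rw [Finset.sum_comm]
    apply Finset.even_sum
    intro C hCs
    rw [← Finset.mul_sum]
    exact (even_cut G v hv C (hC C hCs) X).mul_left _
  let W : E → ℕ := fun e => w e + N - R e
  have hWR : ∀ e, W e + R e = w e + N := fun e => Nat.sub_add_cancel (hRle e)
  have hWr : ∀ e, (W e : ℝ) = N - ((R e : ℝ) - w e) := by
    intro e
    have h1 : ((W e + R e : ℕ) : ℝ) = ((w e + N : ℕ) : ℝ) := by rw [hWR e]
    push_cast at h1
    linarith
  have hWcov : InIntCone G W := by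
    apply near_cover G v hv hbr W
    · intro X
      have h1 : ∑ e ∈ cut G X, W e + ∑ e ∈ cut G X, R e = ∑ e ∈ cut G X, (w e + N) := by
        rw [← Finset.sum_add_distrib]
        exact Finset.sum_congr rfl (fun e _ => hWR e)
      have h2 := heul X
      rw [← h1, Nat.even_add] at h2
      exact h2.2 (hRcut X)
    · intro e f hef
      have h1 := adm_tc G v hv w hadm e f hef
      have h2 : R e = R f := by
        simp only [R]
        apply Finset.sum_congr rfl
        intro C hCs
        have h3 := circuit_tc G v hv (hC C hCs) hef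
        by_cases he : e ∈ C
        · rw [if_pos he, if_pos (h3.1 he)]
        · rw [if_neg he, if_neg (fun h => he (h3.2 h))]
      show w e + N - R e = w f + N - R f
      rw [h1, h2]
    · intro e f
      have h1 := hWr e
      have h2 := hWr f
      have h3 := (abs_le.1 (hRb e)).1
      have h4 := (abs_le.1 (hRb f)).2
      have h5 : 4 * (W e : ℝ) + 107 ≤ 5 * W f := by linarith
      have h6 : 4 * W e + 107 ≤ 5 * W f := by exact_mod_cast h5
      omega
  have h1 := add_cover G hWcov hRcov
  have h2 : (fun e => w e + N) = fun e => W e + R e := by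
    ext e
    rw [hWR e]
  rw [h2]
  exact h1

end Pool.Agent.H88.God
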