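import Mathlib

set_option autoImplicit false
set_option linter.unusedSectionVars false

/-!
Elimination of coordinates for families of subspaces over the field with two elements: a vector
satisfies a subspace if it is not orthogonal to it.
-/

namespace Pool.Agent.H88.God

open Finset

abbrev F₂ := ZMod 2

lemma z2_cases (a : ZMod 2) : a = 0 ∨ a = 1 := by revert a; decide

lemma z2_ne_zero {a : ZMod 2} (h : a ≠ 0) : a = 1 := by
  rcases z2_cases a with h1 | h1
  · exact absurd h1 h
  · exact h1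

variable {E : Type} [Fintype E] [DecidableEq E]

/-- the scalar product -/
def dt (x w : E → ZMod 2) : ZMod 2 := ∑ z, x z * w z

lemma dt_add (x w w' : E → ZMod 2) : dt x (w + w') = dt x w + dt x w' := by
  unfold dt
  rw [← Finset.sum_add_distrib]
  apply Finset.sum_congr rfl
  intro z _
  rw [Pi.add_apply, mul_add]

lemma dt_zero (x : E → ZMod 2) : dt x 0 = 0 := by
  unfold dt; simp

lemma dt_congr {x y w : E → ZMod 2} (h : ∀ z, w z ≠ 0 → x z = y z) : dt x w = dt y w := by
  unfold dt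
  apply Finset.sum_congr rfl
  intro z _
  by_cases hz : w z = 0
  · rw [hz, mul_zero, mul_zero]
  · rw [h z hz]

/-- flipping a coordinate -/
def flip1 (x : E → ZMod 2) (z : E) : E → ZMod 2 := Function.update x z (x z + 1)

lemma flip1_ne {x : E → ZMod 2} {z z' : E} (h : z' ≠ z) : flip1 x z z' = x z' :=
  Function.update_of_ne h _ _

lemma flip1_of_ne {x : E → ZMod 2} {z z' : E} (h : flip1 x z z' ≠ x z') : z' = z := by
  by_contra hne
  exact h (flip1_ne hne)

lemma dt_flip1 (x w : E → ZMod 2) (z : E) : dt (flip1 x z) w = dt x w + w z := by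
  unfold dt
  rw [← Finset.add_sum_erase univ _ (Finset.mem_univ z),
    ← Finset.add_sum_erase univ (fun z => x z * w z) (Finset.mem_univ z)]
  have h1 : ∑ y ∈ univ.erase z, flip1 x z y * w y = ∑ y ∈ univ.erase z, x y * w y := by
    apply Finset.sum_congr rfl
    intro y hy
    rw [flip1_ne (Finset.ne_of_mem_erase hy)]
  rw [h1]
  unfold flip1
  rw [Function.update_self]
  ring

/-- making `dt x w = 1` by changing the coordinate `z` only -/
lemma exists_fix (x w : E → ZMod 2) (z : E) (hz : w z = 1) :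
    ∃ y : E → ZMod 2, (∀ z', y z' ≠ x z' → z' = z) ∧ dt y w = 1 := by
  rcases z2_cases (dt x w) with h | h
  · exact ⟨flip1 x z, fun z' h' => flip1_of_ne h', by rw [dt_flip1, h, hz, zero_add]⟩
  · exact ⟨x, fun z' h' => absurd rfl h', h⟩

abbrev SM (E : Type) := Submodule (ZMod 2) (E → ZMod 2)

/-- `z` is in the support of `K` -/
def Sup (K : SM E) (z : E) : Prop := ∃ w ∈ K, w z = 1

/-- `x` satisfies `K` -/
def Sat (x : E → ZMod 2) (K : SM E) : Prop := ∃ w ∈ K, dt x w = 1

/-- `K` is at least two-dimensional -/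
def Big (K : SM E) : Prop := ∀ z : E, ∃ w ∈ K, w ≠ 0 ∧ w z = 0

lemma sup_of_ne {K : SM E} {w : E → ZMod 2} (hw : w ∈ K) {z : E} (h : w z ≠ 0) : Sup K z :=
  ⟨w, hw, z2_ne_zero h⟩

lemma exists_one {w : E → ZMod 2} (h : w ≠ 0) : ∃ z, w z = 1 := by
  by_contra hcon
  push Not at hcon
  apply h
  ext z
  rcases z2_cases (w z) with h1 | h1
  · exact h1
  · exact absurd h1 (hcon z)

lemma sat_congr {x y : E → ZMod 2} {K : SM E} (h : ∀ z, Sup K z → x z = y z) (hs : Sat x K) :
    Sat y K := by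
  obtain ⟨w, hw, h1⟩ := hs
  refine ⟨w, hw, ?_⟩
  rw [← h1]
  apply dt_congr
  intro z hz
  exact (h z (sup_of_ne hw hz)).symm

/-- two subspaces share a coordinate of `I` -/
def Sh (I : E → Prop) (K K' : SM E) : Prop := ∃ z, I z ∧ Sup K z ∧ Sup K' z

lemma Sh.symm {I : E → Prop} {K K' : SM E} (h : Sh I K K') : Sh I K' K := by
  obtain ⟨z, h1, h2, h3⟩ := h
  exact ⟨z, h1, h3, h2⟩

/-- connected families grown from a root -/
inductive Grown (I : E → Prop) (r : SM E) : Finset (SM E) → Prop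
  | base : Grown I r {r}
  | step {Y : Finset (SM E)} {K K' : SM E} (hY : Grown I r Y) (hK : K ∉ Y) (hK' : K' ∈ Y)
      (hs : Sh I K K') (Y' : Finset (SM E)) (hY' : ∀ L, L ∈ Y' ↔ L = K ∨ L ∈ Y) : Grown I r Y'

lemma Grown.root_mem {I : E → Prop} {r : SM E} {Y : Finset (SM E)} (h : Grown I r Y) : r ∈ Y := by
  induction h with
  | base => exact Finset.mem_singleton_self _
  | step hY hK hK' hs Y' hY' ih => exact (hY' _).2 (Or.inr ih)

lemma Grown.add_root {I : E → Prop} {r : SM E} {Y : Finset (SM E)} (h : Grown I r Y) :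
    ∀ K : SM E, K ∉ Y → Sh I K r → ∀ Z : Finset (SM E), (∀ L, L ∈ Z ↔ L = K ∨ L ∈ Y) →
      Grown I K Z := by
  classical
  induction h with
  | base =>
    intro K hK hs Z hZ
    refine Grown.step (Grown.base (I := I) (r := K)) (K := r) (K' := K) ?_ ?_ hs.symm Z ?_
    · simp only [Finset.mem_singleton] at hK ⊢
      exact fun h => hK h.symm
    · exact Finset.mem_singleton_self _
    · intro L
      rw [hZ, Finset.mem_singleton, Finset.mem_singleton, or_comm]
  | @step Y L L' hY hL hL' hs Y' hY' ih =>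
    intro K hK hs' Z hZ
    have hKY : K ∉ Y := fun h => hK ((hY' _).2 (Or.inr h))
    have hKL : K ≠ L := fun h => hK ((hY' _).2 (Or.inl h))
    have h1 := ih K hKY hs' (insert K Y) (fun L => Finset.mem_insert)
    refine Grown.step h1 (K := L) (K' := L') ?_ (Finset.mem_insert_of_mem hL') hs Z ?_
    · rw [Finset.mem_insert, not_or]
      exact ⟨Ne.symm hKL, hL⟩
    · intro M
      rw [hZ, hY', Finset.mem_insert]
      tauto

lemma Grown.reroot {I : E → Prop} {r : SM E} {Y : Finset (SM E)} (h : Grown I r Y) :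
    ∀ r' ∈ Y, Grown I r' Y := by
  induction h with
  | base =>
    intro r' hr'
    rw [Finset.mem_singleton] at hr'
    rw [hr']; exact Grown.base
  | @step Y K K' hY hK hK' hs Y' hY' ih =>
    intro r' hr'
    rcases (hY' _).1 hr' with h | h
    · subst h
      exact (ih K' hK').add_root r' hK hs Y' hY'
    · exact Grown.step (ih r' h) hK hK' hs Y' hY'

/-- everything except the root can be satisfied -/
lemma Grown.sat {I : E → Prop} {r : SM E} {Y : Finset (SM E)} (h : Grown I r Y) :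
    ∀ (_ : ∀ z, I z → ∀ K ∈ Y, ∀ K' ∈ Y, ∀ K'' ∈ Y, Sup K z → Sup K' z → Sup K'' z →
      K = K' ∨ K = K'' ∨ K' = K'') (x : E → ZMod 2),
    ∃ y : E → ZMod 2, (∀ z, y z ≠ x z → I z ∧ ∃ K ∈ Y, ∃ K' ∈ Y, K ≠ K' ∧ Sup K z ∧ Sup K' z) ∧
      ∀ K ∈ Y, K ≠ r → Sat y K := by
  induction h with
  | base =>
    intro _ x
    refine ⟨x, fun z h => absurd rfl h, fun K hK hne => ?_⟩
    exact absurd (Finset.mem_singleton.1 hK) hne
  | @step Y K K' hY hK hK' hs Y' hY' ih =>
    intro h2 x
    have hsub : ∀ L ∈ Y, L ∈ Y' := fun L hL => (hY' _).2 (Or.inr hL)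
    have hKY' : K ∈ Y' := (hY' _).2 (Or.inl rfl)
    obtain ⟨z, hz, ⟨w, hw, hwz⟩, hK'z⟩ := hs
    obtain ⟨x1, hx1, hx1w⟩ := exists_fix x w z hwz
    obtain ⟨y, hy1, hy2⟩ := ih (fun z' hz' L hL L' hL' L'' hL'' =>
      h2 z' hz' L (hsub _ hL) L' (hsub _ hL') L'' (hsub _ hL'')) x1
    have hne : K ≠ K' := fun h => hK (h ▸ hK')
    refine ⟨y, ?_, ?_⟩
    · intro z' hz'
      by_cases h3 : y z' = x1 z'
      · have h4 := hx1 z' (by rw [← h3]; exact hz')
        subst h4
        exact ⟨hz, K, hKY', K', hsub _ hK', hne, ⟨w, hw, hwz⟩, hK'z⟩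
      · obtain ⟨h4, L, hL, L', hL', h5⟩ := hy1 z' h3
        exact ⟨h4, L, hsub _ hL, L', hsub _ hL', h5⟩
    · intro L hL hLr
      rcases (hY' _).1 hL with h3 | h3
      · subst h3
        refine ⟨w, hw, ?_⟩
        rw [← hx1w]
        apply dt_congr
        intro z' hz'
        by_contra h4
        obtain ⟨h5, M, hM, M', hM', h6, h7, h8⟩ := hy1 z' h4
        rcases h2 z' h5 L hKY' M (hsub _ hM) M' (hsub _ hM') (sup_of_ne hw hz') h7 h8 with
          h9 | h9 | h9
        · exact hK (h9 ▸ hM)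
        · exact hK (h9 ▸ hM')
        · exact h6 h9
      · exact hy2 L h3 hLr

end Pool.Agent.H88.God
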