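import Pool.Agent.H88.God.Cara
import Pool.Agent.H88.God.BF
import Pool.Graph.R_pool_sql_team_seeded_63374d34.N411.CV.Cover
import Pool.Graph.R_seed8.Results.MP_e8ee11_co.BeckFialaIterFree

set_option autoImplicit false
set_option linter.unusedSectionVars false

/-!
Covers of `w + N` from a rounding of a fractional cover of `w` with small error.
-/

namespace Pool.Agent.H88.God

open Finset
open Pool.Agent.Helper879.ECD (F2 IsFlow f2_add_self f2_cases cn)
open Pool.Agent.H126R2.CDC (MGraph IsFl isFl_iff)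
open Pool.Agent.H126R2.NC
open Pool.Agent.H655R2.GOD
open Pool.Agent.W831.ECC (RCone rcone_of_cut)
open Pool.Agent.W831.ECC.Gad (CutC Lv)

variable {V E : Type} [Fintype V] [DecidableEq V] [Fintype E] [DecidableEq E]

/-- admissible weights are in the cone of the circuits -/
lemma rcone_of_adm (G : MGraph V E) (v : E × Bool → V)
    (hv : ∀ e, G.ends e = s(v (e, false), v (e, true)))
    (w : E → ℕ) (hadm : ∀ X : Finset V, ∀ e ∈ cut G X, 2 * w e ≤ ∑ f ∈ cut G X, w f) :
    RCone G (fun e => (w e : ℝ)) := by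
  apply rcone_of_cut G v hv _ (fun e => Nat.cast_nonneg _)
  intro S e he
  have hme : e ∈ cut G S := (mem_cut G v hv S e).2 he
  have h1 := hadm S e hme
  have h2 : ∑ f : E, (if f ≠ e ∧ Lv v S f then (w f : ℝ) else 0) + w e =
      ((∑ f ∈ cut G S, w f : ℕ) : ℝ) := by
    rw [← Finset.add_sum_erase _ _ hme, Nat.cast_add, Nat.cast_sum, add_comm,
      ← Finset.sum_filter]
    congr 1
    apply Finset.sum_congr _ (fun _ _ => rfl)
    ext f
    rw [Finset.mem_erase, Finset.mem_filter, mem_cut G v hv S f]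
    simp only [Finset.mem_univ, true_and]
    rfl
  have h3 : ((2 * w e : ℕ) : ℝ) ≤ ((∑ f ∈ cut G S, w f : ℕ) : ℝ) := by exact_mod_cast h1
  rw [← h2] at h3
  push_cast at h3
  linarith

/-- a graph without cuts consisting of one edge is bridgeless -/
lemma bridgeless_of_cn (G : MGraph V E) (v : E × Bool → V)
    (hv : ∀ e, G.ends e = s(v (e, false), v (e, true)))
    (hbr : ∀ X : Finset V, cn (fun e => v (e, false)) (fun e => v (e, true)) univ X ≠ 1) :
    G.Bridgeless := by
  have h1 : RCone G (fun e => (((fun _ : E => 1) e : ℕ) : ℝ)) := by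
    apply rcone_of_adm G v hv (fun _ => 1)
    intro X e he
    have h2 := hbr X
    rw [card_cut_eq G v hv] at h2
    have h3 : 0 < (cut G X).card := Finset.card_pos.2 ⟨e, he⟩
    rw [Finset.sum_const, smul_eq_mul, mul_one, mul_one]
    omega
  obtain ⟨c, h0, h2, h3⟩ := h1
  intro e
  by_contra hcon
  push Not at hcon
  have h4 := h3 e
  have h5 : ∑ C : Finset E, c C * (if e ∈ C then 1 else 0) = 0 := by
    apply Finset.sum_eq_zero
    intro C _
    by_cases hC : G.IsCircuit C
    · rw [if_neg (hcon C hC), mul_zero]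
    · rw [h2 C hC, zero_mul]
  rw [h5] at h4
  norm_num at h4

/-- near-constant weights, ratio up to `9 / 7` -/
theorem near_cover97 (G : MGraph V E) (v : E × Bool → V)
    (hv : ∀ e, G.ends e = s(v (e, false), v (e, true))) (hbr : G.Bridgeless)
    (w : E → ℕ) (heul : ∀ X : Finset V, Even (∑ e ∈ cut G X, w e))
    (htc : ∀ e f, TC (fun e => v (e, false)) (fun e => v (e, true)) e f → w e = w f)
    (hq : ∀ e f, 7 * w e + 91 ≤ 9 * w f) : InIntCone G w := by
  have h1 := Pool.Agent.N411.CV.cover_even G hbr v hv (fun e => w e / 2) (by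
    intro e f hef
    show w e / 2 = w f / 2
    rw [htc e f hef]) (by
    intro e f
    have := hq e f
    show 7 * (w e / 2) + 41 ≤ 9 * (w f / 2)
    omega)
  apply combine_br G v hv (G.no_one_cut hbr v hv) w heul _ h1 1
  left
  intro e
  show w e = 2 * (w e / 2) + 1 * (w e % 2)
  omega

/-- The general step: a rounding with error at most `D` of a fractional cover of `w`. -/
theorem conductor_gen (G : MGraph V E) (v : E × Bool → V)
    (hv : ∀ e, G.ends e = s(v (e, false), v (e, true)))
    (hbr : ∀ X : Finset V, cn (fun e => v (e, false)) (fun e => v (e, true)) univ X ≠ 1)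
    (w : E → ℕ) (s : Finset (Finset E)) (c : Finset E → ℝ)
    (hrep : Rep G (fun e => (w e : ℝ)) s c) (ε : Finset E → ℕ) (D : ℝ)
    (hε : ∀ e, |∑ C ∈ s, (if e ∈ C then ((ε C : ℝ) - Int.fract (c C)) else 0)| ≤ D) (N : ℕ)
    (heul : ∀ X : Finset V, Even (∑ e ∈ cut G X, (w e + N))) (hN : 8 * D + 46 ≤ N) :
    InIntCone G (fun e => w e + N) := by
  classical
  by_cases hE : IsEmpty E
  · exact ⟨0, by simp, fun e => (hE.false e).elim⟩
  rw [not_isEmpty_iff] at hE
  obtain ⟨hC, h0, hx⟩ := hrep
  let r : Finset E → ℕ := fun C => ⌊c C⌋₊ + ε C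
  let R : E → ℕ := fun e => ∑ C ∈ s, r C * (if e ∈ C then 1 else 0)
  have hR : ∀ e, (R e : ℝ) - w e =
      ∑ C ∈ s, (if e ∈ C then ((ε C : ℝ) - Int.fract (c C)) else 0) := by
    intro e
    rw [show ((w e : ℕ) : ℝ) = ∑ C ∈ s, c C * (if e ∈ C then 1 else 0) from hx e]
    simp only [R]
    rw [Nat.cast_sum, ← Finset.sum_sub_distrib]
    apply Finset.sum_congr rfl
    intro C _
    by_cases he : e ∈ C
    · rw [if_pos he, if_pos he, if_pos he]
      have h1 : (⌊c C⌋₊ : ℝ) = (⌊c C⌋ : ℝ) := by
        rw [← Int.natCast_floor_eq_floor (h0 C)]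
        rfl
      have h2 : Int.fract (c C) = c C - ⌊c C⌋ := rfl
      simp only [r]
      push_cast
      rw [h1, h2]
      ring
    · rw [if_neg he, if_neg he, if_neg he]
      simp
  have hRb : ∀ e, |(R e : ℝ) - w e| ≤ D := fun e => by rw [hR e]; exact hε e
  have hD0 : 0 ≤ D := (abs_nonneg _).trans (hRb hE.some)
  have hRle : ∀ e, R e ≤ w e + N := by
    intro e
    have h1 := (abs_le.1 (hRb e)).2
    have h2 : (R e : ℝ) ≤ w e + N := by linarith
    exact_mod_cast h2
  have hRcov : InIntCone G R := by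
    apply sum_cover G s (fun C e => r C * (if e ∈ C then 1 else 0))
    intro C hCs
    apply smul_cover G (r C)
    exact cover_even G C (hC C hCs).isEven
  have hRcut : ∀ X : Finset V, Even (∑ e ∈ cut G X, R e) := by
    intro X
    simp only [R]
    rw [Finset.sum_comm]
    apply Finset.even_sum
    intro C hCs
    rw [← Finset.mul_sum]
    exact (even_cut G v hv C (hC C hCs) X).mul_left _
  let W : E → ℕ := fun e => w e + N - R e
  have hWR : ∀ e, W e + R e = w e + N := fun e => Nat.sub_add_cancel (hRle e)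
  have hWr : ∀ e, (W e : ℝ) = N - ((R e : ℝ) - w e) := by
    intro e
    have h1 : ((W e + R e : ℕ) : ℝ) = ((w e + N : ℕ) : ℝ) := by rw [hWR e]
    push_cast at h1
    linarith
  have hWcov : InIntCone G W := by
    apply near_cover97 G v hv (bridgeless_of_cn G v hv hbr) W
    · intro X
      have h1 : ∑ e ∈ cut G X, W e + ∑ e ∈ cut G X, R e = ∑ e ∈ cut G X, (w e + N) := by
        rw [← Finset.sum_add_distrib]
        exact Finset.sum_congr rfl (fun e _ => hWR e)
      have h2 := heul X
      rw [← h1, Nat.even_add] at h2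
      exact h2.2 (hRcut X)
    · intro e f hef
      have h3 : ∀ C ∈ s, (e ∈ C ↔ f ∈ C) := fun C hCs => circuit_tc G v hv (hC C hCs) hef
      have h1 : w e = w f := by
        have h4 : (w e : ℝ) = w f := by
          have h5 := hx e
          have h6 := hx f
          simp only at h5 h6
          rw [h5, h6]
          apply Finset.sum_congr rfl
          intro C hCs
          have h7 := h3 C hCs
          by_cases he : e ∈ C
          · rw [if_pos he, if_pos (h7.1 he)]
          · rw [if_neg he, if_neg (fun h => he (h7.2 h))]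
        exact_mod_cast h4
      have h2 : R e = R f := by
        simp only [R]
        apply Finset.sum_congr rfl
        intro C hCs
        have h7 := h3 C hCs
        by_cases he : e ∈ C
        · rw [if_pos he, if_pos (h7.1 he)]
        · rw [if_neg he, if_neg (fun h => he (h7.2 h))]
      show w e + N - R e = w f + N - R f
      rw [h1, h2]
    · intro e f
      have h1 := hWr e
      have h2 := hWr f
      have h3 := (abs_le.1 (hRb e)).1
      have h4 := (abs_le.1 (hRb f)).2
      have h5 : 7 * (W e : ℝ) + 91 ≤ 9 * W f := by linarith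
      exact_mod_cast h5
  have h1 := add_cover G hWcov hRcov
  have h2 : (fun e => w e + N) = fun e => W e + R e := by
    ext e
    rw [hWR e]
  rw [h2]
  exact h1

/-- the number of edges of a circuit is at most the number of vertices -/
lemma circuit_card_le (G : MGraph V E) {C : Finset E} (hC : G.IsCircuit C) :
    C.card ≤ Fintype.card V := by
  have h1 : ∑ u : V, G.deg C u = 2 * C.card := by
    have h2 : ∀ u ∈ (univ : Finset V), G.deg C u = ∑ e ∈ C, G.ep e u := fun u _ => G.deg_eq_sum C u
    rw [Finset.sum_congr rfl h2, Finset.sum_comm, Finset.sum_congr rfl (fun e _ => G.sum_ep e),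
      Finset.sum_const, smul_eq_mul, mul_comm]
  have h3 : ∑ u : V, G.deg C u ≤ ∑ u : V, 2 := by
    apply Finset.sum_le_sum
    intro u _
    rcases hC.2.1 u with h | h <;> omega
  rw [h1, Finset.sum_const, Finset.card_univ, smul_eq_mul] at h3
  omega

/-- a weight which is a nonnegative combination of circuits with at most `L` edges -/
def ShortCone (G : MGraph V E) (L : ℕ) (w : E → ℕ) : Prop :=
  ∃ c : Finset E → ℝ, (∀ C, 0 ≤ c C) ∧ (∀ C, c C ≠ 0 → G.IsCircuit C ∧ C.card ≤ L) ∧
    ∀ e, (w e : ℝ) = ∑ C : Finset E, if e ∈ C then c C else 0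

lemma ShortCone.rep {G : MGraph V E} {L : ℕ} {w : E → ℕ} (h : ShortCone G L w) :
    ∃ s c, Rep G (fun e => (w e : ℝ)) s c ∧ ∀ C ∈ s, C.card ≤ L := by
  classical
  obtain ⟨c, h0, h1, h2⟩ := h
  refine ⟨univ.filter (fun C => c C ≠ 0), c, ⟨?_, h0, ?_⟩, ?_⟩
  · intro C hC
    exact (h1 C (Finset.mem_filter.1 hC).2).1
  · intro e
    show (w e : ℝ) = _
    rw [h2 e, Finset.sum_filter]
    apply Finset.sum_congr rfl
    intro C _
    by_cases hC : c C = 0
    · simp [hC]
    · by_cases he : e ∈ C <;> simp [hC, he]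
  · intro C hC
    exact (h1 C (Finset.mem_filter.1 hC).2).2

lemma shortCone_of_adm (G : MGraph V E) (v : E × Bool → V)
    (hv : ∀ e, G.ends e = s(v (e, false), v (e, true))) (L : ℕ)
    (hL : ∀ C, G.IsCircuit C → C.card ≤ L)
    (w : E → ℕ) (hadm : ∀ X : Finset V, ∀ e ∈ cut G X, 2 * w e ≤ ∑ f ∈ cut G X, w f) :
    ShortCone G L w := by
  obtain ⟨c, h0, h1, h2⟩ := rcone_of_adm G v hv w hadm
  refine ⟨c, h0, fun C hC => ?_, fun e => ?_⟩
  · by_cases hC' : G.IsCircuit C
    · exact ⟨hC', hL C hC'⟩
    · exact absurd (h1 C hC') hC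
  · refine Eq.trans (h2 e) ?_
    apply Finset.sum_congr rfl
    intro C _
    split_ifs <;> simp

/-- bounded circuit lengths: no dependence on the number of edges -/
theorem short_cover (G : MGraph V E) (v : E × Bool → V)
    (hv : ∀ e, G.ends e = s(v (e, false), v (e, true)))
    (hbr : ∀ X : Finset V, cn (fun e => v (e, false)) (fun e => v (e, true)) univ X ≠ 1)
    (w : E → ℕ) (L : ℕ) (hw : ShortCone G L w) (N : ℕ)
    (heul : ∀ X : Finset V, Even (∑ e ∈ cut G X, (w e + N))) (hN : 8 * L + 38 ≤ N) :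
    InIntCone G (fun e => w e + N) := by
  classical
  by_cases hE : IsEmpty E
  · exact ⟨0, by simp, fun e => (hE.false e).elim⟩
  rw [not_isEmpty_iff] at hE
  obtain ⟨s, c, hrep, hs⟩ := hw.rep
  by_cases hL : L = 0
  · -- no circuits, so `w = 0`
    subst hL
    have hs0 : s = ∅ := by
      rw [Finset.eq_empty_iff_forall_notMem]
      intro C hC
      have h1 := hs C hC
      have h2 := (hrep.1 C hC).1
      rw [Nat.le_zero, Finset.card_eq_zero] at h1
      exact h2.ne_empty h1
    have hw0 : ∀ e, w e = 0 := by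
      intro e
      have h1 : (w e : ℝ) = 0 := by
        have h2 := hrep.2.2 e
        rw [hs0, Finset.sum_empty] at h2
        exact h2
      exact_mod_cast h1
    have h3 : (fun e => w e + N) = fun _ => N := by
      ext e
      rw [hw0 e, zero_add]
    have h4 : ∀ X : Finset V, Even (∑ e ∈ cut G X, (fun e => w e + N) e) := heul
    rw [h3] at h4 ⊢
    by_cases h46 : 46 ≤ N
    · apply near_cover97 G v hv (bridgeless_of_cn G v hv hbr) _ h4 (fun _ _ _ => rfl)
      intro _ _
      omega
    · -- `38 ≤ N ≤ 45`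
      have h5 := Pool.Agent.H655R2.GOD.near G (fun _ => N) (fun _ => by omega) h4
      exact h5 (by
        intro X e he
        have h2 := hbr X
        rw [card_cut_eq G v hv] at h2
        have h6 : 0 < (cut G X).card := Finset.card_pos.2 ⟨e, he⟩
        rw [Finset.sum_const, smul_eq_mul]
        have h7 : 2 ≤ (cut G X).card := by omega
        exact Nat.mul_le_mul_right N h7) (fun _ => 2 * (N / 2)) (fun _ => even_two_mul _)
        (fun _ _ => by omega) 1 (Or.inl (fun _ => by omega))
  have hL1 : 1 ≤ L := Nat.one_le_iff_ne_zero.2 hL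
  obtain ⟨ε, hε1, hε2, hε3⟩ := bf_round (κ := E) (ι := Finset E) (fun e C => e ∈ C ∧ C ∈ s) L hL1
    (by
      intro C
      by_cases hC : C ∈ s
      · refine le_trans (Finset.card_le_card ?_) (hs C hC)
        intro e he
        exact (Finset.mem_filter.1 he).2.1
      · have h1 : univ.filter (fun e => e ∈ C ∧ C ∈ s) = ∅ := by
          rw [Finset.filter_eq_empty_iff]
          intro e _ h
          exact hC h.2
        rw [h1, Finset.card_empty]
        omega) _ (fun C => if C ∈ s then Int.fract (c C) else 0)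
    (by
      intro C
      split_ifs
      · exact ⟨Int.fract_nonneg _, (Int.fract_lt_one _).le⟩
      · exact ⟨le_rfl, zero_le_one⟩) rfl
  -- the error is an integer
  have hsum : ∀ e, ∑ C ∈ s, (if e ∈ C then ((ε C : ℝ) - Int.fract (c C)) else 0) =
      ∑ C : Finset E, (if e ∈ C ∧ C ∈ s then
        ((ε C : ℝ) - (if C ∈ s then Int.fract (c C) else 0)) else 0) := by
    intro e
    have h1 : ∑ C : Finset E, (if e ∈ C ∧ C ∈ s then
        ((ε C : ℝ) - (if C ∈ s then Int.fract (c C) else 0)) else 0) =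
        ∑ C ∈ s, (if e ∈ C ∧ C ∈ s then
        ((ε C : ℝ) - (if C ∈ s then Int.fract (c C) else 0)) else 0) := by
      symm
      apply Finset.sum_subset (Finset.subset_univ s)
      intro C _ hC
      rw [if_neg (fun h => hC h.2)]
    rw [h1]
    apply Finset.sum_congr rfl
    intro C hC
    simp only [hC, and_true, if_true]
  have hint : ∀ e, ∃ z : ℤ, ∑ C ∈ s, (if e ∈ C then ((ε C : ℝ) - Int.fract (c C)) else 0) = z := by
    intro e
    refine ⟨∑ C ∈ s, (if e ∈ C then ((ε C : ℤ) + ⌊c C⌋) else 0) - w e, ?_⟩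
    have h1 := hrep.2.2 e
    push_cast
    rw [show ((w e : ℕ) : ℝ) = ∑ C ∈ s, c C * (if e ∈ C then 1 else 0) from h1,
      ← Finset.sum_sub_distrib]
    apply Finset.sum_congr rfl
    intro C _
    have h2 : Int.fract (c C) = c C - ⌊c C⌋ := rfl
    split_ifs
    · rw [h2]; ring
    · ring
  apply conductor_gen G v hv hbr w s c hrep ε ((L : ℝ) - 1) _ N heul
  · have h1 : ((8 * L + 38 : ℕ) : ℝ) ≤ N := by exact_mod_cast hN
    push_cast at h1
    linarith
  · intro e
    obtain ⟨z, hz⟩ := hint e
    have h1 := hε3 e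
    rw [← hsum e, hz, ← Int.cast_abs] at h1
    have h2 : |z| < (L : ℤ) := by exact_mod_cast h1
    rw [hz, ← Int.cast_abs]
    have h3 : |z| ≤ (L : ℤ) - 1 := by omega
    have h4 : ((|z| : ℤ) : ℝ) ≤ (((L : ℤ) - 1 : ℤ) : ℝ) := by exact_mod_cast h3
    push_cast at h4 ⊢
    exact h4

end Pool.Agent.H88.God
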