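import Pool.Agent.H88.God.Core

set_option autoImplicit false
set_option linter.unusedSectionVars false

/-!
The elimination lemma.
-/

namespace Pool.Agent.H88.God

open Finset

variable {E : Type} [Fintype E] [DecidableEq E]

/-- vectors vanishing on `I` -/
def Zr (I : E → Prop) : SM E where
  carrier := {w | ∀ z, I z → w z = 0}
  add_mem' := by
    intro w w' h h' z hz
    rw [Pi.add_apply, h z hz, h' z hz, add_zero]
  zero_mem' := fun z _ => rfl
  smul_mem' := by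
    intro c w h z hz
    rw [Pi.smul_apply, h z hz, smul_zero]

lemma mem_Zr {I : E → Prop} {w : E → ZMod 2} : w ∈ Zr I ↔ ∀ z, I z → w z = 0 := Iff.rfl

/-- vectors orthogonal to `x` -/
def Perp (x : E → ZMod 2) : SM E where
  carrier := {w | dt x w = 0}
  add_mem' := by
    intro w w' h h'
    show dt x (w + w') = 0
    rw [dt_add, show dt x w = 0 from h, show dt x w' = 0 from h', add_zero]
  zero_mem' := dt_zero x
  smul_mem' := by
    intro c w h
    show dt x (c • w) = 0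
    rcases z2_cases c with hc | hc
    · rw [hc, zero_smul]; exact dt_zero x
    · rw [hc, one_smul]; exact h

/-- the part of the family which is not touched by `I` -/
def WC (I : E → Prop) (C : Finset (SM E)) : SM E := ⨆ K ∈ C, K ⊓ Zr I

lemma le_WC {I : E → Prop} {C : Finset (SM E)} {K : SM E} (hK : K ∈ C) {w : E → ZMod 2}
    (hw : w ∈ K) (hz : w ∈ Zr I) : w ∈ WC I C :=
  (le_iSup₂ (f := fun (K : SM E) (_ : K ∈ C) => K ⊓ Zr I) K hK) ⟨hw, hz⟩

lemma WC_le {I : E → Prop} {C : Finset (SM E)} {U : SM E} (h : ∀ K ∈ C, K ⊓ Zr I ≤ U) :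
    WC I C ≤ U := iSup₂_le h

lemma sup_WC {I : E → Prop} {C : Finset (SM E)} {z : E} (h : Sup (WC I C) z) :
    ¬ I z ∧ ∃ K ∈ C, Sup K z := by
  obtain ⟨w, hw, hz⟩ := h
  by_contra hcon
  have h1 : WC I C ≤ Zr (fun y => y = z) := by
    apply WC_le
    intro K hK w hw y hy
    rw [hy]
    by_contra h2
    apply hcon
    refine ⟨fun h3 => h2 (hw.2 z h3), K, hK, sup_of_ne hw.1 h2⟩
  have h2 := h1 hw z rfl
  rw [h2] at hz
  exact zero_ne_one hz

lemma cluster {I : E → Prop} {r0 : SM E} {C : Finset (SM E)} (hC : Grown I r0 C)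
    (hbig : ∀ K ∈ C, Big K)
    (h1 : ∀ z, ¬ I z → ∀ K ∈ C, ∀ K' ∈ C, Sup K z → Sup K' z → K = K')
    (h2 : ∀ z, I z → ∀ K ∈ C, ∀ K' ∈ C, ∀ K'' ∈ C, Sup K z → Sup K' z → Sup K'' z →
      K = K' ∨ K = K'' ∨ K' = K'') (x : E → ZMod 2)
    (hx : Big (WC I C) → Sat x (WC I C)) :
    ∃ y : E → ZMod 2, (∀ z, y z ≠ x z → I z ∧ ∃ K ∈ C, Sup K z) ∧ ∀ K ∈ C, Sat y K := by
  by_cases hA : ∃ K ∈ C, ∃ w ∈ K, w ∈ Zr I ∧ dt x w = 1
  · obtain ⟨K, hK, w, hw, hwI, hwx⟩ := hA
    obtain ⟨y, hy1, hy2⟩ := (hC.reroot K hK).sat h2 x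
    refine ⟨y, ?_, ?_⟩
    · intro z hz
      obtain ⟨h3, L, hL, _, _, _, h4, _⟩ := hy1 z hz
      exact ⟨h3, L, hL, h4⟩
    · intro L hL
      by_cases hLK : L = K
      · subst hLK
        refine ⟨w, hw, ?_⟩
        rw [← hwx]
        apply dt_congr
        intro z hz
        by_contra h3
        exact hz (hwI z (hy1 z h3).1)
      · exact hy2 L hL hLK
  · have hA' : ∀ K ∈ C, ∀ w ∈ K, w ∈ Zr I → dt x w = 0 := by
      intro K hK w hw hwI
      rcases z2_cases (dt x w) with h | h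
      · exact h
      · exact absurd ⟨K, hK, w, hw, hwI, h⟩ hA
    have hns : ¬ Sat x (WC I C) := by
      rintro ⟨w, hw, hwx⟩
      have h3 : WC I C ≤ Perp x := WC_le (fun K hK w hw => hA' K hK w hw.1 hw.2)
      have h4 : dt x w = 0 := h3 hw
      rw [h4] at hwx
      exact zero_ne_one hwx
    have hnb : ¬ Big (WC I C) := fun h => hns (hx h)
    obtain ⟨z0, hz0⟩ : ∃ z0, ∀ w ∈ WC I C, w ≠ 0 → w z0 ≠ 0 := by
      unfold Big at hnb
      push Not at hnb
      exact hnb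
    -- the root
    obtain ⟨r, hr, hrz⟩ : ∃ r ∈ C, ∀ K ∈ C, K ≠ r → ∀ w ∈ K, w ∈ Zr I → w = 0 := by
      by_cases hB : ∃ K ∈ C, ∃ w ∈ K, w ∈ Zr I ∧ w ≠ 0
      · obtain ⟨r, hr, w, hw, hwI, hw0⟩ := hB
        refine ⟨r, hr, ?_⟩
        intro K hK hKr w' hw' hw'I
        by_contra hw'0
        have h3 := hz0 w (le_WC hr hw hwI) hw0
        have h4 := hz0 w' (le_WC hK hw' hw'I) hw'0
        have h5 : ¬ I z0 := fun h => h3 (hwI z0 h)
        exact hKr (h1 z0 h5 K hK r hr (sup_of_ne hw' h4) (sup_of_ne hw h3))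
      · refine ⟨r0, hC.root_mem, ?_⟩
        intro K hK _ w hw hwI
        by_contra hw0
        exact hB ⟨K, hK, w, hw, hwI, hw0⟩
    have hG := hC.reroot r hr
    cases hG with
    | base =>
      obtain ⟨w, hw, hw0, hwz⟩ := hbig r hr z0
      have h3 : ¬ w ∈ Zr I := fun h => hz0 w (le_WC hr hw h) hw0 hwz
      rw [mem_Zr] at h3
      push Not at h3
      obtain ⟨z, hzI, hz⟩ := h3
      obtain ⟨y, hy1, hy2⟩ := exists_fix x w z (z2_ne_zero hz)
      refine ⟨y, ?_, ?_⟩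
      · intro z' hz'
        have h4 := hy1 z' hz'
        subst h4
        exact ⟨hzI, r, hr, sup_of_ne hw hz⟩
      · intro K hK
        rw [Finset.mem_singleton] at hK
        subst hK
        exact ⟨w, hw, hy2⟩
    | @step Y K1 K' hY hK1 hK' hs _ hY' =>
      have hsub : ∀ L ∈ Y, L ∈ C := fun L hL => (hY' _).2 (Or.inr hL)
      have hK1C : K1 ∈ C := (hY' _).2 (Or.inl rfl)
      have hK1r : K1 ≠ r := fun h => hK1 (h ▸ hY.root_mem)
      have hK1K' : K1 ≠ K' := fun h => hK1 (h ▸ hK')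
      obtain ⟨z, hzI, hzK1, hzK'⟩ := hs
      obtain ⟨w', hw', hw'0, hw'z⟩ := hbig K1 hK1C z
      have h3 : ¬ w' ∈ Zr I := fun h => hw'0 (hrz K1 hK1C hK1r w' hw' h)
      rw [mem_Zr] at h3
      push Not at h3
      obtain ⟨z', hz'I, hz'⟩ := h3
      obtain ⟨x1, hx1, hx1w⟩ := exists_fix x w' z' (z2_ne_zero hz')
      obtain ⟨y1, hy1, hy1s⟩ := (hY.reroot K' hK').sat (fun z' hz' L hL L' hL' L'' hL'' =>
        h2 z' hz' L (hsub _ hL) L' (hsub _ hL') L'' (hsub _ hL'')) x1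
      obtain ⟨wj, hwj, hwjz⟩ := hzK'
      obtain ⟨y, hy, hyw⟩ := exists_fix y1 wj z hwjz
      refine ⟨y, ?_, ?_⟩
      · intro t ht
        by_cases h4 : y t = y1 t
        · rw [h4] at ht
          by_cases h5 : y1 t = x1 t
          · rw [h5] at ht
            have h6 := hx1 t ht
            subst h6
            exact ⟨hz'I, K1, hK1C, sup_of_ne hw' hz'⟩
          · obtain ⟨h6, L, hL, _, _, _, h7, _⟩ := hy1 t h5
            exact ⟨h6, L, hsub _ hL, h7⟩
        · have h6 := hy t h4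
          subst h6
          exact ⟨hzI, K1, hK1C, hzK1⟩
      · intro L hL
        rcases (hY' _).1 hL with h4 | h4
        · subst h4
          refine ⟨w', hw', ?_⟩
          rw [← hx1w]
          apply dt_congr
          intro t ht
          have h5 : y t = y1 t := by
            by_contra h5
            have h6 := hy t h5
            subst h6
            exact ht hw'z
          rw [h5]
          by_contra h6
          obtain ⟨h7, M, hM, M', hM', h8, h9, h10⟩ := hy1 t h6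
          rcases h2 t h7 L hK1C M (hsub _ hM) M' (hsub _ hM') (sup_of_ne hw' ht) h9 h10 with
            h11 | h11 | h11
          · exact hK1 (h11 ▸ hM)
          · exact hK1 (h11 ▸ hM')
          · exact h8 h11
        · by_cases h5 : L = K'
          · subst h5
            exact ⟨wj, hwj, hyw⟩
          · apply sat_congr _ (hy1s L h4 h5)
            intro t ht
            by_contra h6
            have h7 := hy t (fun h => h6 h.symm)
            subst h7
            rcases h2 t hzI L (hsub _ h4) K1 hK1C K' (hsub _ hK') ht hzK1 ⟨wj, hwj, hwjz⟩ with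
              h8 | h8 | h8
            · exact hK1 (h8 ▸ h4)
            · exact h5 h8
            · exact hK1K' h8

/-- the elimination lemma -/
theorem elim (I : E → Prop) : ∀ (n : ℕ) (𝒦 : Finset (SM E)), 𝒦.card = n →
    (∀ K ∈ 𝒦, Big K) →
    (∀ z, ¬ I z → ∀ K ∈ 𝒦, ∀ K' ∈ 𝒦, Sup K z → Sup K' z → K = K') →
    (∀ z, I z → ∀ K ∈ 𝒦, ∀ K' ∈ 𝒦, ∀ K'' ∈ 𝒦, Sup K z → Sup K' z → Sup K'' z →
      K = K' ∨ K = K'' ∨ K' = K'') →
    ∃ N : Finset (SM E), (∀ K ∈ N, Big K) ∧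
      (∀ K ∈ N, ∀ z, Sup K z → ¬ I z ∧ ∃ K' ∈ 𝒦, Sup K' z) ∧
      (∀ K ∈ N, ∀ K' ∈ N, ∀ z, Sup K z → Sup K' z → K = K') ∧
      (∀ U : SM E, (∀ K ∈ 𝒦, K ≤ U) → ∀ K ∈ N, K ≤ U) ∧
      ∀ x : E → ZMod 2, (∀ K ∈ N, Sat x K) →
        ∃ y : E → ZMod 2, (∀ z, y z ≠ x z → I z ∧ ∃ K ∈ 𝒦, Sup K z) ∧ ∀ K ∈ 𝒦, Sat y K := by
  classical
  intro n
  induction n using Nat.strong_induction_on with
  | _ n ih =>
  intro 𝒦 hn hbig h1 h2
  by_cases hne : 𝒦 = ∅
  · subst hne
    exact ⟨∅, by simp, by simp, by simp, by simp, fun x _ => ⟨x, by simp, by simp⟩⟩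
  obtain ⟨K0, hK0⟩ := Finset.nonempty_iff_ne_empty.2 hne
  -- the cluster of `K0`
  obtain ⟨C, hC, hmax⟩ := Finset.exists_max_image (𝒦.powerset.filter (fun C => Grown I K0 C))
    Finset.card ⟨{K0}, by
      rw [Finset.mem_filter, Finset.mem_powerset]
      exact ⟨Finset.singleton_subset_iff.2 hK0, Grown.base⟩⟩
  rw [Finset.mem_filter, Finset.mem_powerset] at hC
  obtain ⟨hCK, hCg⟩ := hC
  have hcl : ∀ K ∈ 𝒦, K ∉ C → ∀ K' ∈ C, ¬ Sh I K K' := by
    intro K hK hKC K' hK' hs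
    have h3 := hmax (insert K C) (by
      rw [Finset.mem_filter, Finset.mem_powerset]
      exact ⟨Finset.insert_subset hK hCK, Grown.step hCg hKC hK' hs _ (fun L =>
        Finset.mem_insert)⟩)
    rw [Finset.card_insert_of_notMem hKC] at h3
    omega
  have hRK : ∀ K ∈ 𝒦 \ C, K ∈ 𝒦 := fun K hK => (Finset.mem_sdiff.1 hK).1
  obtain ⟨N, hN1, hN2, hN3, hN4, hN5⟩ := ih (𝒦 \ C).card (by
    rw [← hn]
    apply Finset.card_lt_card
    rw [Finset.ssubset_iff_of_subset Finset.sdiff_subset]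
    exact ⟨K0, hK0, fun h => (Finset.mem_sdiff.1 h).2 hCg.root_mem⟩) (𝒦 \ C) rfl
    (fun K hK => hbig K (hRK K hK))
    (fun z hz K hK K' hK' => h1 z hz K (hRK K hK) K' (hRK K' hK'))
    (fun z hz K hK K' hK' K'' hK'' => h2 z hz K (hRK K hK) K' (hRK K' hK') K'' (hRK K'' hK''))
  have hclus := fun x => cluster hCg (fun K hK => hbig K (hCK hK))
    (fun z hz K hK K' hK' => h1 z hz K (hCK hK) K' (hCK hK'))
    (fun z hz K hK K' hK' K'' hK'' => h2 z hz K (hCK hK) K' (hCK hK') K'' (hCK hK'')) x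
  -- the final step
  have hfin : ∀ x x1 : E → ZMod 2, (Big (WC I C) → Sat x (WC I C)) →
      (∀ z, x1 z ≠ x z → I z ∧ ∃ K ∈ 𝒦 \ C, Sup K z) → (∀ K ∈ 𝒦 \ C, Sat x1 K) →
      ∃ y : E → ZMod 2, (∀ z, y z ≠ x z → I z ∧ ∃ K ∈ 𝒦, Sup K z) ∧ ∀ K ∈ 𝒦, Sat y K := by
    intro x x1 hxW hx1 hx1s
    obtain ⟨y, hy1, hy2⟩ := hclus x1 (fun hB => by
      apply sat_congr _ (hxW hB)
      intro z hz
      by_contra h3
      exact (sup_WC hz).1 (hx1 z (fun h => h3 h.symm)).1)
    refine ⟨y, ?_, ?_⟩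
    · intro z hz
      by_cases h3 : y z = x1 z
      · rw [h3] at hz
        obtain ⟨h4, K, hK, h5⟩ := hx1 z hz
        exact ⟨h4, K, hRK K hK, h5⟩
      · obtain ⟨h4, K, hK, h5⟩ := hy1 z h3
        exact ⟨h4, K, hCK hK, h5⟩
    · intro K hK
      by_cases hKC : K ∈ C
      · exact hy2 K hKC
      · apply sat_congr _ (hx1s K (Finset.mem_sdiff.2 ⟨hK, hKC⟩))
        intro z hz
        by_contra h3
        obtain ⟨h4, K', hK', h5⟩ := hy1 z (fun h => h3 h.symm)
        exact hcl K hK hKC K' hK' ⟨z, h4, hz, h5⟩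
  by_cases hB : Big (WC I C)
  · refine ⟨insert (WC I C) N, ?_, ?_, ?_, ?_, ?_⟩
    · intro K hK
      rcases Finset.mem_insert.1 hK with h | h
      · rw [h]; exact hB
      · exact hN1 K h
    · intro K hK z hz
      rcases Finset.mem_insert.1 hK with h | h
      · rw [h] at hz
        obtain ⟨h3, K', hK', h4⟩ := sup_WC hz
        exact ⟨h3, K', hCK hK', h4⟩
      · obtain ⟨h3, K', hK', h4⟩ := hN2 K h z hz
        exact ⟨h3, K', hRK K' hK', h4⟩
    · have key : ∀ K ∈ N, ∀ z, Sup K z → ¬ Sup (WC I C) z := by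
        intro K hK z hz hz'
        obtain ⟨h3, K', hK', h4⟩ := hN2 K hK z hz
        obtain ⟨h5, K'', hK'', h6⟩ := sup_WC hz'
        have h7 := h1 z h3 K' (hRK K' hK') K'' (hCK hK'') h4 h6
        exact (Finset.mem_sdiff.1 hK').2 (h7 ▸ hK'')
      intro K hK K' hK' z hz hz'
      rcases Finset.mem_insert.1 hK with h | h <;> rcases Finset.mem_insert.1 hK' with h' | h'
      · rw [h, h']
      · rw [h] at hz
        exact absurd hz (key K' h' z hz')
      · rw [h'] at hz'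
        exact absurd hz' (key K h z hz)
      · exact hN3 K h K' h' z hz hz'
    · intro U hU K hK
      rcases Finset.mem_insert.1 hK with h | h
      · rw [h]
        exact WC_le (fun L hL => inf_le_left.trans (hU L (hCK hL)))
      · exact hN4 U (fun K hK => hU K (hRK K hK)) K h
    · intro x hx
      obtain ⟨x1, hx1, hx1s⟩ := hN5 x (fun K hK => hx K (Finset.mem_insert_of_mem hK))
      exact hfin x x1 (fun _ => hx _ (Finset.mem_insert_self _ _)) hx1 hx1s
  · refine ⟨N, hN1, ?_, hN3, ?_, ?_⟩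
    · intro K hK z hz
      obtain ⟨h3, K', hK', h4⟩ := hN2 K hK z hz
      exact ⟨h3, K', hRK K' hK', h4⟩
    · intro U hU K hK
      exact hN4 U (fun K hK => hU K (hRK K hK)) K hK
    · intro x hx
      obtain ⟨x1, hx1, hx1s⟩ := hN5 x hx
      exact hfin x x1 (fun h => absurd h hB) hx1 hx1s

end Pool.Agent.H88.God
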