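import Pool.Agent.H88.God.Disc

set_option autoImplicit false
set_option linter.unusedSectionVars false

/-!
Covers of `w + N` for `N` of the order of the square root of the circumference.
-/

namespace Pool.Agent.H88.God

open Finset
open Pool.Agent.Helper879.ECD (F2 IsFlow f2_add_self f2_cases cn)
open Pool.Agent.H126R2.CDC (MGraph IsFl isFl_iff)
open Pool.Agent.H126R2.NC
open Pool.Agent.H655R2.GOD

/-- the size of the rounding error -/
noncomputable def kap (L m : ℕ) : ℝ :=
  Real.sqrt L + (1 + Real.log L) ^ (3 / 2 : ℝ) * Real.sqrt (Real.log (1 + m))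

lemma log_nat_nonneg (L : ℕ) : 0 ≤ Real.log L := Real.log_natCast_nonneg L

lemma kap_nonneg (L m : ℕ) : 0 ≤ kap L m := by
  unfold kap
  have := log_nat_nonneg L
  positivity

/-- rounding of combinations of sets with at most `L` elements -/
theorem kom_round : ∃ C : ℝ, 0 < C ∧ ∀ (E : Type) [Fintype E] [DecidableEq E]
    (s : Finset (Finset E)) (L : ℕ), 1 ≤ L → (∀ T ∈ s, T.card ≤ L) → ∀ θ : Finset E → ℝ,
    (∀ T, 0 ≤ θ T ∧ θ T ≤ 1) → ∃ ε : Finset E → ℕ,
      ∀ e, |∑ T ∈ s, (if e ∈ T then ((ε T : ℝ) - θ T) else 0)| ≤ C * kap L (Fintype.card E) := by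
  classical
  obtain ⟨C0, h⟩ := Pool.Agent.Results.MP_e8ee11_co.BeckFialaIterFree.result
  refine ⟨max C0 1, by positivity, ?_⟩
  intro E _ _ s L hL hs θ hθ
  let eE : Fin (Fintype.card E) ≃ E := (Fintype.equivFin E).symm
  let es : Fin s.card ≃ s := s.equivFin.symm
  let S : Fin (Fintype.card E) → Finset (Fin s.card) :=
    fun i => univ.filter (fun j => eE i ∈ (es j).1)
  have hdeg : ∀ j, (univ.filter (fun i => j ∈ S i)).card ≤ L := by
    intro j
    refine le_trans ?_ (hs (es j).1 (es j).2)
    apply Finset.card_le_card_of_injOn (fun i => eE i)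
    · intro i hi
      have h1 : j ∈ S i := by
        simpa using hi
      simp only [S, Finset.mem_filter, Finset.mem_univ, true_and] at h1
      exact_mod_cast h1
    · intro i _ i' _ hii
      exact eE.injective hii
  have hsize : ∀ i, (S i).card ≤ s.card + 1 := by
    intro i
    refine (Finset.card_le_univ _).trans ?_
    rw [Fintype.card_fin]
    omega
  obtain ⟨χ, hχ1, hχ2⟩ := (h (Fintype.card E) s.card L (s.card + 1) hL (by omega) S hdeg hsize 0
    (fun j => 2 * θ (es j).1 - 1) (by
      intro j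
      have h1 := hθ (es j).1
      rw [abs_le]
      constructor <;> linarith)).1
  let ε : Finset E → ℕ := fun T => if hT : T ∈ s then
    (if χ (es.symm ⟨T, hT⟩) = 1 then 1 else 0) else 0
  have hε : ∀ j, (ε (es j).1 : ℝ) = (χ j + 1) / 2 := by
    intro j
    have h1 : (es j).1 ∈ s := (es j).2
    have h2 : es.symm ⟨(es j).1, h1⟩ = j := by
      simp
    simp only [ε, dif_pos h1, h2]
    rcases hχ1 j with h3 | h3
    · rw [h3]; norm_num
    · rw [h3]; norm_num
  refine ⟨ε, fun e => ?_⟩
  have hsum : ∑ T ∈ s, (if e ∈ T then ((ε T : ℝ) - θ T) else 0) =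
      (∑ j ∈ S (eE.symm e), ((χ j : ℝ) - (2 * θ (es j).1 - 1))) / 2 := by
    rw [← Finset.sum_coe_sort s, ← Equiv.sum_comp es]
    simp only [S, Finset.sum_filter, Equiv.apply_symm_apply]
    rw [Finset.sum_div]
    apply Finset.sum_congr rfl
    intro j _
    split_ifs
    · rw [hε]; ring
    · simp
  have h1 := hχ2 (eE.symm e)
  rw [hsum, abs_div, abs_two]
  have h2 : (fun x : ℝ => Real.log (1 + x))^[0 + 1] ((min (Fintype.card E) s.card : ℕ) : ℝ) ≤
      Real.log (1 + (Fintype.card E : ℝ)) := by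
    rw [zero_add, Function.iterate_one]
    apply Real.log_le_log
    · positivity
    · have h3 : ((min (Fintype.card E) s.card : ℕ) : ℝ) ≤ Fintype.card E := by
        exact_mod_cast min_le_left _ _
      linarith
  have hlog := log_nat_nonneg L
  have h4 : Real.sqrt L + (1 + Real.log L) ^ (3 / 2 : ℝ) * Real.sqrt
      ((fun x : ℝ => Real.log (1 + x))^[0 + 1] ((min (Fintype.card E) s.card : ℕ) : ℝ)) ≤
      kap L (Fintype.card E) := by
    unfold kap
    have h5 := Real.sqrt_le_sqrt h2
    have h6 : (0 : ℝ) ≤ (1 + Real.log L) ^ (3 / 2 : ℝ) := by positivity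
    have h7 := mul_le_mul_of_nonneg_left h5 h6
    linarith
  have h5 : 0 ≤ Real.sqrt L + (1 + Real.log L) ^ (3 / 2 : ℝ) * Real.sqrt
      ((fun x : ℝ => Real.log (1 + x))^[0 + 1] ((min (Fintype.card E) s.card : ℕ) : ℝ)) := by
    positivity
  have h6 : |∑ j ∈ S (eE.symm e), ((χ j : ℝ) - (2 * θ (es j).1 - 1))| ≤
      max C0 1 * kap L (Fintype.card E) := by
    refine h1.trans ?_
    push_cast
    rw [mul_zero, zero_mul, zero_add]
    calc C0 * (Real.sqrt L + (1 + Real.log L) ^ (3 / 2 : ℝ) * Real.sqrt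
          ((fun x : ℝ => Real.log (1 + x))^[0 + 1] (min (Fintype.card E : ℝ) s.card)))
        ≤ max C0 1 * (Real.sqrt L + (1 + Real.log L) ^ (3 / 2 : ℝ) * Real.sqrt
          ((fun x : ℝ => Real.log (1 + x))^[0 + 1] (min (Fintype.card E : ℝ) s.card))) := by
          apply mul_le_mul_of_nonneg_right (le_max_left _ _)
          have := h5
          push_cast at this
          exact this
      _ ≤ max C0 1 * kap L (Fintype.card E) := by
          apply mul_le_mul_of_nonneg_left _ (by positivity)
          have := h4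
          push_cast at this
          exact this
  have h7 : 0 ≤ max C0 1 * kap L (Fintype.card E) :=
    mul_nonneg (by positivity) (kap_nonneg _ _)
  linarith

/-- covers of `w + N` for `N` of order `kap` -/
theorem kap_cover : ∃ K : ℝ, 0 < K ∧ ∀ (V E : Type) [Fintype V] [DecidableEq V] [Fintype E]
    [DecidableEq E] (G : MGraph V E) (v : E × Bool → V)
    (_ : ∀ e, G.ends e = s(v (e, false), v (e, true)))
    (_ : ∀ X : Finset V, cn (fun e => v (e, false)) (fun e => v (e, true)) univ X ≠ 1)
    (w : E → ℕ) (L : ℕ) (_ : ShortCone G L w) (N : ℕ)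
    (_ : ∀ X : Finset V, Even (∑ e ∈ cut G X, (w e + N)))
    (_ : K * kap L (Fintype.card E) ≤ N), InIntCone G (fun e => w e + N) := by
  classical
  obtain ⟨C, hC, hround⟩ := kom_round
  refine ⟨8 * C + 100, by positivity, ?_⟩
  intro V E _ _ _ _ G v hv hbr w L hw N heul hN
  by_cases hE : IsEmpty E
  · exact ⟨0, by simp, fun e => (hE.false e).elim⟩
  rw [not_isEmpty_iff] at hE
  have hcard : 1 ≤ Fintype.card E := Fintype.card_pos_iff.2 hE
  have hlogL := log_nat_nonneg L
  -- the term `100 kap` is at least `46`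
  have h46 : 1 / 2 ≤ kap L (Fintype.card E) := by
    unfold kap
    have h1 : Real.log 2 ≤ Real.log (1 + (Fintype.card E : ℝ)) := by
      apply Real.log_le_log (by norm_num)
      have : (1 : ℝ) ≤ Fintype.card E := by exact_mod_cast hcard
      linarith
    have h2 : (1 / 2 : ℝ) ≤ Real.sqrt (Real.log (1 + (Fintype.card E : ℝ))) := by
      apply Real.le_sqrt_of_sq_le
      have h3 := Real.log_two_gt_d9
      norm_num
      linarith
    have h3 : (1 : ℝ) ≤ (1 + Real.log L) ^ (3 / 2 : ℝ) := by
      apply Real.one_le_rpow _ (by norm_num)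
      linarith
    have h4 : 0 ≤ Real.sqrt (L : ℝ) := Real.sqrt_nonneg _
    nlinarith
  by_cases hL : L = 0
  · subst hL
    apply short_cover G v hv hbr w 0 hw N heul
    have h1 : (50 : ℝ) ≤ N := by
      refine le_trans ?_ hN
      nlinarith
    have h2 : 50 ≤ N := by exact_mod_cast h1
    omega
  obtain ⟨s, c, hrep, hs⟩ := hw.rep
  obtain ⟨ε, hε⟩ := hround E s L (Nat.one_le_iff_ne_zero.2 hL) hs (fun T => Int.fract (c T))
    (fun T => ⟨Int.fract_nonneg _, (Int.fract_lt_one _).le⟩)
  apply conductor_gen G v hv hbr w s c hrep ε (C * kap L (Fintype.card E)) hε N heul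
  refine le_trans ?_ hN
  linarith

end Pool.Agent.H88.God
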