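import Pool.Agent.H88.God.TreeTwo
import Pool.Graph.R_seed8.H126R2.NC.L2

set_option autoImplicit false
set_option linter.unusedSectionVars false

/-!
Packing of spanning trees in multiples of a graph, and removable classes.
-/

namespace Pool.Agent.H88.God

open Finset
open Pool.Agent.Helper879.ECD (sp Ind sp_mono mem_sp F2 inc fnl fnl_single fnl_inc cn f2_add_self)
open Pool.Agent.H126R2.CDC (packK)
open Pool.Agent.H126R2.NC (cr Spn Acy spn_of_sp exists_base)

variable {W E : Type} [Fintype W] [DecidableEq W] [Fintype E] [DecidableEq E]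

open Classical in
/-- rank condition for graphs whose nonzero cuts have at least `k` edges -/
lemma rank_cond_gen (a b : E → W) (k : ℕ)
    (h4 : ∀ X : Finset W, cn a b univ X = 0 ∨ k ≤ cn a b univ X)
    (S : Submodule F2 (W → F2)) :
    k * Module.finrank F2 (sp F2 (inc a b) univ) ≤
      k * Module.finrank F2 S +
        2 * (univ.filter (fun e => ¬ inc a b e ∈ S)).card := by
  let r : W → W → Prop := fun w v => (Pi.single w 1 + Pi.single v 1 : W → F2) ∈ S
  have hself : ∀ u : W → F2, u + u = 0 := by
    intro u; ext w; exact f2_add_self _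
  have hr_refl : ∀ w, r w w := by
    intro w
    show (Pi.single w 1 + Pi.single w 1 : W → F2) ∈ S
    rw [hself]; exact S.zero_mem
  have hr_symm : ∀ w v, r w v → r v w := by
    intro w v h
    show (Pi.single v 1 + Pi.single w 1 : W → F2) ∈ S
    rw [add_comm]; exact h
  have hr_trans : ∀ u v w, r u v → r v w → r u w := by
    intro u v w h1 h2
    have h3 := S.add_mem h1 h2
    have h4 : (Pi.single u 1 + Pi.single v 1 : W → F2) + (Pi.single v 1 + Pi.single w 1) =
        Pi.single u 1 + Pi.single w 1 := by
      rw [show (Pi.single u 1 + Pi.single v 1 : W → F2) + (Pi.single v 1 + Pi.single w 1) =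
        Pi.single u 1 + (Pi.single v 1 + Pi.single v 1) + Pi.single w 1 by abel, hself, add_zero]
    rw [h4] at h3
    exact h3
  let cls : W → Finset W := fun w => univ.filter (fun v => r w v)
  have hcls : ∀ w v, v ∈ cls w ↔ r w v := by intro w v; simp [cls]
  have hcls_eq : ∀ w v, r w v → cls w = cls v := by
    intro w v h
    ext u
    rw [hcls, hcls]
    exact ⟨fun h' => hr_trans _ _ _ (hr_symm _ _ h) h', fun h' => hr_trans _ _ _ h h'⟩
  let P : Finset (Finset W) := univ.image cls
  have hPmem : ∀ w, cls w ∈ P := fun w => Finset.mem_image_of_mem _ (Finset.mem_univ _)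
  have hPuniq : ∀ X ∈ P, ∀ w ∈ X, X = cls w := by
    intro X hX w hw
    obtain ⟨v, _, rfl⟩ := Finset.mem_image.1 hX
    exact hcls_eq _ _ ((hcls _ _).1 hw)
  let P' : Finset (Finset W) := P.filter (fun X => cn a b univ X ≠ 0)
  have hE : ∀ e, inc a b e ∈ S ↔ r (a e) (b e) := fun e => Iff.rfl
  -- counting
  have hcount : ∑ X ∈ P, cn a b univ X =
      2 * (univ.filter (fun e => ¬ inc a b e ∈ S)).card := by
    simp only [cn, Finset.card_filter, Finset.mul_sum]
    rw [Finset.sum_comm]
    apply Finset.sum_congr rfl
    intro e _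
    by_cases h : inc a b e ∈ S
    · have h1 : ∀ X ∈ P, (if ¬ (a e ∈ X ↔ b e ∈ X) then 1 else 0) = 0 := by
        intro X hX
        rw [if_neg]
        rw [not_not]
        constructor
        · intro h2
          rw [hPuniq X hX _ h2, hcls]
          exact (hE e).1 h
        · intro h2
          rw [hPuniq X hX _ h2, hcls]
          exact hr_symm _ _ ((hE e).1 h)
      rw [Finset.sum_congr rfl h1]
      simp [h]
    · have hne : cls (a e) ≠ cls (b e) := by
        intro h2
        apply h
        rw [hE]
        have : b e ∈ cls (b e) := (hcls _ _).2 (hr_refl _)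
        rw [← h2, hcls] at this
        exact this
      have h1 : ∀ X ∈ P, (if ¬ (a e ∈ X ↔ b e ∈ X) then 1 else 0) =
          (if X = cls (a e) then 1 else 0) + (if X = cls (b e) then 1 else 0) := by
        intro X hX
        have ha : a e ∈ X ↔ X = cls (a e) :=
          ⟨fun h2 => hPuniq X hX _ h2, fun h2 => by rw [h2, hcls]; exact hr_refl _⟩
        have hb : b e ∈ X ↔ X = cls (b e) :=
          ⟨fun h2 => hPuniq X hX _ h2, fun h2 => by rw [h2, hcls]; exact hr_refl _⟩
        by_cases h2 : X = cls (a e)
        · have h3 : ¬ X = cls (b e) := fun h3 => hne (h2.symm.trans h3)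
          rw [if_pos, if_pos h2, if_neg h3]
          intro h4
          exact h3 (hb.1 (h4.1 (ha.2 h2)))
        · by_cases h3 : X = cls (b e)
          · rw [if_pos, if_neg h2, if_pos h3]
            intro h4
            exact h2 (ha.1 (h4.2 (hb.2 h3)))
          · rw [if_neg, if_neg h2, if_neg h3]
            rw [not_not]
            exact ⟨fun h4 => absurd (ha.1 h4) h2, fun h4 => absurd (hb.1 h4) h3⟩
      rw [Finset.sum_congr rfl h1, Finset.sum_add_distrib]
      simp [h, hPmem]
  have hP' : k * P'.card ≤ 2 * (univ.filter (fun e => ¬ inc a b e ∈ S)).card := by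
    have h1 : k * P'.card ≤ ∑ X ∈ P', cn a b univ X := by
      have := Finset.card_nsmul_le_sum P' (fun X => cn a b univ X) k (by
        intro X hX
        have h2 := (Finset.mem_filter.1 hX).2
        rcases h4 X with h3 | h3
        · exact absurd h3 h2
        · exact h3)
      rw [smul_eq_mul, mul_comm] at this
      exact this
    have h2 : ∑ X ∈ P', cn a b univ X ≤ ∑ X ∈ P, cn a b univ X :=
      Finset.sum_le_sum_of_subset (Finset.filter_subset _ _)
    omega
  -- representatives
  have hrep : ∀ X ∈ P, ∃ w, w ∈ X := by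
    intro X hX
    obtain ⟨v, _, rfl⟩ := Finset.mem_image.1 hX
    exact ⟨v, (hcls _ _).2 (hr_refl _)⟩
  by_cases hWe : IsEmpty W
  · have : (sp F2 (inc a b) univ) ≤ S := by
      unfold sp
      rw [Submodule.span_le]
      rintro _ ⟨e, _, rfl⟩
      exact (hWe.false (a e)).elim
    have := Submodule.finrank_mono this
    have := Nat.mul_le_mul_left k this
    omega
  rw [not_isEmpty_iff] at hWe
  choose! rep hrep using hrep
  let T : Finset (W → F2) := P'.image (fun X => Pi.single (rep X) 1)
  have hle : sp F2 (inc a b) univ ≤ S ⊔ Submodule.span F2 (T : Set (W → F2)) := by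
    unfold sp
    rw [Submodule.span_le]
    rintro _ ⟨e, _, rfl⟩
    by_cases h : inc a b e ∈ S
    · exact Submodule.mem_sup_left h
    · have hne : cls (a e) ≠ cls (b e) := by
        intro h2
        apply h
        rw [hE]
        have : b e ∈ cls (b e) := (hcls _ _).2 (hr_refl _)
        rw [← h2, hcls] at this
        exact this
      have key : ∀ w, (w = a e ∨ w = b e) → cls w ∈ P' := by
        intro w hw
        rw [Finset.mem_filter]
        refine ⟨hPmem _, ?_⟩
        unfold cn
        rw [Finset.card_ne_zero]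
        refine ⟨e, ?_⟩
        rw [Finset.mem_filter]
        refine ⟨Finset.mem_univ _, ?_⟩
        intro h2
        apply h
        rw [hE]
        rcases hw with rfl | rfl
        · exact (hcls _ _).1 (h2.1 ((hcls _ _).2 (hr_refl _)))
        · exact hr_symm _ _ ((hcls _ _).1 (h2.2 ((hcls _ _).2 (hr_refl _))))
      have hmem : ∀ w, (w = a e ∨ w = b e) →
          (Pi.single w 1 : W → F2) ∈ S ⊔ Submodule.span F2 (T : Set (W → F2)) := by
        intro w hw
        have h1 : (Pi.single w 1 + Pi.single (rep (cls w)) 1 : W → F2) ∈ S :=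
          (hcls _ _).1 (hrep _ (hPmem w))
        have h2 : (Pi.single (rep (cls w)) 1 : W → F2) ∈ Submodule.span F2 (T : Set (W → F2)) := by
          apply Submodule.subset_span
          rw [Finset.mem_coe]
          exact Finset.mem_image.2 ⟨cls w, key w hw, rfl⟩
        have h3 : (Pi.single w 1 : W → F2) =
            (Pi.single w 1 + Pi.single (rep (cls w)) 1) + Pi.single (rep (cls w)) 1 := by
          rw [add_assoc, hself, add_zero]
        rw [h3]
        exact Submodule.add_mem _ (Submodule.mem_sup_left h1) (Submodule.mem_sup_right h2)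
      exact Submodule.add_mem _ (hmem _ (Or.inl rfl)) (hmem _ (Or.inr rfl))
  have h1 := Submodule.finrank_mono hle
  have h2 := Submodule.finrank_add_le_finrank_add_finrank S (Submodule.span F2 (T : Set (W → F2)))
  have h3 : Module.finrank F2 (Submodule.span F2 (T : Set (W → F2))) ≤ T.card :=
    finrank_span_finset_le_card T
  have h5 : T.card ≤ P'.card := Finset.card_image_le
  have h6 : Module.finrank F2 (sp F2 (inc a b) univ) ≤ Module.finrank F2 S + P'.card := by omega
  have h7 := Nat.mul_le_mul_left k h6
  rw [Nat.mul_add] at h7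
  omega

/-- `j` spanning sets such that no edge is in more than `k` of them -/
lemma exists_spanning_sets (a b : E → W) (c j k : ℕ)
    (hc : ∀ X : Finset W, cn a b univ X = 0 ∨ c ≤ cn a b univ X) (hjk : 2 * j ≤ k * c) :
    ∃ S : Fin j → Finset E, (∀ i, Spn a b (S i)) ∧
      ∀ e, (univ.filter (fun i => e ∈ S i)).card ≤ k := by
  classical
  have hrank : ∀ R : Finset (E × Fin k), Fintype.card (Fin j) *
      Module.finrank F2 (sp F2 (fun p : E × Fin k => inc a b p.1) univ) ≤
      Fintype.card (Fin j) * Module.finrank F2 (sp F2 (fun p : E × Fin k => inc a b p.1) R) +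
        (univ.filter (fun p : E × Fin k =>
          ¬ inc a b p.1 ∈ sp F2 (fun p : E × Fin k => inc a b p.1) R)).card := by
    intro R
    by_cases hk : k = 0
    · subst hk
      have : j = 0 := by omega
      subst this
      simp
    have h1 := rank_cond_gen a b c hc (sp F2 (fun p : E × Fin k => inc a b p.1) R)
    have hkn : NeZero k := ⟨hk⟩
    have h2 : sp F2 (fun p : E × Fin k => inc a b p.1) univ = sp F2 (inc a b) univ := by
      unfold sp
      congr 1
      ext u
      simp
    have h3 : (univ.filter (fun p : E × Fin k =>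
          ¬ inc a b p.1 ∈ sp F2 (fun p : E × Fin k => inc a b p.1) R)).card =
        k * (univ.filter (fun e : E =>
          ¬ inc a b e ∈ sp F2 (fun p : E × Fin k => inc a b p.1) R)).card := by
      have h4 : univ.filter (fun p : E × Fin k =>
          ¬ inc a b p.1 ∈ sp F2 (fun p : E × Fin k => inc a b p.1) R) =
          (univ.filter (fun e : E =>
          ¬ inc a b e ∈ sp F2 (fun p : E × Fin k => inc a b p.1) R)) ×ˢ (univ : Finset (Fin k)) := by
        ext p; simp
      rw [h4, Finset.card_product, Finset.card_univ, Fintype.card_fin, mul_comm]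
    rw [h2, h3, Fintype.card_fin]
    set A := Module.finrank F2 (sp F2 (inc a b) univ)
    set B := Module.finrank F2 (sp F2 (fun p : E × Fin k => inc a b p.1) R)
    set C := (univ.filter (fun e : E =>
      ¬ inc a b e ∈ sp F2 (fun p : E × Fin k => inc a b p.1) R)).card
    by_cases hAB : A ≤ B
    · have := Nat.mul_le_mul_left j hAB
      omega
    · obtain ⟨D, hD⟩ : ∃ D, A = B + D := ⟨A - B, by omega⟩
      rw [hD] at h1 ⊢
      have h4 : c * D ≤ 2 * C := by
        rw [Nat.mul_add] at h1; omega
      have h5 : 2 * j * D ≤ k * (c * D) := by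
        calc 2 * j * D ≤ k * c * D := Nat.mul_le_mul_right D hjk
          _ = k * (c * D) := by ring
      have h6 : k * (c * D) ≤ k * (2 * C) := Nat.mul_le_mul_left k h4
      have h7 : 2 * (j * D) ≤ 2 * (k * C) := by
        calc 2 * (j * D) = 2 * j * D := by ring
          _ ≤ k * (2 * C) := h5.trans h6
          _ = 2 * (k * C) := by ring
      rw [Nat.mul_add]
      omega
  obtain ⟨I, hd, hI⟩ := packK (K := Fin j) (F := F2)
    (x := fun p : E × Fin k => inc a b p.1) hrank
  have himg : ∀ R : Finset (E × Fin k), sp F2 (fun p : E × Fin k => inc a b p.1) R =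
      sp F2 (inc a b) (R.image Prod.fst) := by
    intro R
    unfold sp
    congr 1
    ext u
    simp
  have hT : ∀ i : Fin j, Spn a b ((I i).image Prod.fst) := by
    intro i
    by_cases hk : k = 0
    · have : j = 0 := by subst hk; omega
      subst this
      exact i.elim0
    have hkn : NeZero k := ⟨hk⟩
    apply spn_of_sp
    rw [← himg, hI i]
    unfold sp
    congr 1
    ext u
    simp
  refine ⟨fun i => (I i).image Prod.fst, hT, ?_⟩
  intro e
  have hmem : ∀ i ∈ univ.filter (fun i => e ∈ (I i).image Prod.fst), ∃ l : Fin k, (e, l) ∈ I i := by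
    intro i hi
    obtain ⟨⟨e', l⟩, hp, rfl⟩ := Finset.mem_image.1 (Finset.mem_filter.1 hi).2
    exact ⟨l, hp⟩
  by_contra hcon
  push Not at hcon
  by_cases hk : k = 0
  · have hj0 : j = 0 := by subst hk; omega
    subst hj0
    simp at hcon
  have hne : Nonempty (Fin k) := ⟨⟨0, by omega⟩⟩
  choose! l hl using hmem
  have hcard : (univ : Finset (Fin k)).card < (univ.filter (fun i => e ∈ (I i).image Prod.fst)).card
      := by
    rw [Finset.card_univ, Fintype.card_fin]
    exact hcon
  obtain ⟨i1, hi1, i2, hi2, hne, heq⟩ := Finset.exists_ne_map_eq_of_card_lt_of_maps_to hcard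
    (f := l) (fun i _ => Finset.mem_univ _)
  have h1 := hl i1 hi1
  have h2 := hl i2 hi2
  rw [heq] at h1
  exact Finset.disjoint_left.1 (hd i1 i2 hne) h1 h2

/-- removable classes: each edge is in exactly `j - k` of the `2 j` classes -/
theorem exists_classes (a b : E → W) (c j k : ℕ) (hc4 : 4 ≤ c)
    (hc : ∀ X : Finset W, cn a b univ X = 0 ∨ c ≤ cn a b univ X) (hjk : 2 * j ≤ k * c)
    (hkj : k ≤ j) :
    ∃ C : Fin j × ZMod 2 → Finset E,
      (∀ e, (univ.filter (fun γ => e ∈ C γ)).card = j - k) ∧
      ∀ γ, ∀ X : Finset E, X ⊆ C γ → ∀ B : Finset W, cn a b (univ \ X) B ≠ 1 := by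
  classical
  obtain ⟨S, hS, hSk⟩ := exists_spanning_sets a b c j k hc hjk
  choose T hTS hTspn hTacy using fun i => exists_base a b (S i) (hS i)
  -- the trees avoided by `e`
  have hav : ∀ e, ∃ A : Finset (Fin j), A ⊆ univ.filter (fun i => e ∉ T i) ∧ A.card = j - k := by
    intro e
    apply Finset.exists_subset_card_eq
    have h1 : (univ.filter (fun i => e ∈ T i)).card ≤ k := by
      refine (Finset.card_le_card ?_).trans (hSk e)
      intro i hi
      rw [Finset.mem_filter] at hi ⊢
      exact ⟨hi.1, hTS i hi.2⟩
    have h2 := Finset.card_filter_add_card_filter_not (s := (univ : Finset (Fin j)))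
      (fun i => e ∈ T i)
    rw [Finset.card_univ, Fintype.card_fin] at h2
    omega
  choose A hA1 hA2 using hav
  have hcov : ∀ i : Fin j, ∀ X : Finset W, cn a b (T i) X = 1 →
      3 ≤ (univ.filter (fun e => e ∉ T i ∧ cr a b X e)).card := by
    intro i X hX
    have h1 : 4 ≤ cn a b univ X := by
      rcases hc X with h | h
      · exfalso
        unfold cn at hX h
        rw [Finset.card_eq_zero] at h
        have h2 : ((T i).filter (fun e => ¬ (a e ∈ X ↔ b e ∈ X))) ⊆
            (univ.filter (fun e => ¬ (a e ∈ X ↔ b e ∈ X))) :=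
          Finset.filter_subset_filter _ (Finset.subset_univ _)
        rw [h, Finset.subset_empty] at h2
        rw [h2, Finset.card_empty] at hX
        omega
      · omega
    have h2 : (univ.filter (fun e => ¬ (a e ∈ X ↔ b e ∈ X))) ⊆
        (univ.filter (fun e => e ∉ T i ∧ cr a b X e)) ∪
          ((T i).filter (fun e => ¬ (a e ∈ X ↔ b e ∈ X))) := by
      intro e he
      rw [Finset.mem_union, Finset.mem_filter, Finset.mem_filter]
      rw [Finset.mem_filter] at he
      by_cases h3 : e ∈ T i
      · right; exact ⟨h3, he.2⟩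
      · left; exact ⟨Finset.mem_univ _, h3, he.2⟩
    have h3 := (Finset.card_le_card h2).trans (Finset.card_union_le _ _)
    unfold cn at hX h1
    omega
  choose col hcol using fun i => exists_two_colouring a b (T i) (hTacy i) (hTspn i) (hcov i)
  refine ⟨fun γ => univ.filter (fun e => γ.1 ∈ A e ∧ col γ.1 e = γ.2), ?_, ?_⟩
  · intro e
    rw [← hA2 e]
    symm
    apply Finset.card_bij (fun i _ => (i, col i e))
    · intro i hi
      simp [hi]
    · intro i _ i' _ h
      exact congrArg Prod.fst h
    · rintro ⟨i, g⟩ h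
      simp only [Finset.mem_filter, Finset.mem_univ, true_and] at h
      exact ⟨i, h.1, by rw [h.2]⟩
  · rintro ⟨i, g⟩ X hX B hB
    have hX' : ∀ e ∈ X, e ∉ T i ∧ col i e = g := by
      intro e he
      have h1 := hX he
      rw [Finset.mem_filter] at h1
      have h2 := hA1 e h1.2.1
      rw [Finset.mem_filter] at h2
      exact ⟨h2.2, h1.2.2⟩
    unfold cn at hB
    obtain ⟨t, ht⟩ := Finset.card_eq_one.1 hB
    have hmem : ∀ e, (e ∉ X ∧ cr a b B e) ↔ e = t := by
      intro e
      have : e ∈ (univ \ X).filter (fun e => ¬ (a e ∈ B ↔ b e ∈ B)) ↔ e ∈ ({t} : Finset E) := by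
        rw [ht]
      simpa [cr] using this
    obtain ⟨htX, htB⟩ := (hmem t).2 rfl
    have htT : t ∈ T i := by
      by_contra htT
      refine hTspn i B ?_ t htB
      intro e he hc
      have := (hmem e).1 ⟨fun h => (hX' e h).1 he, hc⟩
      exact htT (this ▸ he)
    have hcn : cn a b (T i) B = 1 := by
      unfold cn
      rw [Finset.card_eq_one]
      refine ⟨t, ?_⟩
      ext e
      rw [Finset.mem_filter, Finset.mem_singleton]
      constructor
      · rintro ⟨h1, h2⟩
        exact (hmem e).1 ⟨fun h => (hX' e h).1 h1, h2⟩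
      · rintro rfl
        exact ⟨htT, htB⟩
    obtain ⟨e, e', he1, he2, he'1, he'2, hne⟩ := hcol i B hcn
    have key : ∀ e, e ∉ T i → cr a b B e → col i e = g := by
      intro e h1 h2
      have h3 : e ∈ X := by
        by_contra h4
        exact h1 (((hmem e).1 ⟨h4, h2⟩) ▸ htT)
      exact (hX' e h3).2
    exact hne ((key e he1 he2).trans (key e' he'1 he'2).symm)

end Pool.Agent.H88.God
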