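import Pool.Agent.H88.God.Blocks
import Pool.Agent.H88.God.Trees

set_option autoImplicit false
set_option linter.unusedSectionVars false

/-!
Covers of graphs without small cuts.
-/

namespace Pool.Agent.H88.God

open Finset
open Pool.Agent.Helper879.ECD (F2 IsFlow f2_add_self f2_cases cn inc fnl fnl_inc)
open Pool.Agent.H126R2.CDC (MGraph IsFl isFl_iff exists_flow8)
open Pool.Agent.H126R2.NC
open Pool.Agent.H655R2.GOD

variable {V E : Type} [Fintype V] [DecidableEq V] [Fintype E] [DecidableEq E]

/-- covers from removable classes, each edge in exactly `s` of the `r + s` classes -/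
theorem cover_multi (G : MGraph V E) (v : E × Bool → V)
    (hv : ∀ e, G.ends e = s(v (e, false), v (e, true)))
    (htc : ∀ e f, TC (fun e => v (e, false)) (fun e => v (e, true)) e f → e = f)
    {κ : Type} [Fintype κ] [DecidableEq κ]
    (C : κ → Finset E) (r s : ℕ) (hcard : Fintype.card κ = r + s)
    (hs : ∀ e, (univ.filter (fun γ => e ∈ C γ)).card = s)
    (hrem : ∀ γ, ∀ X : Finset E, X ⊆ C γ →
      ∀ B : Finset V, cn (fun e => v (e, false)) (fun e => v (e, true)) (univ \ X) B ≠ 1)
    (q : E → ℕ) (n m : ℕ)
    (hq : ∀ e, r * (2 * n + m) ≤ q e ∧ q e ≤ r * (2 * n + m) + s * (4 * n + m))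
    (hnm : n = 0 ∨ 3 ≤ s * m) :
    InIntCone G (fun e => 2 * q e) := by
  classical
  set a : E → V := fun e => v (e, false) with ha
  set b : E → V := fun e => v (e, true) with hb
  -- the numbers of blocks
  have hdec : ∀ e, ∃ t u : ℕ, t ≤ s * n ∧ u ≤ s * m ∧ q e = r * (2 * n + m) + 4 * t + u := by
    intro e
    obtain ⟨h1, h2⟩ := hq e
    have h3 : s * (4 * n + m) = 4 * (s * n) + s * m := by ring
    rw [h3] at h2
    obtain ⟨R, hR⟩ : ∃ R, q e = r * (2 * n + m) + R := ⟨q e - r * (2 * n + m), by omega⟩
    have hR2 : R ≤ 4 * (s * n) + s * m := by omega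
    rcases Nat.le_total (s * n) (R / 4) with h | h
    · exact ⟨s * n, R - 4 * (s * n), le_refl _, by omega, by omega⟩
    · refine ⟨R / 4, R % 4, h, ?_, by omega⟩
      rcases hnm with h4 | h4
      · subst h4
        have : R / 4 = 0 := by
          have : s * 0 = 0 := Nat.mul_zero s
          omega
        have h5 : R ≤ s * m := by
          have : s * 0 = 0 := Nat.mul_zero s
          omega
        exact (Nat.mod_le R 4).trans h5
      · omega
  choose t u ht hu hqtu using hdec
  -- the cells
  have hcell : ∀ (e : E) (N x : ℕ), x ≤ s * N →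
      ∃ S : Finset (κ × ℕ), S ⊆ (univ.filter (fun γ => e ∈ C γ)) ×ˢ Finset.range N ∧
        S.card = x := by
    intro e N x hx
    apply Finset.exists_subset_card_eq
    rw [Finset.card_product, hs e, Finset.card_range]
    exact hx
  choose S hS1 hS2 using fun e => hcell e n (t e) (ht e)
  choose U hU1 hU2 using fun e => hcell e m (u e) (hu e)
  -- the first kind of blocks
  have hd : ∀ (γ : κ) (j : ℕ), InIntCone G (fun e => if e ∈ C γ then
      (if (γ, j) ∈ S e then 8 else 0) else 4) := by
    intro γ j
    obtain ⟨x, hx1, hx2⟩ := ext_tc a b (C γ) ((C γ).filter (fun e => (γ, j) ∈ S e))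
      (Finset.filter_subset _ _)
      (fun e he f hf => (htc e f hf) ▸ he)
      (fun e he f hf => (htc e f hf) ▸ he)
      (fun X hX _ => hrem γ X hX)
    have h1 := delta_block G v hv (C γ) (hrem γ (C γ) (Finset.Subset.refl _)) x hx1
    convert h1 using 2 with e
    by_cases he : e ∈ C γ
    · rw [if_pos he, if_pos he, hx2 e he]
      by_cases h2 : (γ, j) ∈ S e
      · simp [he, h2]
      · simp [h2]
    · rw [if_neg he, if_neg he]
  -- the second kind of blocks
  have hb2 : ∀ (γ : κ) (j : ℕ), InIntCone G (fun e =>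
      if e ∈ (C γ).filter (fun e => (γ, j) ∉ U e) then 0 else 2) := by
    intro γ j
    apply cover_minus G v hv
    exact hrem γ _ (Finset.filter_subset _ _)
  have h1 := sum_cover G (univ : Finset κ) _ (fun γ _ =>
    sum_cover G (Finset.range n) _ (fun j _ => hd γ j))
  have h2 := sum_cover G (univ : Finset κ) _ (fun γ _ =>
    sum_cover G (Finset.range m) _ (fun j _ => hb2 γ j))
  have h3 := add_cover G h1 h2
  convert h3 using 2 with e
  have hout : (univ.filter (fun γ => e ∉ C γ)).card = r := by
    have h4 := Finset.card_filter_add_card_filter_not (s := (univ : Finset κ))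
      (fun γ => e ∈ C γ)
    rw [hs e, Finset.card_univ, hcard] at h4
    omega
  have e1 : ∑ γ : κ, ∑ j ∈ Finset.range n, (if e ∈ C γ then (if (γ, j) ∈ S e then 8 else 0)
      else 4) = 8 * t e + r * (4 * n) := by
    rw [← Finset.sum_filter_add_sum_filter_not univ (fun γ => e ∈ C γ)]
    congr 1
    · have h4 : ∀ γ ∈ univ.filter (fun γ => e ∈ C γ), ∑ j ∈ Finset.range n,
          (if e ∈ C γ then (if (γ, j) ∈ S e then 8 else 0) else 4) =
          ∑ j ∈ Finset.range n, (if (γ, j) ∈ S e then 8 else 0) := by
        intro γ hγ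
        apply Finset.sum_congr rfl
        intro j _
        rw [if_pos (Finset.mem_filter.1 hγ).2]
      rw [Finset.sum_congr rfl h4, ← Finset.sum_product', ← Finset.sum_filter, Finset.sum_const,
        smul_eq_mul]
      have h5 : ((univ.filter (fun γ => e ∈ C γ)) ×ˢ Finset.range n).filter
          (fun p => (p.1, p.2) ∈ S e) = S e := by
        ext p
        rw [Finset.mem_filter]
        exact ⟨fun h => h.2, fun h => ⟨hS1 e h, h⟩⟩
      rw [h5, hS2 e, mul_comm]
    · have h4 : ∀ γ ∈ univ.filter (fun γ => ¬ e ∈ C γ), ∑ j ∈ Finset.range n,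
          (if e ∈ C γ then (if (γ, j) ∈ S e then 8 else 0) else 4) = 4 * n := by
        intro γ hγ
        have h5 : ∀ j ∈ Finset.range n,
            (if e ∈ C γ then (if (γ, j) ∈ S e then 8 else 0) else 4) = 4 := by
          intro j _
          rw [if_neg (Finset.mem_filter.1 hγ).2]
        rw [Finset.sum_congr rfl h5, Finset.sum_const, Finset.card_range, smul_eq_mul, mul_comm]
      rw [Finset.sum_congr rfl h4, Finset.sum_const, hout, smul_eq_mul]
  have e2 : ∑ γ : κ, ∑ j ∈ Finset.range m,
      (if e ∈ (C γ).filter (fun e => (γ, j) ∉ U e) then 0 else 2) =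
      2 * u e + r * (2 * m) := by
    rw [← Finset.sum_filter_add_sum_filter_not univ (fun γ => e ∈ C γ)]
    congr 1
    · have h4 : ∀ γ ∈ univ.filter (fun γ => e ∈ C γ), ∑ j ∈ Finset.range m,
          (if e ∈ (C γ).filter (fun e => (γ, j) ∉ U e) then 0 else 2) =
          ∑ j ∈ Finset.range m, (if (γ, j) ∈ U e then 2 else 0) := by
        intro γ hγ
        apply Finset.sum_congr rfl
        intro j _
        have h6 := (Finset.mem_filter.1 hγ).2
        by_cases h5 : (γ, j) ∈ U e
        · rw [if_pos h5, if_neg (by simp [h5])]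
        · rw [if_neg h5, if_pos (by rw [Finset.mem_filter]; exact ⟨h6, h5⟩)]
      rw [Finset.sum_congr rfl h4, ← Finset.sum_product', ← Finset.sum_filter, Finset.sum_const,
        smul_eq_mul]
      have h5 : ((univ.filter (fun γ => e ∈ C γ)) ×ˢ Finset.range m).filter
          (fun p => (p.1, p.2) ∈ U e) = U e := by
        ext p
        rw [Finset.mem_filter]
        exact ⟨fun h => h.2, fun h => ⟨hU1 e h, h⟩⟩
      rw [h5, hU2 e, mul_comm]
    · have h4 : ∀ γ ∈ univ.filter (fun γ => ¬ e ∈ C γ), ∑ j ∈ Finset.range m,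
          (if e ∈ (C γ).filter (fun e => (γ, j) ∉ U e) then 0 else 2) = 2 * m := by
        intro γ hγ
        have h5 : ∀ j ∈ Finset.range m,
            (if e ∈ (C γ).filter (fun e => (γ, j) ∉ U e) then 0 else 2) = 2 := by
          intro j _
          rw [if_neg]
          intro h6
          exact (Finset.mem_filter.1 hγ).2 (Finset.mem_filter.1 h6).1
        rw [Finset.sum_congr rfl h5, Finset.sum_const, Finset.card_range, smul_eq_mul, mul_comm]
      rw [Finset.sum_congr rfl h4, Finset.sum_const, hout, smul_eq_mul]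
  rw [e1, e2, hqtu e]
  ring

/-- combining, without admissibility -/
theorem combine_br (G : MGraph V E) (v : E × Bool → V)
    (hv : ∀ e, G.ends e = s(v (e, false), v (e, true)))
    (hbr : ∀ X : Finset V, cn (fun e => v (e, false)) (fun e => v (e, true)) univ X ≠ 1)
    (w : E → ℕ) (heul : ∀ X : Finset V, Even (∑ e ∈ cut G X, w e))
    (q : E → ℕ) (hq : InIntCone G q) (k : ℕ)
    (hk : (∀ e, w e = q e + k * (w e % 2)) ∨ (∀ e, w e + k * (w e % 2) = q e + 4 * k)) :
    InIntCone G w := by
  have hO := odd_even G w heul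
  rcases hk with hk | hk
  · have h1 := add_cover G hq (smul_cover G k (cover_even G _ hO))
    have h2 : w = fun e => q e + k * (if e ∈ univ.filter (fun e => w e % 2 = 1) then 1 else 0) := by
      ext e
      have h3 := hk e
      simp only [Finset.mem_filter, Finset.mem_univ, true_and]
      rcases Nat.mod_two_eq_zero_or_one (w e) with h4 | h4
      · rw [h4] at h3 ⊢; simpa using h3
      · rw [h4] at h3 ⊢; simpa using h3
    rw [h2]; exact h1
  · have h1 := add_cover G hq (smul_cover G k (cover_four G v hv hbr _ hO))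
    have h2 : w = fun e => q e + k * (if e ∈ univ.filter (fun e => w e % 2 = 1) then 3 else 4) := by
      ext e
      have h3 := hk e
      simp only [Finset.mem_filter, Finset.mem_univ, true_and]
      rcases Nat.mod_two_eq_zero_or_one (w e) with h4 | h4
      · rw [h4] at h3 ⊢
        rw [if_neg (by decide)]
        omega
      · rw [h4] at h3 ⊢
        rw [if_pos rfl]
        omega
    rw [h2]; exact h1

lemma card_cut_eq (G : MGraph V E) (v : E × Bool → V)
    (hv : ∀ e, G.ends e = s(v (e, false), v (e, true))) (X : Finset V) :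
    cn (fun e => v (e, false)) (fun e => v (e, true)) univ X = (cut G X).card := by
  unfold cn
  congr 1
  ext e
  rw [mem_cut G v hv]
  simp

/-- weights of graphs without small cuts -/
theorem many_cover (G : MGraph V E) (c j k : ℕ) (hc4 : 4 ≤ c)
    (hc : ∀ X : Finset V, cut G X = ∅ ∨ c ≤ (cut G X).card) (hjk : 2 * j ≤ k * c) (hkj : k ≤ j)
    (w : E → ℕ) (heul : ∀ X : Finset V, Even (∑ e ∈ cut G X, w e))
    (q : E → ℕ) (l : ℕ)
    (hl : (∀ e, w e = 2 * q e + l * (w e % 2)) ∨ (∀ e, w e + l * (w e % 2) = 2 * q e + 4 * l))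
    (n m : ℕ) (hnm : n = 0 ∨ 3 ≤ (j - k) * m)
    (hq : ∀ e, (j + k) * (2 * n + m) ≤ q e ∧
      q e ≤ (j + k) * (2 * n + m) + (j - k) * (4 * n + m)) :
    InIntCone G w := by
  obtain ⟨v, hv⟩ := G.exists_halves
  have hcn : ∀ X : Finset V, cn (fun e => v (e, false)) (fun e => v (e, true)) univ X = 0 ∨
      c ≤ cn (fun e => v (e, false)) (fun e => v (e, true)) univ X := by
    intro X
    rw [card_cut_eq G v hv]
    rcases hc X with h | h
    · left; rw [h, Finset.card_empty]
    · right; exact h
  have hbr : ∀ X : Finset V, cn (fun e => v (e, false)) (fun e => v (e, true)) univ X ≠ 1 := by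
    intro X
    rcases hcn X with h | h
    · omega
    · omega
  have htc : ∀ e f, TC (fun e => v (e, false)) (fun e => v (e, true)) e f → e = f := by
    intro e f h
    by_contra hef
    obtain ⟨z, hz⟩ := h
    have h1 : cn (fun e => v (e, false)) (fun e => v (e, true)) univ
        (univ.filter (fun u => z u = 1)) = 2 := by
      unfold cn
      rw [Finset.card_eq_two]
      refine ⟨e, f, hef, ?_⟩
      ext g
      simp only [Finset.mem_filter, Finset.mem_univ, true_and, Finset.mem_insert,
        Finset.mem_singleton]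
      rw [f2_ne, hz g]
      by_cases h6 : g = e
      · subst h6; simp [hef]
      · by_cases h7 : g = f
        · subst h7; simp [Ne.symm hef]
        · simp [h6, h7]
    rcases hcn (univ.filter (fun u => z u = 1)) with h2 | h2 <;> omega
  obtain ⟨C, hC1, hC2⟩ := exists_classes (fun e => v (e, false)) (fun e => v (e, true)) c j k hc4
    hcn hjk hkj
  apply combine_br G v hv hbr w heul (fun e => 2 * q e) _ l hl
  exact cover_multi G v hv htc C (j + k) (j - k) (by
    rw [Fintype.card_prod, Fintype.card_fin, ZMod.card]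
    omega) hC1 hC2 q n m hq hnm

end Pool.Agent.H88.God
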