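import Pool.Agent.H88.God.Cara

set_option autoImplicit false
set_option linter.unusedSectionVars false

/-!
Weights without faithful circuit covers on graphs which can be contracted to the Petersen graph.
-/

namespace Pool.Agent.H88.Pet

open Finset
open Pool.Agent.Helper879.ECD (F2 IsFlow f2_add_self f2_cases cn)
open Pool.Agent.H126R2.CDC (MGraph IsFl isFl_iff)
open Pool.Agent.H126R2.NC
open Pool.Agent.H655R2.GOD
open Pool.Agent.H88.God

/-- The edges of the Petersen graph with vertices `0, …, 9`: the edges `0, …, 4` form the outer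
pentagon `0 1 2 3 4`, the edges `5, …, 9` the inner pentagon `5 7 9 6 8`, and the edges
`10, …, 14` are the spokes, which join `x` and `x + 5` for `x = 0, …, 4`. -/
def petA : Fin 15 → Fin 10 := ![0, 1, 2, 3, 4, 5, 7, 9, 6, 8, 0, 1, 2, 3, 4]
def petB : Fin 15 → Fin 10 := ![1, 2, 3, 4, 0, 7, 9, 6, 8, 5, 5, 6, 7, 8, 9]

def pe (ε : Fin 15) : Sym2 (Fin 10) := s(petA ε, petB ε)

lemma pe_inj : ∀ ε δ : Fin 15, pe ε = pe δ → ε = δ := by decide +kernel

lemma petAB : ∀ ε : Fin 15, petA ε ≠ petB ε := by decide +kernel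

lemma cross_even : ∀ f : Fin 10 → Bool,
    Even ((univ : Finset (Fin 15)).filter (fun ε => ε.1 < 10 ∧ f (petA ε) ≠ f (petB ε))).card := by
  decide +kernel

lemma cross_rim : ∀ f : Fin 10 → Bool, ∀ ε : Fin 15, ε.1 < 10 → f (petA ε) ≠ f (petB ε) →
    ∃ δ : Fin 15, δ ≠ ε ∧ f (petA δ) ≠ f (petB δ) := by
  decide +kernel

lemma cross_spoke : ∀ f : Fin 10 → Bool, ∀ ε : Fin 15, ¬ ε.1 < 10 → f (petA ε) ≠ f (petB ε) →
    (∃ δ : Fin 15, δ ≠ ε ∧ ¬ δ.1 < 10 ∧ f (petA δ) ≠ f (petB δ)) ∨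
    ∃ δ δ' : Fin 15, δ.1 < 10 ∧ δ'.1 < 10 ∧ δ ≠ δ' ∧ f (petA δ) ≠ f (petB δ) ∧
      f (petA δ') ≠ f (petB δ') := by
  decide +kernel

def e1 : Fin 10 → Fin 15 := ![0, 0, 1, 2, 3, 5, 7, 5, 8, 6]
def e2 : Fin 10 → Fin 15 := ![4, 1, 2, 3, 4, 9, 8, 6, 9, 7]
def sp : Fin 10 → Fin 15 := ![10, 11, 12, 13, 14, 10, 11, 12, 13, 14]

lemma star_eq : ∀ v : Fin 10, univ.filter (fun ε : Fin 15 =>
    decide (petA ε = v) ≠ decide (petB ε = v)) = {e1 v, e2 v, sp v} := by decide +kernel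

lemma star_ne : ∀ v : Fin 10, e1 v ≠ e2 v ∧ e1 v ≠ sp v ∧ e2 v ≠ sp v ∧ (e1 v).1 < 10 ∧
    (e2 v).1 < 10 ∧ ¬ (sp v).1 < 10 := by decide +kernel

lemma star_sum (v : Fin 10) (g : Fin 15 → ℕ) :
    ∑ ε : Fin 15, (if decide (petA ε = v) ≠ decide (petB ε = v) then g ε else 0) =
      g (e1 v) + g (e2 v) + g (sp v) := by
  obtain ⟨h1, h2, h3, -⟩ := star_ne v
  rw [← Finset.sum_filter, star_eq, Finset.sum_insert (by simp [h1, h2]),
    Finset.sum_insert (by simp [h3]), Finset.sum_singleton, add_assoc]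

/-- the number of outer edges in an alternating family -/
lemma outer_even (a : Fin 15 → ℕ) (h : Fin 15 → ℕ) (hh : ∀ ε, h ε ≤ 1)
    (hs : ∀ v, h (sp v) ≤ a (sp v))
    (hv : ∀ v, a (e1 v) + a (e2 v) + a (sp v) = 2 * h (sp v)) :
    Even (a 0 + a 1 + a 2 + a 3 + a 4) := by
  have v0 := hv 0
  have v1 := hv 1
  have v2 := hv 2
  have v3 := hv 3
  have v4 := hv 4
  have v5 := hv 5
  have v6 := hv 6
  have v7 := hv 7
  have v8 := hv 8
  have v9 := hv 9
  have s0 := hs 0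
  have s1 := hs 1
  have s2 := hs 2
  have s3 := hs 3
  have s4 := hs 4
  change a 0 + a 4 + a 10 = 2 * h 10 at v0
  change a 0 + a 1 + a 11 = 2 * h 11 at v1
  change a 1 + a 2 + a 12 = 2 * h 12 at v2
  change a 2 + a 3 + a 13 = 2 * h 13 at v3
  change a 3 + a 4 + a 14 = 2 * h 14 at v4
  change a 5 + a 9 + a 10 = 2 * h 10 at v5
  change a 7 + a 8 + a 11 = 2 * h 11 at v6
  change a 5 + a 6 + a 12 = 2 * h 12 at v7
  change a 8 + a 9 + a 13 = 2 * h 13 at v8
  change a 6 + a 7 + a 14 = 2 * h 14 at v9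
  change h 10 ≤ a 10 at s0
  change h 11 ≤ a 11 at s1
  change h 12 ≤ a 12 at s2
  change h 13 ≤ a 13 at s3
  change h 14 ≤ a 14 at s4
  have t0 := hh 10
  have t1 := hh 11
  have t2 := hh 12
  have t3 := hh 13
  have t4 := hh 14
  have w0 : a 5 + a 9 = a 0 + a 4 := by omega
  have w1 : a 7 + a 8 = a 0 + a 1 := by omega
  have w2 : a 5 + a 6 = a 1 + a 2 := by omega
  have w3 : a 8 + a 9 = a 2 + a 3 := by omega
  have w4 : a 6 + a 7 = a 3 + a 4 := by omega
  have b0 : a 0 + a 4 ≤ 1 := by omega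
  have b1 : a 0 + a 1 ≤ 1 := by omega
  have b2 : a 1 + a 2 ≤ 1 := by omega
  have b3 : a 2 + a 3 ≤ 1 := by omega
  have b4 : a 3 + a 4 ≤ 1 := by omega
  clear v0 v1 v2 v3 v4 v5 v6 v7 v8 v9 s0 s1 s2 s3 s4 t0 t1 t2 t3 t4 hh hs hv
  generalize a 0 = o0 at *
  generalize a 1 = o1 at *
  generalize a 2 = o2 at *
  generalize a 3 = o3 at *
  generalize a 4 = o4 at *
  generalize a 5 = i5 at *
  generalize a 6 = i6 at *
  generalize a 7 = i7 at *
  generalize a 8 = i8 at *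
  generalize a 9 = i9 at *
  have hsum : o0 + o1 + o2 + o3 + o4 ≤ 2 := by omega
  have h1 : o0 + o1 + o2 + o3 + o4 ≠ 1 := by
    intro h1
    have h2 : o0 = 1 ∨ o1 = 1 ∨ o2 = 1 ∨ o3 = 1 ∨ o4 = 1 := by omega
    rcases h2 with h2 | h2 | h2 | h2 | h2 <;> omega
  rw [Nat.even_iff]
  omega

variable {V E : Type} [Fintype V] [DecidableEq V] [Fintype E] [DecidableEq E]

/-- the edges over an edge of the Petersen graph -/
def fib (G : MGraph V E) (φ : V → Fin 10) (ε : Fin 15) : Finset E :=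
  univ.filter (fun e => Sym2.map φ (G.ends e) = pe ε)

/-- the cut of a union of fibres -/
lemma sum_cut_fib (G : MGraph V E) (φ : V → Fin 10)
    (hφ : ∀ e, (Sym2.map φ (G.ends e)).IsDiag ∨ ∃ ε, Sym2.map φ (G.ends e) = pe ε)
    (X : Finset V) (S : Fin 10 → Bool) (hX : ∀ u, u ∈ X ↔ S (φ u) = true) (g : E → ℕ) :
    ∑ e ∈ cut G X, g e =
      ∑ ε : Fin 15, if S (petA ε) ≠ S (petB ε) then ∑ e ∈ fib G φ ε, g e else 0 := by
  classical
  obtain ⟨v, hv⟩ := G.exists_halves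
  have h1 : ∀ ε ∈ (univ : Finset (Fin 15)),
      (if S (petA ε) ≠ S (petB ε) then ∑ e ∈ fib G φ ε, g e else 0) =
      ∑ e : E, if S (petA ε) ≠ S (petB ε) ∧ e ∈ fib G φ ε then g e else 0 := by
    intro ε _
    by_cases h : S (petA ε) ≠ S (petB ε)
    · rw [if_pos h]
      simp only [h, true_and, ne_eq, not_false_eq_true]
      rw [← Finset.sum_filter]
      apply Finset.sum_congr _ (fun _ _ => rfl)
      ext e
      simp
    · rw [if_neg h]
      symm
      apply Finset.sum_eq_zero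
      intro e _
      rw [if_neg (fun h2 => h h2.1)]
  rw [Finset.sum_congr rfl h1, Finset.sum_comm]
  have h2 : ∑ e ∈ cut G X, g e = ∑ e : E, if e ∈ cut G X then g e else 0 := by
    rw [← Finset.sum_filter]
    apply Finset.sum_congr _ (fun _ _ => rfl)
    ext e
    simp
  rw [h2]
  apply Finset.sum_congr rfl
  intro e _
  have hends : Sym2.map φ (G.ends e) = s(φ (v (e, false)), φ (v (e, true))) := by
    rw [hv e, Sym2.map_mk]
  have hcut : e ∈ cut G X ↔ S (φ (v (e, false))) ≠ S (φ (v (e, true))) := by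
    rw [mem_cut G v hv, hX, hX]
    cases S (φ (v (e, false))) <;> cases S (φ (v (e, true))) <;> simp
  rcases hφ e with hd | ⟨ε, hε⟩
  · have h3 : φ (v (e, false)) = φ (v (e, true)) := by
      rw [hends] at hd
      exact hd
    rw [if_neg (by rw [hcut, h3]; simp)]
    symm
    apply Finset.sum_eq_zero
    intro ε _
    rw [if_neg]
    rintro ⟨-, h4⟩
    have h5 := (Finset.mem_filter.1 h4).2
    rw [h5] at hd
    exact petAB ε hd
  · have h3 : ∀ δ ∈ (univ : Finset (Fin 15)),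
        (if S (petA δ) ≠ S (petB δ) ∧ e ∈ fib G φ δ then g e else 0) =
        if δ = ε then (if S (petA ε) ≠ S (petB ε) then g e else 0) else 0 := by
      intro δ _
      by_cases h4 : δ = ε
      · subst h4
        have h5 : e ∈ fib G φ δ := Finset.mem_filter.2 ⟨Finset.mem_univ _, hε⟩
        simp [h5]
      · rw [if_neg h4, if_neg]
        rintro ⟨-, h5⟩
        apply h4
        apply pe_inj
        rw [← (Finset.mem_filter.1 h5).2, hε]
    rw [Finset.sum_congr rfl h3, Finset.sum_ite_eq' univ ε, if_pos (Finset.mem_univ _)]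
    have h4 : (S (φ (v (e, false))) ≠ S (φ (v (e, true)))) ↔ S (petA ε) ≠ S (petB ε) := by
      rw [hends] at hε
      unfold pe at hε
      rcases Sym2.eq_iff.1 hε with ⟨h5, h6⟩ | ⟨h5, h6⟩
      · rw [h5, h6]
      · rw [h5, h6]
        exact ne_comm
    by_cases h5 : S (petA ε) ≠ S (petB ε)
    · rw [if_pos h5, if_pos (hcut.2 (h4.2 h5))]
    · rw [if_neg h5, if_neg (fun h => h5 (h4.1 (hcut.1 h)))]

end Pool.Agent.H88.Pet
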