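import Pool.Agent.H88.God.Pet

set_option autoImplicit false
set_option linter.unusedSectionVars false

/-!
Weights without faithful circuit covers on graphs which can be contracted to the Petersen graph.
-/

namespace Pool.Agent.H88.Pet

open Finset
open Pool.Agent.Helper879.ECD (F2 IsFlow f2_add_self f2_cases cn)
open Pool.Agent.H126R2.CDC (MGraph IsFl isFl_iff)
open Pool.Agent.H126R2.NC
open Pool.Agent.H655R2.GOD
open Pool.Agent.H88.God

variable {V E : Type} [Fintype V] [DecidableEq V] [Fintype E] [DecidableEq E]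

/-- `φ` contracts `G` to the Petersen graph (with parallel edges), and the fibres are connected and
bridgeless -/
structure Contr (G : MGraph V E) (φ : V → Fin 10) : Prop where
  ends : ∀ e, (Sym2.map φ (G.ends e)).IsDiag ∨ ∃ ε, Sym2.map φ (G.ends e) = pe ε
  onto : ∀ ε, ∃ e, Sym2.map φ (G.ends e) = pe ε
  conn : ∀ X : Finset V, (∃ u v, φ u = φ v ∧ u ∈ X ∧ v ∉ X) →
    2 ≤ ((cut G X).filter (fun e => (Sym2.map φ (G.ends e)).IsDiag)).card

/-- no cover for tight weights with an odd number of rim passes -/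
theorem no_cover (G : MGraph V E) (φ : V → Fin 10)
    (hφ : ∀ e, (Sym2.map φ (G.ends e)).IsDiag ∨ ∃ ε, Sym2.map φ (G.ends e) = pe ε)
    (w : E → ℕ) (r : Fin 15 → E) (hr : ∀ ε, r ε ∈ fib G φ ε)
    (K : ℕ) (hK : Odd K) (hrim : ∀ ε : Fin 15, ε.1 < 10 → ∑ e ∈ fib G φ ε, w e = K)
    (hspoke : ∀ ε : Fin 15, ¬ ε.1 < 10 → 2 * K + ∑ e ∈ fib G φ ε, w e = 2 * w (r ε)) :
    ¬ ∃ F : Multiset (Finset E), (∀ C ∈ F, G.IsCircuit C) ∧
      ∀ e, F.countP (fun C => e ∈ C) = w e := by
  classical
  rintro ⟨F, hF, hw⟩
  obtain ⟨v, hv⟩ := G.exists_halves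
  have hw' : ∀ e, w e = ∑ C : Finset E, F.count C * (if e ∈ C then 1 else 0) := by
    intro e
    rw [← hw e, countP_eq_sum]
  have hsumD : ∀ D : Finset E, ∑ e ∈ D, w e =
      ∑ C : Finset E, F.count C * ∑ e ∈ D, (if e ∈ C then 1 else 0) := by
    intro D
    rw [Finset.sum_congr rfl (fun e _ => hw' e), Finset.sum_comm]
    exact Finset.sum_congr rfl (fun C _ => by rw [Finset.mul_sum])
  -- the numbers of edges of a circuit in the fibres
  let a : Finset E → Fin 15 → ℕ := fun C ε => ∑ e ∈ fib G φ ε, (if e ∈ C then 1 else 0)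
  let h : Finset E → Fin 15 → ℕ := fun C ε => if r ε ∈ C then 1 else 0
  let X : Fin 10 → Finset V := fun u => univ.filter (fun x => φ x = u)
  have hXS : ∀ u x, x ∈ X u ↔ (fun y => decide (y = u)) (φ x) = true := by
    intro u x
    simp [X]
  have hcutsum : ∀ (u : Fin 10) (g : E → ℕ), ∑ e ∈ cut G (X u), g e =
      ∑ e ∈ fib G φ (e1 u), g e + ∑ e ∈ fib G φ (e2 u), g e + ∑ e ∈ fib G φ (sp u), g e := by
    intro u g
    rw [sum_cut_fib G φ hφ (X u) (fun y => decide (y = u)) (hXS u) g]
    exact star_sum u (fun ε => ∑ e ∈ fib G φ ε, g e)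
  -- every circuit passes a tight cut along the heavy edge
  have htight : ∀ u : Fin 10, ∀ C : Finset E, F.count C ≠ 0 →
      a C (e1 u) + a C (e2 u) + a C (sp u) = 2 * h C (sp u) := by
    intro u
    obtain ⟨-, -, -, hu1, hu2, hu3⟩ := star_ne u
    have h1 : ∑ e ∈ cut G (X u), w e = 2 * w (r (sp u)) := by
      rw [hcutsum, hrim _ hu1, hrim _ hu2, ← hspoke _ hu3]
      ring
    have h2 : ∀ C, ∑ e ∈ cut G (X u), (if e ∈ C then 1 else 0) =
        a C (e1 u) + a C (e2 u) + a C (sp u) := fun C => hcutsum u _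
    have hle : ∀ C : Finset E, F.count C ≠ 0 →
        2 * h C (sp u) ≤ a C (e1 u) + a C (e2 u) + a C (sp u) := by
      intro C hC
      by_cases h3 : r (sp u) ∈ C
      · have h4 : 1 ≤ a C (sp u) := by
          have h5 := Finset.single_le_sum (f := fun e => if e ∈ C then 1 else 0)
            (fun _ _ => Nat.zero_le _) (hr (sp u))
          simp only [if_pos h3] at h5
          exact h5
        have h5 := even_cut G v hv C (hF C (Multiset.count_ne_zero.1 hC)) (X u)
        rw [h2 C] at h5
        simp only [h, if_pos h3]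
        obtain ⟨k, hk⟩ := h5
        omega
      · simp only [h, if_neg h3]
        omega
    have h3 : ∑ C : Finset E, F.count C * (a C (e1 u) + a C (e2 u) + a C (sp u)) =
        ∑ C : Finset E, F.count C * (2 * h C (sp u)) := by
      have h4 := hsumD (cut G (X u))
      rw [h1, hw' (r (sp u)), Finset.mul_sum] at h4
      have h5 : ∑ C : Finset E, F.count C * (a C (e1 u) + a C (e2 u) + a C (sp u)) =
          ∑ C : Finset E, F.count C * ∑ e ∈ cut G (X u), (if e ∈ C then 1 else 0) :=
        Finset.sum_congr rfl (fun C _ => by rw [h2 C])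
      rw [h5, ← h4]
      apply Finset.sum_congr rfl
      intro C _
      show 2 * (F.count C * (if r (sp u) ∈ C then 1 else 0)) =
        F.count C * (2 * (if r (sp u) ∈ C then 1 else 0))
      ring
    intro C hC
    have h4 : ∀ C ∈ (univ : Finset (Finset E)), F.count C * (2 * h C (sp u)) ≤
        F.count C * (a C (e1 u) + a C (e2 u) + a C (sp u)) := by
      intro C _
      by_cases h5 : F.count C = 0
      · rw [h5, zero_mul, zero_mul]
      · exact Nat.mul_le_mul_left _ (hle C h5)
    have h5 := (Finset.sum_eq_sum_iff_of_le h4).1 h3.symm C (Finset.mem_univ C)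
    exact (Nat.eq_of_mul_eq_mul_left (Nat.pos_of_ne_zero hC) h5).symm
  -- the parity
  have hev : ∀ C : Finset E, F.count C ≠ 0 → Even (a C 0 + a C 1 + a C 2 + a C 3 + a C 4) := by
    intro C hC
    apply outer_even (a C) (h C)
    · intro ε
      simp only [h]
      split_ifs <;> omega
    · intro u
      simp only [h]
      split_ifs with h3
      · have h5 := Finset.single_le_sum (f := fun e => if e ∈ C then 1 else 0)
          (fun _ _ => Nat.zero_le _) (hr (sp u))
        simp only [if_pos h3] at h5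
        exact h5
      · exact Nat.zero_le _
    · intro u
      exact htight u C hC
  have h1 : ∀ ε, ∑ e ∈ fib G φ ε, w e = ∑ C : Finset E, F.count C * a C ε := fun ε => hsumD _
  have h2 : K + K + K + K + K =
      ∑ C : Finset E, F.count C * (a C 0 + a C 1 + a C 2 + a C 3 + a C 4) := by
    have h3 : ∀ C ∈ (univ : Finset (Finset E)),
        F.count C * (a C 0 + a C 1 + a C 2 + a C 3 + a C 4) =
        F.count C * a C 0 + F.count C * a C 1 + F.count C * a C 2 + F.count C * a C 3 +
          F.count C * a C 4 := by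
      intro C _
      ring
    rw [Finset.sum_congr rfl h3, Finset.sum_add_distrib, Finset.sum_add_distrib,
      Finset.sum_add_distrib, Finset.sum_add_distrib, ← h1, ← h1, ← h1, ← h1, ← h1,
      hrim 0 (by decide), hrim 1 (by decide), hrim 2 (by decide), hrim 3 (by decide),
      hrim 4 (by decide)]
  have h3 : Even (∑ C : Finset E, F.count C * (a C 0 + a C 1 + a C 2 + a C 3 + a C 4)) := by
    apply Finset.even_sum
    intro C _
    by_cases h4 : F.count C = 0
    · rw [h4, zero_mul]; exact Even.zero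
    · exact (hev C h4).mul_left _
  rw [← h2] at h3
  obtain ⟨k, hk⟩ := hK
  obtain ⟨l, hl⟩ := h3
  omega

end Pool.Agent.H88.Pet
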