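import Pool.Agent.H88.God.Pet2

set_option autoImplicit false
set_option linter.unusedSectionVars false

/-!
Weights without faithful circuit covers on graphs which can be contracted to the Petersen graph.
-/

namespace Pool.Agent.H88.Pet

open Finset
open Pool.Agent.Helper879.ECD (F2 IsFlow f2_add_self f2_cases cn)
open Pool.Agent.H126R2.CDC (MGraph IsFl isFl_iff)
open Pool.Agent.H126R2.NC
open Pool.Agent.H655R2.GOD
open Pool.Agent.H88.God

variable {V E : Type} [Fintype V] [DecidableEq V] [Fintype E] [DecidableEq E]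

lemma even_of_flow (G : MGraph V E) (v : E × Bool → V)
    (hv : ∀ e, G.ends e = s(v (e, false), v (e, true))) (w : E → ℕ) (x : E → F2)
    (hx : IsFlow (fun e => v (e, false)) (fun e => v (e, true)) x)
    (hw : ∀ e, (w e : F2) = x e) (X : Finset V) : Even (∑ e ∈ cut G X, w e) := by
  rw [← ZMod.natCast_eq_zero_iff_even]
  have h1 := hx (fun w => if w ∈ X then 1 else 0)
  refine Eq.trans ?_ h1
  rw [Nat.cast_sum]
  have h2 : ∑ e ∈ cut G X, ((w e : ℕ) : F2) =
      ∑ e : E, (if e ∈ cut G X then x e else 0) := by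
    rw [← Finset.sum_filter]
    have h3 : univ.filter (fun e => e ∈ cut G X) = cut G X := by
      ext e
      simp
    rw [h3]
    exact Finset.sum_congr rfl (fun e _ => hw e)
  rw [h2]
  apply Finset.sum_congr rfl
  intro e _
  have h3 := mem_cut G v hv X e
  by_cases h4 : v (e, false) ∈ X <;> by_cases h5 : v (e, true) ∈ X
  · rw [if_neg (fun h => (h3.1 h) ⟨fun _ => h5, fun _ => h4⟩), if_pos h4, if_pos h5, f2_add_self,
      mul_zero]
  · rw [if_pos (h3.2 (fun h => h5 (h.1 h4))), if_pos h4, if_neg h5, add_zero, mul_one]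
  · rw [if_pos (h3.2 (fun h => h4 (h.2 h5))), if_neg h4, if_pos h5, zero_add, mul_one]
  · rw [if_neg (fun h => (h3.1 h) ⟨fun h => absurd h h4, fun h => absurd h h5⟩), if_neg h4,
      if_neg h5, add_zero, mul_zero]

/-- a flow with the value one on one edge over every rim edge and zero on all other edges outside
the fibres -/
lemma exists_rim_flow (G : MGraph V E) (φ : V → Fin 10) (hc : Contr G φ) (v : E × Bool → V)
    (hv : ∀ e, G.ends e = s(v (e, false), v (e, true))) (r : Fin 15 → E)
    (hr : ∀ ε, Sym2.map φ (G.ends (r ε)) = pe ε) :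
    ∃ x : E → F2, IsFlow (fun e => v (e, false)) (fun e => v (e, true)) x ∧
      (∀ ε : Fin 15, ε.1 < 10 → x (r ε) = 1) ∧
      ∀ e, ¬ (Sym2.map φ (G.ends e)).IsDiag → (∀ ε : Fin 15, ε.1 < 10 → e ≠ r ε) → x e = 0 := by
  classical
  have hinj : Function.Injective r := by
    intro ε δ h
    apply pe_inj
    rw [← hr ε, ← hr δ, h]
  have hnd : ∀ ε, ¬ (Sym2.map φ (G.ends (r ε))).IsDiag := by
    intro ε h
    rw [hr ε] at h
    exact petAB ε h
  obtain ⟨x, hx1, hx2⟩ := ext_flow (fun e => v (e, false)) (fun e => v (e, true))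
    (univ.filter (fun e => ¬ (Sym2.map φ (G.ends e)).IsDiag))
    (fun e => if ∃ ε : Fin 15, ε.1 < 10 ∧ e = r ε then 1 else 0) (by
      intro c hcc
      -- `c` is constant on the fibres
      have hconst : ∀ u u' : V, φ u = φ u' → c u = 1 → c u' = 1 := by
        intro u u' huu hu
        by_contra hu'
        have h1 := hc.conn (univ.filter (fun y => c y = 1)) ⟨u, u', huu, by simp [hu], by simp [hu']⟩
        obtain ⟨e, he⟩ := Finset.card_pos.1 (by omega : 0 < ((cut G (univ.filter
          (fun y => c y = 1))).filter (fun e => (Sym2.map φ (G.ends e)).IsDiag)).card)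
        rw [Finset.mem_filter, mem_cut G v hv] at he
        have h2 := hcc e (by simp [he.2])
        apply he.1
        simp only [Finset.mem_filter, Finset.mem_univ, true_and]
        rcases f2_cases (c (v (e, false))) with h3 | h3 <;>
          rcases f2_cases (c (v (e, true))) with h4 | h4
        · rw [h3, h4]
        · rw [h3, h4] at h2
          exact absurd h2 (by decide)
        · rw [h3, h4] at h2
          exact absurd h2 (by decide)
        · rw [h3, h4]
      let S : Fin 10 → Bool := fun y => decide (∃ u, φ u = y ∧ c u = 1)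
      have hS : ∀ u, S (φ u) = true ↔ c u = 1 := by
        intro u
        simp only [S, decide_eq_true_eq]
        exact ⟨fun ⟨u', h1, h2⟩ => hconst u' u h1 h2, fun h => ⟨u, rfl, h⟩⟩
      have h1 : ∑ e ∈ univ.filter (fun e => ¬ (Sym2.map φ (G.ends e)).IsDiag),
          (if ∃ ε : Fin 15, ε.1 < 10 ∧ e = r ε then (1 : F2) else 0) *
            (c (v (e, false)) + c (v (e, true))) =
          ∑ e ∈ (univ.filter (fun ε : Fin 15 => ε.1 < 10)).image r,
            (c (v (e, false)) + c (v (e, true))) := by
        symm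
        have h2 : (univ.filter (fun ε : Fin 15 => ε.1 < 10)).image r ⊆
            univ.filter (fun e => ¬ (Sym2.map φ (G.ends e)).IsDiag) := by
          intro e he
          obtain ⟨ε, -, rfl⟩ := Finset.mem_image.1 he
          exact Finset.mem_filter.2 ⟨Finset.mem_univ _, hnd ε⟩
        rw [← Finset.sum_subset h2 (fun e _ he => ?_)]
        · apply Finset.sum_congr rfl
          intro e he
          obtain ⟨ε, hε, rfl⟩ := Finset.mem_image.1 he
          rw [if_pos ⟨ε, (Finset.mem_filter.1 hε).2, rfl⟩, one_mul]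
        · rw [if_neg, zero_mul]
          rintro ⟨ε, h3, rfl⟩
          exact he (Finset.mem_image_of_mem _ (Finset.mem_filter.2 ⟨Finset.mem_univ _, h3⟩))
      rw [h1, Finset.sum_image (fun ε _ δ _ h => hinj h)]
      have h2 : ∀ ε ∈ univ.filter (fun ε : Fin 15 => ε.1 < 10),
          c (v (r ε, false)) + c (v (r ε, true)) =
            (((if S (petA ε) ≠ S (petB ε) then 1 else 0 : ℕ)) : F2) := by
        intro ε _
        have h3 : s(φ (v (r ε, false)), φ (v (r ε, true))) = s(petA ε, petB ε) := by
          rw [← Sym2.map_mk, ← hv]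
          exact hr ε
        have h4 : ∀ u, c u = if S (φ u) = true then 1 else 0 := by
          intro u
          by_cases h5 : c u = 1
          · rw [if_pos ((hS u).2 h5), h5]
          · rw [if_neg (fun h => h5 ((hS u).1 h))]
            exact (f2_cases (c u)).resolve_right h5
        rw [h4 (v (r ε, false)), h4 (v (r ε, true))]
        rcases Sym2.eq_iff.1 h3 with ⟨h5, h6⟩ | ⟨h5, h6⟩
        · rw [h5, h6]
          cases S (petA ε) <;> cases S (petB ε) <;> decide
        · rw [h5, h6]
          cases S (petA ε) <;> cases S (petB ε) <;> decide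
      rw [Finset.sum_congr rfl h2, ← Nat.cast_sum, ← Finset.card_filter, Finset.filter_filter,
        ZMod.natCast_eq_zero_iff_even]
      exact cross_even S)
  refine ⟨x, hx1, ?_, ?_⟩
  · intro ε hε
    rw [hx2 (r ε) (by simp [hnd ε])]
    exact if_pos ⟨ε, hε, rfl⟩
  · intro e he1 he2
    rw [hx2 e (by simp [he1])]
    apply if_neg
    rintro ⟨ε, h1, h2⟩
    exact he2 ε h1 h2

/-- Graphs which can be contracted to the Petersen graph. -/
theorem exists_weight (G : MGraph V E) (φ : V → Fin 10) (hc : Contr G φ) (m : ℕ) :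
    ∃ w : E → ℕ, (∀ e, m ≤ w e) ∧ (∀ X : Finset V, Even (∑ e ∈ cut G X, w e)) ∧
      (∀ X : Finset V, ∀ e ∈ cut G X, 2 * w e ≤ ∑ f ∈ cut G X, w f) ∧
      ¬ ∃ F : Multiset (Finset E), (∀ C ∈ F, G.IsCircuit C) ∧
        ∀ e, F.countP (fun C => e ∈ C) = w e := by
  classical
  obtain ⟨v, hv⟩ := G.exists_halves
  choose r hr using hc.onto
  obtain ⟨x, hx1, hx2, hx3⟩ := exists_rim_flow G φ hc v hv r hr
  have hrf : ∀ ε, r ε ∈ fib G φ ε := fun ε => Finset.mem_filter.2 ⟨Finset.mem_univ _, hr ε⟩
  have hnd : ∀ ε, ∀ e ∈ fib G φ ε, ¬ (Sym2.map φ (G.ends e)).IsDiag := by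
    intro ε e he h
    rw [(Finset.mem_filter.1 he).2] at h
    exact petAB ε h
  let ty : E → Fin 15 := fun e => if h : ∃ ε, Sym2.map φ (G.ends e) = pe ε then h.choose else 0
  have hty : ∀ ε, ∀ e ∈ fib G φ ε, ty e = ε := by
    intro ε e he
    have h1 : ∃ ε, Sym2.map φ (G.ends e) = pe ε := ⟨ε, (Finset.mem_filter.1 he).2⟩
    have h2 : ty e = h1.choose := dif_pos h1
    rw [h2]
    apply pe_inj
    rw [← h1.choose_spec, (Finset.mem_filter.1 he).2]
  let n : Fin 15 → ℕ := fun ε => (fib G φ ε).card
  have hn1 : ∀ ε, 1 ≤ n ε := fun ε => Finset.card_pos.2 ⟨_, hrf ε⟩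
  have hn2 : ∀ ε, n ε ≤ Fintype.card E := fun ε => Finset.card_le_univ _
  let L : ℕ := Fintype.card E
  let K : ℕ := 2 * (m * L) + 1
  let B : ℕ := 2 * (2 * K + 2 * (m * L))
  let c1 : Fin 15 → ℕ := fun ε =>
    if ε.1 < 10 then K - 2 * (m * (n ε - 1)) else 2 * K + 2 * (m * (n ε - 1))
  have hmn : ∀ ε, m * (n ε - 1) + m ≤ m * L := by
    intro ε
    have h1 := hn1 ε
    have h2 := hn2 ε
    calc m * (n ε - 1) + m = m * (n ε - 1 + 1) := by ring
      _ ≤ m * L := Nat.mul_le_mul_left _ (by omega)
  let w : E → ℕ := fun e =>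
    if (Sym2.map φ (G.ends e)).IsDiag then B + (x e).val else
      if e = r (ty e) then c1 (ty e) else 2 * m
  have hwd : ∀ e, (Sym2.map φ (G.ends e)).IsDiag → w e = B + (x e).val := fun e h => if_pos h
  have hwf : ∀ ε, ∀ e ∈ fib G φ ε, w e = if e = r ε then c1 ε else 2 * m := by
    intro ε e he
    simp only [w]
    rw [if_neg (hnd ε e he), hty ε e he]
  have hval : ∀ e, (x e).val ≤ 1 := by
    intro e
    rcases f2_cases (x e) with h | h <;> rw [h] <;> decide
  have hc1 : ∀ ε, c1 ε ≤ 2 * K + 2 * (m * L) := by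
    intro ε
    have := hmn ε
    simp only [c1]
    split_ifs <;> omega
  have hwB : ∀ ε, ∀ e ∈ fib G φ ε, 2 * w e ≤ B := by
    intro ε e he
    rw [hwf ε e he]
    have h1 := hc1 ε
    have h2 := hmn ε
    simp only [B]
    split_ifs <;> omega
  have hsum : ∀ ε, ∑ e ∈ fib G φ ε, w e = c1 ε + 2 * (m * (n ε - 1)) := by
    intro ε
    rw [← Finset.add_sum_erase _ _ (hrf ε), hwf ε _ (hrf ε), if_pos rfl]
    congr 1
    have h1 : ∀ e ∈ (fib G φ ε).erase (r ε), w e = 2 * m := by
      intro e he
      rw [Finset.mem_erase] at he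
      rw [hwf ε e he.2, if_neg he.1]
    rw [Finset.sum_congr rfl h1, Finset.sum_const, Finset.card_erase_of_mem (hrf ε), smul_eq_mul]
    ring
  have hWr : ∀ ε : Fin 15, ε.1 < 10 → ∑ e ∈ fib G φ ε, w e = K := by
    intro ε hε
    rw [hsum ε]
    have := hmn ε
    simp only [c1, if_pos hε, K]
    omega
  have hWs : ∀ ε : Fin 15, ¬ ε.1 < 10 → ∑ e ∈ fib G φ ε, w e = 2 * K + 4 * (m * (n ε - 1)) := by
    intro ε hε
    rw [hsum ε]
    simp only [c1, if_neg hε]
    omega
  have hWge : ∀ ε : Fin 15, K ≤ ∑ e ∈ fib G φ ε, w e := by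
    intro ε
    by_cases hε : ε.1 < 10
    · rw [hWr ε hε]
    · rw [hWs ε hε]; omega
  -- parity
  have heul : ∀ X : Finset V, Even (∑ e ∈ cut G X, w e) := by
    apply even_of_flow G v hv w x hx1
    intro e
    rcases hc.ends e with hd | ⟨ε, hε⟩
    · rw [hwd e hd]
      have hB : ((B : ℕ) : F2) = 0 := by
        rw [ZMod.natCast_eq_zero_iff_even]
        exact even_two_mul _
      rw [Nat.cast_add, hB, zero_add, ZMod.natCast_val, ZMod.cast_id]
    · have he : e ∈ fib G φ ε := Finset.mem_filter.2 ⟨Finset.mem_univ _, hε⟩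
      rw [hwf ε e he]
      by_cases her : e = r ε
      · rw [if_pos her]
        by_cases hε10 : ε.1 < 10
        · rw [her, hx2 ε hε10]
          have h1 : c1 ε % 2 = 1 := by
            have := hmn ε
            simp only [c1, if_pos hε10, K]
            omega
          rw [← ZMod.natCast_mod, h1]
          rfl
        · have h1 : c1 ε % 2 = 0 := by
            simp only [c1, if_neg hε10]
            omega
          rw [← ZMod.natCast_mod, h1]
          symm
          apply hx3 e (hnd ε e he)
          intro δ hδ hed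
          apply hε10
          have h2 : ε = δ := by
            apply pe_inj
            rw [← hε, hed, hr δ]
          rw [h2]; exact hδ
      · rw [if_neg her]
        have h1 : (((2 * m : ℕ)) : F2) = 0 := by
          rw [ZMod.natCast_eq_zero_iff_even]
          exact even_two_mul _
        rw [h1]
        symm
        apply hx3 e (hnd ε e he)
        intro δ hδ hed
        apply her
        have h2 : ε = δ := by
          apply pe_inj
          rw [← hε, hed, hr δ]
        rw [hed, h2]
  refine ⟨w, ?_, heul, ?_, ?_⟩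
  · intro e
    rcases hc.ends e with hd | ⟨ε, hε⟩
    · rw [hwd e hd]
      have h1 : m ≤ m * L := Nat.le_mul_of_pos_right m (Fintype.card_pos_iff.2 ⟨e⟩)
      simp only [B]
      omega
    · have he : e ∈ fib G φ ε := Finset.mem_filter.2 ⟨Finset.mem_univ _, hε⟩
      rw [hwf ε e he]
      have := hmn ε
      by_cases her : e = r ε
      · rw [if_pos her]
        simp only [c1, K]
        split_ifs <;> omega
      · rw [if_neg her]; omega
  · intro X e he
    by_cases hsplit : ∃ u u', φ u = φ u' ∧ u ∈ X ∧ u' ∉ X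
    · -- two edges inside a fibre
      have h1 := hc.conn X hsplit
      have h2 : ∀ D ⊆ (cut G X).filter (fun e => (Sym2.map φ (G.ends e)).IsDiag),
          D.card * B ≤ ∑ f ∈ D, w f := by
        intro D hD
        rw [← smul_eq_mul, ← Finset.sum_const]
        apply Finset.sum_le_sum
        intro f hf
        rw [hwd f (Finset.mem_filter.1 (hD hf)).2]
        omega
      have hle : ∀ D ⊆ cut G X, ∑ f ∈ D, w f ≤ ∑ f ∈ cut G X, w f := fun D hD =>
        Finset.sum_le_sum_of_subset hD
      rcases hc.ends e with hd | ⟨ε, hε⟩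
      · -- `e` inside a fibre
        have hmem : e ∈ (cut G X).filter (fun e => (Sym2.map φ (G.ends e)).IsDiag) :=
          Finset.mem_filter.2 ⟨he, hd⟩
        have h3 := h2 (((cut G X).filter (fun e => (Sym2.map φ (G.ends e)).IsDiag)).erase e)
          (Finset.erase_subset _ _)
        rw [Finset.card_erase_of_mem hmem] at h3
        have h4 := hle _ (Finset.filter_subset (fun e => (Sym2.map φ (G.ends e)).IsDiag) (cut G X))
        rw [← Finset.add_sum_erase _ _ hmem] at h4
        have h5 : 1 * B ≤ (((cut G X).filter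
            (fun e => (Sym2.map φ (G.ends e)).IsDiag)).card - 1) * B :=
          Nat.mul_le_mul_right _ (by omega)
        have h6 := heul X
        have h7 := hwd e hd
        have h8 := hval e
        obtain ⟨l, hl⟩ := h6
        have h9 : B = 2 * (2 * K + 2 * (m * L)) := rfl
        omega
      · have hef : e ∈ fib G φ ε := Finset.mem_filter.2 ⟨Finset.mem_univ _, hε⟩
        have h3 := h2 _ (subset_refl _)
        have h4 := hle _ (Finset.filter_subset (fun e => (Sym2.map φ (G.ends e)).IsDiag) (cut G X))
        have h5 : 1 * B ≤ ((cut G X).filter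
            (fun e => (Sym2.map φ (G.ends e)).IsDiag)).card * B :=
          Nat.mul_le_mul_right _ (by omega)
        have h6 := hwB ε e hef
        omega
    · -- a union of fibres
      push Not at hsplit
      let S : Fin 10 → Bool := fun y => decide (∃ u, φ u = y ∧ u ∈ X)
      have hS : ∀ u, u ∈ X ↔ S (φ u) = true := by
        intro u
        simp only [S, decide_eq_true_eq]
        exact ⟨fun h => ⟨u, rfl, h⟩, fun ⟨u', h1, h2⟩ => hsplit u' u h1 h2⟩
      have hcs := sum_cut_fib G φ hc.ends X S hS w
      -- `e` is not inside a fibre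
      have hex : ∃ ε, e ∈ fib G φ ε ∧ S (petA ε) ≠ S (petB ε) := by
        have h1 := (mem_cut G v hv X e).1 he
        have hends : Sym2.map φ (G.ends e) = s(φ (v (e, false)), φ (v (e, true))) := by
          rw [hv e, Sym2.map_mk]
        rcases hc.ends e with hd | ⟨ε, hε⟩
        · exfalso
          apply h1
          rw [hends] at hd
          have h2 : φ (v (e, false)) = φ (v (e, true)) := hd
          rw [hS, hS, h2]
        · refine ⟨ε, Finset.mem_filter.2 ⟨Finset.mem_univ _, hε⟩, ?_⟩
          rw [hends] at hε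
          unfold pe at hε
          rw [hS, hS] at h1
          rcases Sym2.eq_iff.1 hε with ⟨h5, h6⟩ | ⟨h5, h6⟩
          · rw [h5, h6] at h1
            intro h7
            exact h1 (by rw [h7])
          · rw [h5, h6] at h1
            intro h7
            exact h1 (by rw [h7])
      obtain ⟨ε, heε, hεS⟩ := hex
      have hsub : ∀ D : Finset (Fin 15), (∀ δ ∈ D, S (petA δ) ≠ S (petB δ)) →
          ∑ δ ∈ D, ∑ f ∈ fib G φ δ, w f ≤ ∑ f ∈ cut G X, w f := by
        intro D hD
        rw [hcs]
        refine le_trans (le_of_eq ?_) (Finset.sum_le_sum_of_subset (Finset.subset_univ D))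
        apply Finset.sum_congr rfl
        intro δ hδ
        rw [if_pos (hD δ hδ)]
      by_cases hε10 : ε.1 < 10
      · obtain ⟨δ, hδ1, hδ2⟩ := cross_rim S ε hε10 hεS
        have h1 := hsub {δ, ε} (by
          intro δ' hδ'
          rw [Finset.mem_insert, Finset.mem_singleton] at hδ'
          rcases hδ' with h | h <;> rw [h]
          · exact hδ2
          · exact hεS)
        rw [Finset.sum_pair hδ1] at h1
        have h2 := hWge δ
        have h3 := hWge ε
        have h4 : w e ≤ K := by
          have h5 := Finset.single_le_sum (f := w) (fun _ _ => Nat.zero_le _) heε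
          rw [hWr ε hε10] at h5
          exact h5
        omega
      · have h5 : 2 * w e ≤ 4 * K + 4 * (m * (n ε - 1)) := by
          rw [hwf ε e heε]
          simp only [c1, if_neg hε10]
          have := hmn ε
          split_ifs <;> omega
        rcases cross_spoke S ε hε10 hεS with ⟨δ, hδ1, hδ3, hδ2⟩ | ⟨δ, δ', hd1, hd2, hd3, hd4, hd5⟩
        · have h1 := hsub {δ, ε} (by
            intro δ' hδ'
            rw [Finset.mem_insert, Finset.mem_singleton] at hδ'
            rcases hδ' with h | h <;> rw [h]
            · exact hδ2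
            · exact hεS)
          rw [Finset.sum_pair hδ1, hWs ε hε10, hWs δ hδ3] at h1
          omega
        · have hne1 : δ ≠ ε := fun h => hε10 (h ▸ hd1)
          have hne2 : δ' ≠ ε := fun h => hε10 (h ▸ hd2)
          have h1 := hsub {δ, δ', ε} (by
            intro δ'' hδ''
            rw [Finset.mem_insert, Finset.mem_insert, Finset.mem_singleton] at hδ''
            rcases hδ'' with h | h | h <;> rw [h]
            · exact hd4
            · exact hd5
            · exact hεS)
          rw [Finset.sum_insert (by simp [hd3, hne1]), Finset.sum_pair hne2, hWs ε hε10,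
            hWr δ hd1, hWr δ' hd2] at h1
          omega
  · apply no_cover G φ hc.ends w r hrf K ⟨m * L, rfl⟩ hWr
    intro ε hε
    rw [hWs ε hε, hwf ε _ (hrf ε), if_pos rfl]
    simp only [c1, if_neg hε]
    ring

end Pool.Agent.H88.Pet
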