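import Pool.Agent.H88.God.Pet3

set_option autoImplicit false
set_option linter.unusedSectionVars false

/-!
Highly edge-connected simple graphs which can be contracted to the Petersen graph.
-/

namespace Pool.Agent.H88.Pet

open Finset
open Pool.Agent.H126R2.CDC (MGraph)
open Pool.Agent.H655R2.GOD

/-- the pairs of adjacent vertices of the lexicographic product of the Petersen graph and the
complete graph with `s` vertices -/
def Adj10 (s : ℕ) (z : Sym2 (Fin 10 × Fin s)) : Prop :=
  ¬ z.IsDiag ∧ ((Sym2.map Prod.fst z).IsDiag ∨ ∃ ε, Sym2.map Prod.fst z = pe ε)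

/-- the lexicographic product -/
def lexG (s : ℕ) : MGraph (Fin 10 × Fin s) {z : Sym2 (Fin 10 × Fin s) // Adj10 s z} :=
  ⟨Subtype.val⟩

lemma cross_exists : ∀ f : Fin 10 → Bool, (∃ x, f x = true) → (∃ x, f x = false) →
    ∃ ε : Fin 15, f (petA ε) ≠ f (petB ε) := by
  decide +kernel

open Classical in
/-- many edges of a cut inside a fibre -/
lemma lex_inside (s : ℕ) (X : Finset (Fin 10 × Fin s)) (a : Fin 10) (i j : Fin s)
    (hi : (a, i) ∈ X) (hj : (a, j) ∉ X) :
    s - 1 ≤ ((cut (lexG s) X).filter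
      (fun e => (Sym2.map Prod.fst ((lexG s).ends e)).IsDiag)).card := by
  have hij : i ≠ j := by
    intro h
    rw [h] at hi
    exact hj hi
  -- the edge of `k`
  have hadj : ∀ k l : Fin s, k ≠ l → Adj10 s s((a, k), (a, l)) := by
    intro k l hkl
    refine ⟨?_, Or.inl ?_⟩
    · intro h
      have h1 : (a, k) = (a, l) := h
      exact hkl (Prod.mk.inj h1).2
    · show (s(a, a) : Sym2 (Fin 10)).IsDiag
      rfl
  have hk : ∀ k : Fin s, k ∈ univ.erase j → (if (a, k) ∈ X then k else i) ≠
      (if (a, k) ∈ X then j else k) := by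
    intro k hk
    rw [Finset.mem_erase] at hk
    by_cases h : (a, k) ∈ X
    · rw [if_pos h, if_pos h]; exact hk.1
    · rw [if_neg h, if_neg h]
      intro h1
      rw [← h1] at h
      exact h hi
  let g : (k : Fin s) → k ∈ univ.erase j → {z : Sym2 (Fin 10 × Fin s) // Adj10 s z} :=
    fun k h => ⟨s((a, if (a, k) ∈ X then k else i), (a, if (a, k) ∈ X then j else k)),
      hadj _ _ (hk k h)⟩
  have hcard : (univ.erase j : Finset (Fin s)).card = s - 1 := by
    rw [Finset.card_erase_of_mem (Finset.mem_univ j), Finset.card_univ, Fintype.card_fin]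
  rw [← hcard]
  apply Finset.card_le_card_of_injOn (fun k => if h : k ∈ univ.erase j then g k h else
    ⟨s((a, i), (a, j)), hadj i j hij⟩)
  · intro k hk1
    have hk2 : k ∈ univ.erase j := hk1
    rw [Finset.mem_coe, Finset.mem_filter]
    simp only [dif_pos hk2, g]
    constructor
    · unfold cut
      rw [Finset.mem_filter]
      refine ⟨Finset.mem_univ _, ?_, ?_⟩
      · by_cases h : (a, k) ∈ X
        · refine ⟨(a, k), ?_, h⟩
          show (a, k) ∈ s((a, if (a, k) ∈ X then k else i), (a, if (a, k) ∈ X then j else k))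
          rw [if_pos h]; exact Sym2.mem_mk_left _ _
        · refine ⟨(a, i), ?_, hi⟩
          show (a, i) ∈ s((a, if (a, k) ∈ X then k else i), (a, if (a, k) ∈ X then j else k))
          rw [if_neg h]; exact Sym2.mem_mk_left _ _
      · by_cases h : (a, k) ∈ X
        · refine ⟨(a, j), ?_, hj⟩
          show (a, j) ∈ s((a, if (a, k) ∈ X then k else i), (a, if (a, k) ∈ X then j else k))
          rw [if_pos h, if_pos h]; exact Sym2.mem_mk_right _ _
        · refine ⟨(a, k), ?_, h⟩
          show (a, k) ∈ s((a, if (a, k) ∈ X then k else i), (a, if (a, k) ∈ X then j else k))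
          rw [if_neg h, if_neg h]; exact Sym2.mem_mk_right _ _
    · show (s(a, a) : Sym2 (Fin 10)).IsDiag
      rfl
  · intro k hk1 l hl1 hkl
    have hk2 : k ∈ univ.erase j := hk1
    have hl2 : l ∈ univ.erase j := hl1
    simp only [dif_pos hk2, dif_pos hl2, g, Subtype.mk.injEq] at hkl
    rw [Finset.mem_erase] at hk2 hl2
    by_cases h1 : (a, k) ∈ X <;> by_cases h2 : (a, l) ∈ X <;>
      simp only [h1, h2, if_true, if_false, Sym2.eq_iff, Prod.mk.injEq, true_and] at hkl
    · rcases hkl with h | h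
      · exact h.1
      · exact absurd h.1 hk2.1
    · rcases hkl with h | h
      · exact absurd h.2.symm hl2.1
      · rw [h.1] at h1; exact absurd h1 h2
    · rcases hkl with h | h
      · exact absurd h.2 hk2.1
      · rw [h.2] at h1; exact absurd h2 h1
    · rcases hkl with h | h
      · exact h
      · rw [h.2] at h1; exact absurd hi h1

open Classical in
lemma lex_contr (s : ℕ) (hs : 3 ≤ s) : Contr (lexG s) Prod.fst := by
  refine ⟨fun e => e.2.2, fun ε => ?_, ?_⟩
  · refine ⟨⟨s((petA ε, ⟨0, by omega⟩), (petB ε, ⟨0, by omega⟩)), ?_, Or.inr ⟨ε, rfl⟩⟩, rfl⟩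
    intro h
    have h1 : ((petA ε, ⟨0, by omega⟩) : Fin 10 × Fin s) = (petB ε, ⟨0, by omega⟩) := h
    exact petAB ε (Prod.mk.inj h1).1
  · rintro X ⟨⟨a, i⟩, ⟨b, j⟩, hab, hi, hj⟩
    have hab' : a = b := hab
    subst hab'
    have h1 := lex_inside s X a i j hi hj
    refine le_trans (by omega) (h1.trans (le_of_eq ?_))
    congr

open Classical in
lemma lex_cuts (s : ℕ) (X : Finset (Fin 10 × Fin s)) (h1 : X.Nonempty) (h2 : X ≠ univ) :
    s - 1 ≤ (cut (lexG s) X).card := by
  by_cases hsplit : ∃ u u' : Fin 10 × Fin s, u.1 = u'.1 ∧ u ∈ X ∧ u' ∉ X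
  · obtain ⟨⟨a, i⟩, ⟨b, j⟩, hab, hi, hj⟩ := hsplit
    have hab' : a = b := hab
    subst hab'
    exact (lex_inside s X a i j hi hj).trans (Finset.card_le_card (Finset.filter_subset _ _))
  · push Not at hsplit
    let S : Fin 10 → Bool := fun y => decide (∃ u : Fin 10 × Fin s, u.1 = y ∧ u ∈ X)
    have hS : ∀ u : Fin 10 × Fin s, u ∈ X ↔ S u.1 = true := by
      intro u
      simp only [S, decide_eq_true_eq]
      exact ⟨fun h => ⟨u, rfl, h⟩, fun ⟨u', h1, h2⟩ => hsplit u' u h1 h2⟩
    obtain ⟨x0, hx0⟩ := h1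
    obtain ⟨y0, hy0⟩ : ∃ y, y ∉ X := by
      by_contra hcon
      push Not at hcon
      exact h2 (Finset.eq_univ_of_forall hcon)
    obtain ⟨ε, hε⟩ := cross_exists S ⟨x0.1, (hS x0).1 hx0⟩ ⟨y0.1, by
      rw [← Bool.not_eq_true]
      exact fun h => hy0 ((hS y0).2 h)⟩
    have hadj : ∀ i : Fin s, Adj10 s s((petA ε, i), (petB ε, i)) := by
      intro i
      refine ⟨?_, Or.inr ⟨ε, rfl⟩⟩
      intro h
      have h1 : (petA ε, i) = (petB ε, i) := h
      exact petAB ε (Prod.mk.inj h1).1
    have hle : s ≤ (cut (lexG s) X).card := by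
      conv_lhs => rw [← Fintype.card_fin s, ← Finset.card_univ]
      apply Finset.card_le_card_of_injOn
        (fun i => (⟨s((petA ε, i), (petB ε, i)), hadj i⟩ : {z // Adj10 s z}))
      · intro i _
        rw [Finset.mem_coe]
        unfold cut
        rw [Finset.mem_filter]
        have hA := hS (petA ε, i)
        have hB := hS (petB ε, i)
        refine ⟨Finset.mem_univ _, ?_⟩
        show (∃ v ∈ s((petA ε, i), (petB ε, i)), v ∈ X) ∧
          ∃ v ∈ s((petA ε, i), (petB ε, i)), v ∉ X
        by_cases h3 : (petA ε, i) ∈ X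
        · refine ⟨⟨_, Sym2.mem_mk_left _ _, h3⟩, ⟨_, Sym2.mem_mk_right _ _, ?_⟩⟩
          intro h4
          exact hε ((hA.1 h3).trans (hB.1 h4).symm)
        · refine ⟨⟨_, Sym2.mem_mk_right _ _, ?_⟩, ⟨_, Sym2.mem_mk_left _ _, h3⟩⟩
          rw [hB]
          have h5 : S (petA ε) = false := by
            rw [← Bool.not_eq_true]
            exact fun h => h3 (hA.2 h)
          rw [h5] at hε
          cases h6 : S (petB ε)
          · exact absurd h6.symm hε
          · rfl
      · intro i _ j _ hij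
        simp only [Subtype.mk.injEq, Sym2.eq_iff, Prod.mk.injEq, true_and] at hij
        rcases hij with h | h
        · exact h.2
        · exact absurd h.1.1 (petAB ε)
    omega

end Pool.Agent.H88.Pet
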