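import Pool.Agent.H88.God.Kom

set_option autoImplicit false
set_option linter.unusedSectionVars false

/-!
Simple graphs: `N` of the order of the square root of the number of vertices.
-/

namespace Pool.Agent.H88.God

open Finset
open Pool.Agent.Helper879.ECD (F2 IsFlow f2_add_self f2_cases cn)
open Pool.Agent.H126R2.CDC (MGraph IsFl isFl_iff)
open Pool.Agent.H126R2.NC
open Pool.Agent.H655R2.GOD

lemma kap_simple (n m : ℕ) (hn : 1 ≤ n) (hm : m ≤ n ^ 2) : kap n m ≤ 40 * Real.sqrt n := by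
  have hnR : (1 : ℝ) ≤ n := by exact_mod_cast hn
  have hn0 : (0 : ℝ) < n := by linarith
  set x : ℝ := (n : ℝ) ^ (1 / 4 : ℝ) with hx
  have hx1 : 1 ≤ x := Real.one_le_rpow hnR (by norm_num)
  have hx0 : 0 ≤ x := by linarith
  have hx4 : x ^ 4 = n := by
    rw [hx, ← Real.rpow_natCast, ← Real.rpow_mul hn0.le]
    norm_num
  have hlog : Real.log n ≤ 4 * x := by
    have h1 := Real.log_le_rpow_div hn0.le (show (0 : ℝ) < 1 / 4 by norm_num)
    rw [← hx] at h1
    linarith
  have hlog0 : 0 ≤ Real.log n := Real.log_nonneg hnR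
  have hlogm : Real.log (1 + m) ≤ 9 * x := by
    have h1 : (m : ℝ) ≤ n ^ 2 := by exact_mod_cast hm
    have h2 : (1 : ℝ) + m ≤ 2 * (n : ℝ) ^ 2 := by nlinarith
    have h3 : Real.log (1 + m) ≤ Real.log (2 * (n : ℝ) ^ 2) :=
      Real.log_le_log (by positivity) h2
    rw [Real.log_mul (by norm_num) (by positivity), Real.log_pow] at h3
    have h4 := Real.log_two_lt_d9
    push_cast at h3
    linarith
  have hlogm0 : 0 ≤ Real.log (1 + (m : ℝ)) := by
    apply Real.log_nonneg
    have : (0 : ℝ) ≤ m := Nat.cast_nonneg m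
    linarith
  have hsq : Real.sqrt n = x ^ 2 := by
    rw [← hx4, show x ^ 4 = (x ^ 2) ^ 2 by ring, Real.sqrt_sq (by positivity)]
  -- the square of the second term
  have h1 : (1 + Real.log n) ^ (3 / 2 : ℝ) ≤ (5 * x) ^ (3 / 2 : ℝ) := by
    apply Real.rpow_le_rpow (by linarith) (by linarith) (by norm_num)
  have h2 : Real.sqrt (Real.log (1 + (m : ℝ))) ≤ (9 * x) ^ (1 / 2 : ℝ) := by
    rw [← Real.sqrt_eq_rpow]
    exact Real.sqrt_le_sqrt hlogm
  have h3 : (1 + Real.log n) ^ (3 / 2 : ℝ) * Real.sqrt (Real.log (1 + (m : ℝ))) ≤ 36 * x ^ 2 := by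
    calc (1 + Real.log n) ^ (3 / 2 : ℝ) * Real.sqrt (Real.log (1 + (m : ℝ)))
        ≤ (5 * x) ^ (3 / 2 : ℝ) * (9 * x) ^ (1 / 2 : ℝ) := by
          apply mul_le_mul h1 h2 (Real.sqrt_nonneg _) (by positivity)
      _ ≤ (6 * x) ^ (3 / 2 : ℝ) * (6 * x) ^ (1 / 2 : ℝ) := by
          have e1 : (5 * x) ^ (3 / 2 : ℝ) * (9 * x) ^ (1 / 2 : ℝ) =
              (5 : ℝ) ^ (3 / 2 : ℝ) * (9 : ℝ) ^ (1 / 2 : ℝ) *
                (x ^ (3 / 2 : ℝ) * x ^ (1 / 2 : ℝ)) := by
            rw [Real.mul_rpow (by norm_num) hx0, Real.mul_rpow (by norm_num) hx0]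
            ring
          have e2 : (6 * x) ^ (3 / 2 : ℝ) * (6 * x) ^ (1 / 2 : ℝ) =
              (6 : ℝ) ^ (3 / 2 : ℝ) * (6 : ℝ) ^ (1 / 2 : ℝ) *
                (x ^ (3 / 2 : ℝ) * x ^ (1 / 2 : ℝ)) := by
            rw [Real.mul_rpow (by norm_num) hx0, Real.mul_rpow (by norm_num) hx0]
            ring
          rw [e1, e2]
          apply mul_le_mul_of_nonneg_right _ (by positivity)
          have e3 : (6 : ℝ) ^ (3 / 2 : ℝ) * (6 : ℝ) ^ (1 / 2 : ℝ) = 36 := by
            rw [← Real.rpow_add (by norm_num)]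
            norm_num
          have e4 : (5 : ℝ) ^ (3 / 2 : ℝ) * (9 : ℝ) ^ (1 / 2 : ℝ) =
              Real.sqrt ((5 : ℝ) ^ 3 * 9) := by
            rw [Real.sqrt_mul (by norm_num), Real.sqrt_eq_rpow, Real.sqrt_eq_rpow,
              ← Real.rpow_natCast, ← Real.rpow_mul (by norm_num)]
            norm_num
          rw [e3, e4]
          rw [show (36 : ℝ) = Real.sqrt (36 ^ 2) by rw [Real.sqrt_sq (by norm_num)]]
          apply Real.sqrt_le_sqrt
          norm_num
      _ = 36 * x ^ 2 := by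
          rw [← Real.rpow_add (by positivity)]
          norm_num
          ring
  unfold kap
  rw [hsq]
  nlinarith [sq_nonneg x]

lemma card_edges_le {V E : Type} [Fintype V] [DecidableEq V] [Fintype E] [DecidableEq E]
    (G : MGraph V E) (h : Function.Injective G.ends) :
    Fintype.card E ≤ Fintype.card V ^ 2 := by
  have h1 := Fintype.card_le_of_injective G.ends h
  have h2 : Fintype.card (Sym2 V) ≤ Fintype.card (V × V) :=
    Fintype.card_le_of_surjective (fun p : V × V => s(p.1, p.2)) (by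
      intro z
      induction z using Sym2.ind with
      | _ x y => exact ⟨(x, y), rfl⟩)
  rw [Fintype.card_prod] at h2
  rw [pow_two]
  exact h1.trans h2

/-- the final form -/
theorem slack_main : ∃ K : ℝ, 0 < K ∧
    (∀ (V E : Type) [Fintype V] [DecidableEq V] [Fintype E] [DecidableEq E] (G : MGraph V E),
      (∀ X : Finset V, (cut G X).card ≠ 1) → ∀ (w : E → ℕ) (L N : ℕ),
      (ShortCone G L w ∨ ((∀ X : Finset V, ∀ e ∈ cut G X, 2 * w e ≤ ∑ f ∈ cut G X, w f) ∧
        ∀ C, G.IsCircuit C → C.card ≤ L)) →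
      (∀ X : Finset V, Even (∑ e ∈ cut G X, (w e + N))) →
      K * kap L (Fintype.card E) ≤ N → InIntCone G (fun e => w e + N)) ∧
    ∀ (V E : Type) [Fintype V] [DecidableEq V] [Fintype E] [DecidableEq E] (G : MGraph V E),
      (∀ X : Finset V, (cut G X).card ≠ 1) → Function.Injective G.ends →
      ∀ (w : E → ℕ) (N : ℕ),
      (∀ X : Finset V, ∀ e ∈ cut G X, 2 * w e ≤ ∑ f ∈ cut G X, w f) →
      (∀ X : Finset V, Even (∑ e ∈ cut G X, (w e + N))) →
      K * Real.sqrt (Fintype.card V) ≤ N → InIntCone G (fun e => w e + N) := by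
  classical
  obtain ⟨K, hK, h⟩ := kap_cover
  have main : ∀ (V E : Type) [Fintype V] [DecidableEq V] [Fintype E] [DecidableEq E]
      (G : MGraph V E),
      (∀ X : Finset V, (cut G X).card ≠ 1) → ∀ (w : E → ℕ) (L N : ℕ),
      (ShortCone G L w ∨ ((∀ X : Finset V, ∀ e ∈ cut G X, 2 * w e ≤ ∑ f ∈ cut G X, w f) ∧
        ∀ C, G.IsCircuit C → C.card ≤ L)) →
      (∀ X : Finset V, Even (∑ e ∈ cut G X, (w e + N))) →
      K * kap L (Fintype.card E) ≤ N → InIntCone G (fun e => w e + N) := by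
    intro V E _ _ _ _ G hG w L N hw heul hN
    obtain ⟨v, hv⟩ := G.exists_halves
    have hs : ShortCone G L w := by
      rcases hw with hw | hw
      · exact hw
      · exact shortCone_of_adm G v hv L hw.2 w hw.1
    exact h V E G v hv (fun X => by rw [card_cut_eq G v hv]; exact hG X) w L hs N heul hN
  refine ⟨40 * K, by positivity, ?_, ?_⟩
  · intro V E _ _ _ _ G hG w L N hw heul hN
    refine main V E G hG w L N hw heul (le_trans ?_ hN)
    have := kap_nonneg L (Fintype.card E)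
    nlinarith
  · intro V E _ _ _ _ G hG hinj w N hadm heul hN
    by_cases hE : IsEmpty E
    · exact ⟨0, by simp, fun e => (hE.false e).elim⟩
    rw [not_isEmpty_iff] at hE
    have hV : 1 ≤ Fintype.card V := by
      rw [Nat.one_le_iff_ne_zero]
      intro h0
      have h1 := card_edges_le G hinj
      rw [h0] at h1
      have h2 := Fintype.card_pos_iff.2 hE
      omega
    refine main V E G hG w (Fintype.card V) N (Or.inr ⟨hadm, fun C hC => circuit_card_le G hC⟩)
      heul (le_trans ?_ hN)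
    have h1 := kap_simple (Fintype.card V) (Fintype.card E) hV (card_edges_le G hinj)
    calc K * kap (Fintype.card V) (Fintype.card E)
        ≤ K * (40 * Real.sqrt (Fintype.card V)) := mul_le_mul_of_nonneg_left h1 hK.le
      _ = 40 * K * Real.sqrt (Fintype.card V) := by ring

end Pool.Agent.H88.God
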