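import Pool.Agent.H88.God.Multi

set_option autoImplicit false
set_option linter.unusedSectionVars false

/-!
Covers from three connected spanning even subgraphs whose sum is zero.
-/

namespace Pool.Agent.H88.God

open Finset
open Pool.Agent.Helper879.ECD (F2 IsFlow f2_add_self f2_cases cn inc fnl fnl_inc)
open Pool.Agent.H126R2.CDC (MGraph IsFl isFl_iff)
open Pool.Agent.H126R2.NC
open Pool.Agent.H655R2.GOD

variable {V E : Type} [Fintype V] [DecidableEq V] [Fintype E] [DecidableEq E]

/-- any values off a spanning set extend to a flow -/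
lemma ext_spn (a b : E → V) (Φ : Finset E) (hs : Spn a b Φ) (t : E → F2) :
    ∃ x : E → F2, IsFlow a b x ∧ ∀ e, e ∉ Φ → x e = t e := by
  obtain ⟨x, hx1, hx2⟩ := ext_flow a b (univ \ Φ) t (by
    intro c hc
    apply Finset.sum_eq_zero
    intro e _
    have h1 := hs (univ.filter (fun w => c w = 1)) (by
      intro f hf hcr
      have h2 := hc f (by simp [hf])
      simp only [cr, Finset.mem_filter, Finset.mem_univ, true_and] at hcr
      rw [f2_ne] at hcr
      rw [h2] at hcr
      exact absurd hcr (by decide)) e
    have h3 : c (a e) + c (b e) = 0 := by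
      rcases f2_cases (c (a e) + c (b e)) with h4 | h4
      · exact h4
      · exfalso
        apply h1
        simp only [cr, Finset.mem_filter, Finset.mem_univ, true_and]
        rw [f2_ne]
        exact h4
    rw [h3, mul_zero])
  exact ⟨x, hx1, fun e he => hx2 e (by simp [he])⟩

/-- two even subgraphs: the edges of the flow `φ` are in exactly one of them, the other edges are
in both or in none of them as prescribed -/
lemma alpha_block (G : MGraph V E) (v : E × Bool → V)
    (hv : ∀ e, G.ends e = s(v (e, false), v (e, true))) (φ : E → F2)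
    (hφ : IsFlow (fun e => v (e, false)) (fun e => v (e, true)) φ)
    (hs : Spn (fun e => v (e, false)) (fun e => v (e, true)) (univ.filter (fun e => φ e = 1)))
    (T : Finset E) :
    InIntCone G (fun e => if φ e = 1 then 1 else if e ∈ T then 2 else 0) := by
  obtain ⟨h, hh1, hh2⟩ := ext_spn _ _ _ hs (fun e => if e ∈ T then 1 else 0)
  have h1 := add_cover G (cover_flow G v hv h hh1) (cover_flow G v hv _ (flow_add hh1 hφ))
  convert h1 using 2 with e
  rcases f2_cases (φ e) with h2 | h2
  · have h3 := hh2 e (by simp [h2])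
    rw [h2, h3]
    by_cases h4 : e ∈ T
    · simp [h4]
    · simp [h4]
  · rw [h2]
    rcases f2_cases (h e) with h3 | h3
    · rw [h3]; simp
    · rw [h3]; simp [f2_add_self]

/-- weights within a factor two -/
theorem trails_cover (G : MGraph V E) (v : E × Bool → V)
    (hv : ∀ e, G.ends e = s(v (e, false), v (e, true))) (φ : Fin 3 → E → F2)
    (hφ : ∀ i, IsFlow (fun e => v (e, false)) (fun e => v (e, true)) (φ i))
    (hs : ∀ i, Spn (fun e => v (e, false)) (fun e => v (e, true))
      (univ.filter (fun e => φ i e = 1)))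
    (hsum : ∀ e, φ 2 e = φ 0 e + φ 1 e) (q : E → ℕ) (k : ℕ) (hq : ∀ e, k ≤ q e ∧ q e ≤ 2 * k) :
    InIntCone G (fun e => 2 * q e) := by
  classical
  -- number of blocks of type `i` containing `e`
  let s : Fin 3 → E → ℕ := fun i e =>
    if φ 0 e = 0 ∧ φ 1 e = 0 then (if i = 0 then k else if i = 1 then q e - k else 0)
    else q e - k
  have hsk : ∀ i e, s i e ≤ k := by
    intro i e
    have := hq e
    simp only [s]
    split_ifs <;> omega
  have h1 := sum_cover G (univ : Finset (Fin 3)) _ (fun i _ =>
    sum_cover G (Finset.range k) _ (fun j _ => alpha_block G v hv (φ i) (hφ i) (hs i)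
      (univ.filter (fun e => j < s i e))))
  convert h1 using 2 with e
  have hlt : ∀ x N : ℕ, x ≤ N → ((Finset.range N).filter (fun j => j < x)).card = x := by
    intro x N hs
    have h7 : (Finset.range N).filter (fun j => j < x) = Finset.range x := by
      ext j
      rw [Finset.mem_filter, Finset.mem_range, Finset.mem_range]
      omega
    rw [h7, Finset.card_range]
  have hin : ∀ i, ∑ j ∈ Finset.range k, (if φ i e = 1 then 1 else
      if e ∈ univ.filter (fun e => j < s i e) then 2 else 0) =
      if φ i e = 1 then k else 2 * s i e := by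
    intro i
    by_cases h2 : φ i e = 1
    · simp [h2]
    · simp only [if_neg h2, Finset.mem_filter, Finset.mem_univ, true_and]
      rw [← Finset.sum_filter, Finset.sum_const, hlt _ _ (hsk i e), smul_eq_mul, mul_comm]
  rw [Finset.sum_congr rfl (fun i _ => hin i), Fin.sum_univ_three]
  have h2 := hsum e
  have h3 := hq e
  have h01 : (0 : F2) ≠ 1 := by decide
  have h10 : (1 : Fin 3) ≠ 0 := by decide
  have h20 : (2 : Fin 3) ≠ 0 := by decide
  have h21 : (2 : Fin 3) ≠ 1 := by decide
  rcases f2_cases (φ 0 e) with h4 | h4 <;> rcases f2_cases (φ 1 e) with h5 | h5 <;>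
    simp only [s, h2, h4, h5, f2_add_self, add_zero, zero_add, h01, h01.symm, h10, h20, h21,
      if_true, if_false, and_true, and_false, and_self] <;>
    omega

/-- three spanning connected even subgraphs from three disjoint spanning sets -/
lemma exists_three (a b : E → V) (S : Fin 3 → Finset E) (hS : ∀ i, Spn a b (S i))
    (hd : ∀ e, (univ.filter (fun i => e ∈ S i)).card ≤ 1) :
    ∃ φ : Fin 3 → E → F2, (∀ i, IsFlow a b (φ i)) ∧
      (∀ i, Spn a b (univ.filter (fun e => φ i e = 1))) ∧ ∀ e, φ 2 e = φ 0 e + φ 1 e := by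
  classical
  have hone : ∀ e i j, e ∈ S i → e ∈ S j → i = j := by
    intro e i j hi hj
    exact Finset.card_le_one.1 (hd e) i (by simp [hi]) j (by simp [hj])
  obtain ⟨x, hx1, hx2⟩ := ext_spn a b (S 0) (hS 0) (fun e => if e ∈ S 1 then 1 else 0)
  obtain ⟨y, hy1, hy2⟩ := ext_spn a b (S 0) (hS 0) (fun e => if e ∈ S 2 then 1 else 0)
  have hmono : ∀ T T' : Finset E, T ⊆ T' → Spn a b T → Spn a b T' := by
    intro T T' h hT X hX
    exact hT X (fun t ht => hX t (h ht))
  have h10 : ∀ e, e ∈ S 1 → e ∉ S 0 := fun e he h => absurd (hone e 1 0 he h) (by decide)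
  have h20 : ∀ e, e ∈ S 2 → e ∉ S 0 := fun e he h => absurd (hone e 2 0 he h) (by decide)
  have h12 : ∀ e, e ∈ S 1 → e ∉ S 2 := fun e he h => absurd (hone e 1 2 he h) (by decide)
  refine ⟨![x, y, fun e => x e + y e], ?_, ?_, fun e => rfl⟩
  · intro i
    fin_cases i
    · exact hx1
    · exact hy1
    · exact flow_add hx1 hy1
  · intro i
    fin_cases i
    · apply hmono (S 1) _ _ (hS 1)
      intro e he
      simp only [Finset.mem_filter, Finset.mem_univ, true_and]
      show x e = 1
      rw [hx2 e (h10 e he), if_pos he]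
    · apply hmono (S 2) _ _ (hS 2)
      intro e he
      simp only [Finset.mem_filter, Finset.mem_univ, true_and]
      show y e = 1
      rw [hy2 e (h20 e he), if_pos he]
    · apply hmono (S 1) _ _ (hS 1)
      intro e he
      simp only [Finset.mem_filter, Finset.mem_univ, true_and]
      show x e + y e = 1
      rw [hx2 e (h10 e he), if_pos he, hy2 e (h10 e he), if_neg (h12 e he), add_zero]

/-- covers from three spanning connected even subgraphs, every edge in none or two of them, or in
graphs without cuts of fewer than six edges -/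
theorem three_main (G : MGraph V E) (w : E → ℕ)
    (heul : ∀ X : Finset V, Even (∑ e ∈ cut G X, w e)) (k : ℕ)
    (hq : ∀ e, k ≤ w e / 2 ∧ w e / 2 ≤ 2 * k)
    (h : (∀ X : Finset V, cut G X = ∅ ∨ 6 ≤ (cut G X).card) ∨
      ∃ Φ : Fin 3 → Finset E, (∀ i, G.IsEven (Φ i)) ∧
        (∀ i, ∀ X : Finset V, cut G X ≠ ∅ → (Φ i ∩ cut G X).Nonempty) ∧
        ∀ e, e ∈ Φ 2 ↔ ¬ (e ∈ Φ 0 ↔ e ∈ Φ 1)) :
    InIntCone G w := by
  classical
  obtain ⟨v, hv⟩ := G.exists_halves
  have key : ∃ φ : Fin 3 → E → F2,
      (∀ i, IsFlow (fun e => v (e, false)) (fun e => v (e, true)) (φ i)) ∧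
      (∀ i, Spn (fun e => v (e, false)) (fun e => v (e, true))
        (univ.filter (fun e => φ i e = 1))) ∧ ∀ e, φ 2 e = φ 0 e + φ 1 e := by
    rcases h with h | ⟨Φ, h1, h2, h3⟩
    · have hcn : ∀ X : Finset V, cn (fun e => v (e, false)) (fun e => v (e, true)) univ X = 0 ∨
          6 ≤ cn (fun e => v (e, false)) (fun e => v (e, true)) univ X := by
        intro X
        rw [card_cut_eq G v hv]
        rcases h X with h | h
        · left; rw [h, Finset.card_empty]
        · right; exact h
      obtain ⟨S, hS, hSk⟩ := exists_spanning_sets (fun e => v (e, false)) (fun e => v (e, true))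
        6 3 1 hcn (by norm_num)
      exact exists_three _ _ S hS hSk
    · refine ⟨fun i e => if e ∈ Φ i then 1 else 0, ?_, ?_, ?_⟩
      · intro i
        exact (isFl_iff v _).1 ((G.isEven_iff v hv (Φ i)).1 (h1 i))
      · intro i X hX e hcr
        have h4 : cut G X ≠ ∅ := by
          intro h5
          have h6 : e ∈ cut G X := by
            rw [mem_cut G v hv]
            exact hcr
          rw [h5] at h6
          exact absurd h6 (Finset.notMem_empty e)
        obtain ⟨f, hf⟩ := h2 i X h4
        rw [Finset.mem_inter, mem_cut G v hv] at hf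
        exact hX f (by simp [hf.1]) hf.2
      · intro e
        have h4 := h3 e
        by_cases h5 : e ∈ Φ 0 <;> by_cases h6 : e ∈ Φ 1 <;> by_cases h7 : e ∈ Φ 2 <;>
          simp_all [f2_add_self]
  obtain ⟨φ, h1, h2, h3⟩ := key
  have h4 := trails_cover G v hv φ h1 h2 h3 (fun e => w e / 2) k hq
  have h5 := add_cover G h4 (cover_even G _ (odd_even G w heul))
  convert h5 using 2 with e
  simp only [Finset.mem_filter, Finset.mem_univ, true_and]
  split_ifs <;> omega

end Pool.Agent.H88.God
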