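import Pool.Agent.H88.God.Elim
import Pool.Graph.R_seed8.H126R2.NC.L1

set_option autoImplicit false
set_option linter.unusedSectionVars false

/-!
Colouring the edges outside a spanning forest with two colours so that no fundamental cut (without
its forest edge) is monochromatic, when all of them have at least three elements.
-/

namespace Pool.Agent.H88.God

open Finset
open Pool.Agent.Helper879.ECD (cn)
open Pool.Agent.H126R2.NC (cr Spn Acy exists_leaf lg_x1 lg_x2 lg_x3)

variable {W E : Type} [Fintype W] [DecidableEq W] [Fintype E] [DecidableEq E]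

/-- the vectors supported in `D` with an even number of ones -/
def Ev (D : Finset E) : SM E := Zr (fun z => z ∉ D) ⊓ Perp (fun _ => 1)

lemma sup_Ev {D : Finset E} {z : E} (h : Sup (Ev D) z) : z ∈ D := by
  obtain ⟨w, hw, hz⟩ := h
  by_contra h1
  have h2 := hw.1 z h1
  rw [h2] at hz
  exact zero_ne_one hz

lemma dt_one (w : E → ZMod 2) : dt (fun _ => 1) w = ∑ z, w z := by
  unfold dt
  simp

lemma big_Ev {D : Finset E} (h : 3 ≤ D.card) : Big (Ev D) := by
  intro z
  have h1 : 1 < (D.erase z).card := by
    have := Finset.pred_card_le_card_erase (s := D) (a := z)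
    omega
  obtain ⟨p, hp, q, hq, hpq⟩ := Finset.one_lt_card.1 h1
  rw [Finset.mem_erase] at hp hq
  refine ⟨Pi.single p 1 + Pi.single q 1, ⟨?_, ?_⟩, ?_, ?_⟩
  · intro y hy
    have h2 : y ≠ p := fun h => hy (h ▸ hp.2)
    have h3 : y ≠ q := fun h => hy (h ▸ hq.2)
    simp [Pi.single_apply, h2, h3]
  · show dt (fun _ => 1) _ = 0
    rw [dt_one]
    simp only [Pi.add_apply, Finset.sum_add_distrib, Finset.sum_pi_single', Finset.mem_univ,
      if_true]
    decide
  · intro h2
    have h3 := congrFun h2 p
    simp [Pi.single_apply, hpq] at h3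
  · simp [Pi.single_apply, hp.1.symm, hq.1.symm]

/-- a vector satisfying a subspace of even vectors supported in `D` is not constant on `D` -/
lemma nonconst {K : SM E} {D : Finset E} (hK : K ≤ Perp (fun _ => 1)) (hD : ∀ z, Sup K z → z ∈ D)
    {x : E → ZMod 2} (hx : Sat x K) : ∃ e ∈ D, ∃ e' ∈ D, x e ≠ x e' := by
  by_contra hcon
  push Not at hcon
  obtain ⟨w, hw, hwx⟩ := hx
  have hw0 : w ≠ 0 := by
    intro h
    rw [h, dt_zero] at hwx
    exact zero_ne_one hwx
  obtain ⟨p, hp⟩ := exists_one hw0
  have hpD : p ∈ D := hD p ⟨w, hw, hp⟩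
  have h1 : dt x w = x p * dt (fun _ => 1) w := by
    unfold dt
    rw [Finset.mul_sum]
    apply Finset.sum_congr rfl
    intro z _
    by_cases hz : w z = 0
    · rw [hz]; ring
    · rw [hcon z (hD z (sup_of_ne hw hz)) p hpD]; ring
  have h2 : dt (fun _ => 1) w = 0 := hK hw
  rw [h1, h2, mul_zero] at hwx
  exact zero_ne_one hwx

theorem tree_two [Nonempty E] : ∀ (n : ℕ) (a b : E → W) (T : Finset E), T.card = n →
    Acy a b T → Spn a b T →
    (∀ X : Finset W, cn a b T X = 1 →
      3 ≤ (univ.filter (fun e => e ∉ T ∧ cr a b X e)).card) →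
    ∀ comps : W → Finset (SM E), (∀ v, ∀ K ∈ comps v, Big K) →
    (∀ v, ∀ K ∈ comps v, ∀ z, Sup K z → z ∉ T ∧ cr a b {v} z) →
    (∀ v, ∀ K ∈ comps v, ∀ K' ∈ comps v, ∀ z, Sup K z → Sup K' z → K = K') →
    (∀ v, ∀ K ∈ comps v, K ≤ Perp (fun _ => 1)) →
    ∃ x : E → ZMod 2, (∀ v, ∀ K ∈ comps v, Sat x K) ∧
      ∀ X : Finset W, cn a b T X = 1 →
        ∃ e e', e ∉ T ∧ cr a b X e ∧ e' ∉ T ∧ cr a b X e' ∧ x e ≠ x e' := by
  classical
  intro n
  induction n with
  | zero =>
    intro a b T hT hA hS _ comps hbig hsup _ _
    rw [Finset.card_eq_zero] at hT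
    subst hT
    refine ⟨fun _ => 0, ?_, ?_⟩
    · intro v K hK
      exfalso
      have hnc : ∀ z, ¬ Sup K z := by
        intro z hz
        have h1 := hsup v K hK z hz
        exact hS {v} (by simp) z h1.2
      obtain ⟨z⟩ := (inferInstance : Nonempty E)
      obtain ⟨w, hw, hw0, -⟩ := hbig v K hK z
      obtain ⟨p, hp⟩ := exists_one hw0
      exact hnc p ⟨w, hw, hp⟩
    · intro X hX
      simp [cn] at hX
  | succ n ih =>
    intro a b T hT hA hS hcov comps hbig hsup hdis heven
    have hTne : T.Nonempty := by
      rw [← Finset.card_pos]; omega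
    obtain ⟨t, ht, v, u, hvu, htv, hleaf⟩ := exists_leaf a b hA hTne
    have htX : ∀ X : Finset W, ¬ cr a b X t ↔ (v ∈ X ↔ u ∈ X) := by
      intro X
      simp only [cr]
      rw [not_not]
      rcases htv with ⟨h1, h2⟩ | ⟨h1, h2⟩
      · rw [h1, h2]
      · rw [h1, h2]; exact ⟨fun h => h.symm, fun h => h.symm⟩
    -- the leaf cut
    have hcv : cn a b T {v} = 1 := by
      unfold cn
      rw [Finset.card_eq_one]
      refine ⟨t, ?_⟩
      ext e
      rw [Finset.mem_filter, Finset.mem_singleton, Finset.mem_singleton, Finset.mem_singleton]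
      constructor
      · rintro ⟨h1, h2⟩
        by_contra h3
        obtain ⟨h4, h5⟩ := hleaf e h1 h3
        exact h2 ⟨fun h => absurd h h4, fun h => absurd h h5⟩
      · rintro rfl
        refine ⟨ht, ?_⟩
        rcases htv with ⟨h1, h2⟩ | ⟨h1, h2⟩
        · rw [h1, h2]
          exact fun h => hvu (h.1 rfl).symm
        · rw [h1, h2]
          exact fun h => hvu (h.2 rfl).symm
    have h3v := hcov {v} hcv
    -- Step 1: a subspace at `v`
    obtain ⟨comps1, hc1, hbig1, hsup1, hdis1, heven1, Kv, hKv⟩ : ∃ comps1 : W → Finset (SM E),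
        (∀ w, ∀ K ∈ comps w, K ∈ comps1 w) ∧ (∀ v, ∀ K ∈ comps1 v, Big K) ∧
        (∀ v, ∀ K ∈ comps1 v, ∀ z, Sup K z → z ∉ T ∧ cr a b {v} z) ∧
        (∀ v, ∀ K ∈ comps1 v, ∀ K' ∈ comps1 v, ∀ z, Sup K z → Sup K' z → K = K') ∧
        (∀ v, ∀ K ∈ comps1 v, K ≤ Perp (fun _ => 1)) ∧ ∃ Kv, Kv ∈ comps1 v := by
      by_cases hex : ∃ Kv, Kv ∈ comps v
      · exact ⟨comps, fun _ _ h => h, hbig, hsup, hdis, heven, hex⟩
      · let K0 : SM E := Ev (univ.filter (fun e => e ∉ T ∧ cr a b {v} e))
        have hcase : ∀ w, ∀ K ∈ Function.update comps v {K0} w, K ∈ comps w ∨ (w = v ∧ K = K0) := by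
          intro w K hK
          by_cases hw : w = v
          · subst hw
            rw [Function.update_self, Finset.mem_singleton] at hK
            exact Or.inr ⟨rfl, hK⟩
          · rw [Function.update_of_ne hw] at hK
            exact Or.inl hK
        refine ⟨Function.update comps v {K0}, ?_, ?_, ?_, ?_, ?_, K0, ?_⟩
        · intro w K hK
          have hw : w ≠ v := fun h => hex ⟨K, h ▸ hK⟩
          rw [Function.update_of_ne hw]
          exact hK
        · intro w K hK
          rcases hcase w K hK with h | ⟨-, h⟩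
          · exact hbig w K h
          · rw [h]; exact big_Ev h3v
        · intro w K hK z hz
          rcases hcase w K hK with h | ⟨h', h⟩
          · exact hsup w K h z hz
          · rw [h] at hz
            rw [h']
            exact (Finset.mem_filter.1 (sup_Ev hz)).2
        · intro w K hK K' hK' z hz hz'
          by_cases hw : w = v
          · subst hw
            rw [Function.update_self, Finset.mem_singleton] at hK hK'
            rw [hK, hK']
          · rw [Function.update_of_ne hw] at hK hK'
            exact hdis w K hK K' hK' z hz hz'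
        · intro w K hK
          rcases hcase w K hK with h | ⟨h', h⟩
          · exact heven w K h
          · rw [h]; exact inf_le_right
        · rw [Function.update_self]; exact Finset.mem_singleton_self _
    -- Step 2: contraction
    let ρ : W → W := fun w => if w = v then u else w
    have hρv : ρ v = u := if_pos rfl
    have hρne : ∀ w, w ≠ v → ρ w = w := fun w hw => if_neg hw
    have hρX : ∀ X : Finset W, (v ∈ X ↔ u ∈ X) → ∀ w, ρ w ∈ X ↔ w ∈ X := by
      intro X hX w
      by_cases hw : w = v
      · rw [hw, hρv]; exact hX.symm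
      · rw [hρne w hw]
    have hcrX : ∀ X : Finset W, (v ∈ X ↔ u ∈ X) → ∀ e,
        (cr (fun e => ρ (a e)) (fun e => ρ (b e)) X e ↔ cr a b X e) := by
      intro X hX e
      simp only [cr, hρX X hX]
    have hT'card : (T.erase t).card = n := by
      rw [Finset.card_erase_of_mem ht, hT]; rfl
    have hA' : Acy (fun e => ρ (a e)) (fun e => ρ (b e)) (T.erase t) := by
      intro t' ht'
      rw [Finset.mem_erase] at ht'
      obtain ⟨X, hX1, hX2⟩ := hA t' ht'.2
      have hXt := (htX X).1 (hX2 t ht ht'.1.symm)
      refine ⟨X, (hcrX X hXt t').2 hX1, ?_⟩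
      intro t'' ht'' hne
      rw [hcrX X hXt]
      exact hX2 t'' (Finset.mem_of_mem_erase ht'') hne
    have hpre : ∀ X : Finset W, ∀ e, cr a b (univ.filter (fun w => ρ w ∈ X)) e ↔
          cr (fun e => ρ (a e)) (fun e => ρ (b e)) X e := by
      intro X e; simp [cr]
    have hpre_t : ∀ X : Finset W, ¬ cr a b (univ.filter (fun w => ρ w ∈ X)) t := by
      intro X
      rw [htX]
      simp only [Finset.mem_filter, Finset.mem_univ, true_and, hρv, hρne u hvu.symm]
    have hS' : Spn (fun e => ρ (a e)) (fun e => ρ (b e)) (T.erase t) := by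
      intro X hX e
      rw [← hpre X]
      apply hS
      intro t' ht'
      by_cases htt : t' = t
      · subst htt
        exact hpre_t X
      · rw [hpre X]
        exact hX t' (Finset.mem_erase.2 ⟨htt, ht'⟩)
    have hcov' : ∀ X : Finset W, cn (fun e => ρ (a e)) (fun e => ρ (b e)) (T.erase t) X = 1 →
        3 ≤ (univ.filter (fun e => e ∉ T.erase t ∧
          cr (fun e => ρ (a e)) (fun e => ρ (b e)) X e)).card := by
      intro X hX
      have h1 : cn a b T (univ.filter (fun w => ρ w ∈ X)) = 1 := by
        rw [← hX]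
        unfold cn
        congr 1
        ext e
        simp only [Finset.mem_filter, Finset.mem_erase]
        have h2 := hpre X e
        have h4 := hpre_t X
        simp only [cr] at h2 h4
        simp only [Finset.mem_filter, Finset.mem_univ, true_and] at h2 h4 ⊢
        constructor
        · rintro ⟨h3, h5⟩
          exact ⟨⟨fun h6 => h4 (h6 ▸ h5), h3⟩, h5⟩
        · rintro ⟨⟨_, h3⟩, h5⟩
          exact ⟨h3, h5⟩
      refine (hcov _ h1).trans (Finset.card_le_card ?_)
      intro e he
      rw [Finset.mem_filter] at he ⊢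
      exact ⟨Finset.mem_univ _, fun h3 => he.2.1 (Finset.mem_of_mem_erase h3),
        (hpre X e).1 he.2.2⟩
    -- Step 3: elimination of the edges between `v` and `u`
    let I : E → Prop := fun z => ρ (a z) = ρ (b z)
    -- crossing `{v}` and `{u}`
    have hcrI : ∀ z, cr a b {v} z → cr a b {u} z → I z := by
      intro z h1 h2
      simp only [cr, Finset.mem_singleton] at h1 h2
      show ρ (a z) = ρ (b z)
      by_cases h3 : a z = v
      · have h4 : b z ≠ v := fun h => h1 ⟨fun _ => h, fun _ => h3⟩
        by_cases h5 : b z = u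
        · rw [h3, h5, hρv, hρne u hvu.symm]
        · exact absurd ⟨fun h => absurd (h3 ▸ h) hvu, fun h => absurd h h5⟩ h2
      · have h4 : b z = v := by
          by_contra h4
          exact h1 ⟨fun h => absurd h h3, fun h => absurd h h4⟩
        by_cases h5 : a z = u
        · rw [h4, h5, hρv, hρne u hvu.symm]
        · exact absurd ⟨fun h => absurd h h5, fun h => absurd (h4 ▸ h) hvu⟩ h2
    have h𝒦 : ∀ K ∈ comps1 v ∪ comps1 u, K ∈ comps1 v ∨ K ∈ comps1 u := fun K hK =>
      Finset.mem_union.1 hK
    obtain ⟨N, hN1, hN2, hN3, hN4, hN5⟩ := elim I (comps1 v ∪ comps1 u).card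
      (comps1 v ∪ comps1 u) rfl
      (by
        intro K hK
        rcases h𝒦 K hK with h | h
        · exact hbig1 v K h
        · exact hbig1 u K h)
      (by
        intro z hz K hK K' hK' hs hs'
        rcases h𝒦 K hK with h | h <;> rcases h𝒦 K' hK' with h' | h'
        · exact hdis1 v K h K' h' z hs hs'
        · exact absurd (hcrI z (hsup1 v K h z hs).2 (hsup1 u K' h' z hs').2) hz
        · exact absurd (hcrI z (hsup1 v K' h' z hs').2 (hsup1 u K h z hs).2) hz
        · exact hdis1 u K h K' h' z hs hs')
      (by
        intro z hz K hK K' hK' K'' hK'' hs hs' hs''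
        rcases h𝒦 K hK with h | h <;> rcases h𝒦 K' hK' with h' | h' <;>
          rcases h𝒦 K'' hK'' with h'' | h''
        · exact Or.inl (hdis1 v K h K' h' z hs hs')
        · exact Or.inl (hdis1 v K h K' h' z hs hs')
        · exact Or.inr (Or.inl (hdis1 v K h K'' h'' z hs hs''))
        · exact Or.inr (Or.inr (hdis1 u K' h' K'' h'' z hs' hs''))
        · exact Or.inr (Or.inr (hdis1 v K' h' K'' h'' z hs' hs''))
        · exact Or.inr (Or.inl (hdis1 u K h K'' h'' z hs hs''))
        · exact Or.inl (hdis1 u K h K' h' z hs hs')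
        · exact Or.inl (hdis1 u K h K' h' z hs hs'))
    -- the new family
    let comps2 : W → Finset (SM E) := fun w => if w = u then N else if w = v then ∅ else comps1 w
    have hc2 : ∀ w, ∀ K ∈ comps2 w, (w = u ∧ K ∈ N) ∨ (w ≠ u ∧ w ≠ v ∧ K ∈ comps1 w) := by
      intro w K hK
      by_cases hw : w = u
      · left
        refine ⟨hw, ?_⟩
        simp only [comps2, hw, if_true] at hK
        exact hK
      · right
        by_cases hw' : w = v
        · simp only [comps2, hw, hw', if_true, if_false] at hK
          split_ifs at hK with h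
          · exact absurd h hvu
          · exact absurd hK (Finset.notMem_empty K)
        · simp only [comps2, hw, hw', if_false] at hK
          exact ⟨hw, hw', hK⟩
    obtain ⟨x, hx1, hx2⟩ := ih (fun e => ρ (a e)) (fun e => ρ (b e)) (T.erase t) hT'card hA' hS'
      hcov' comps2
      (by
        intro w K hK
        rcases hc2 w K hK with ⟨-, h⟩ | ⟨-, -, h⟩
        · exact hN1 K h
        · exact hbig1 w K h)
      (by
        intro w K hK z hz
        rcases hc2 w K hK with ⟨hw, h⟩ | ⟨hw1, hw2, h⟩
        · obtain ⟨h1, K', hK', h2⟩ := hN2 K h z hz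
          have h3 : z ∉ T ∧ (cr a b {v} z ∨ cr a b {u} z) := by
            rcases h𝒦 K' hK' with h4 | h4
            · exact ⟨(hsup1 v K' h4 z h2).1, Or.inl (hsup1 v K' h4 z h2).2⟩
            · exact ⟨(hsup1 u K' h4 z h2).1, Or.inr (hsup1 u K' h4 z h2).2⟩
          refine ⟨fun h => h3.1 (Finset.mem_of_mem_erase h), ?_⟩
          rw [hw]
          intro h4
          simp only [Finset.mem_singleton] at h4
          apply h1
          show ρ (a z) = ρ (b z)
          by_cases h5 : ρ (a z) = u
          · rw [h5, h4.1 h5]
          · have h6 : ρ (b z) ≠ u := fun h => h5 (h4.2 h)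
            exfalso
            have h7 : a z ≠ v := fun h => h5 (by rw [h, hρv])
            have h8 : b z ≠ v := fun h => h6 (by rw [h, hρv])
            have h9 : a z ≠ u := fun h => h5 (by rw [h, hρne u hvu.symm])
            have h10 : b z ≠ u := fun h => h6 (by rw [h, hρne u hvu.symm])
            rcases h3.2 with h11 | h11
            · simp only [cr, Finset.mem_singleton] at h11
              exact h11 ⟨fun h => absurd h h7, fun h => absurd h h8⟩
            · simp only [cr, Finset.mem_singleton] at h11
              exact h11 ⟨fun h => absurd h h9, fun h => absurd h h10⟩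
        · obtain ⟨h1, h2⟩ := hsup1 w K h z hz
          refine ⟨fun h => h1 (Finset.mem_of_mem_erase h), ?_⟩
          have h3 : ∀ y, ρ y = w ↔ y = w := by
            intro y
            by_cases hy : y = v
            · rw [hy, hρv]
              exact ⟨fun h => absurd h.symm hw1, fun h => absurd h.symm hw2⟩
            · rw [hρne y hy]
          simp only [cr, Finset.mem_singleton] at h2 ⊢
          rw [h3, h3]
          exact h2)
      (by
        intro w K hK K' hK' z hz hz'
        rcases hc2 w K hK with ⟨hw, h⟩ | ⟨hw1, hw2, h⟩ <;>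
          rcases hc2 w K' hK' with ⟨hw', h'⟩ | ⟨hw1', hw2', h'⟩
        · exact hN3 K h K' h' z hz hz'
        · exact absurd hw hw1'
        · exact absurd hw' hw1
        · exact hdis1 w K h K' h' z hz hz')
      (by
        intro w K hK
        rcases hc2 w K hK with ⟨-, h⟩ | ⟨-, -, h⟩
        · apply hN4 _ _ K h
          intro K' hK'
          rcases h𝒦 K' hK' with h4 | h4
          · exact heven1 v K' h4
          · exact heven1 u K' h4
        · exact heven1 w K h)
    obtain ⟨y, hy1, hy2⟩ := hN5 x (by
      intro K hK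
      apply hx1 u K
      simp only [comps2, if_true]
      exact hK)
    have hyI : ∀ z, ¬ I z → y z = x z := by
      intro z hz
      by_contra h
      exact hz (hy1 z h).1
    have hall : ∀ w, ∀ K ∈ comps1 w, Sat y K := by
      intro w K hK
      by_cases hw1 : w = u
      · subst hw1
        exact hy2 K (Finset.mem_union_right _ hK)
      · by_cases hw2 : w = v
        · subst hw2
          exact hy2 K (Finset.mem_union_left _ hK)
        · have h1 : Sat x K := by
            apply hx1 w K
            simp only [comps2, hw1, hw2, if_false]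
            exact hK
          apply sat_congr _ h1
          intro z hz
          have h2 := (hsup1 w K hK z hz).2
          refine (hyI z ?_).symm
          intro h3
          simp only [cr, Finset.mem_singleton] at h2
          have h4 : ∀ y, ρ y = w ↔ y = w := by
            intro y
            by_cases hy : y = v
            · rw [hy, hρv]
              exact ⟨fun h => absurd h.symm hw1, fun h => absurd h.symm hw2⟩
            · rw [hρne y hy]
          apply h2
          rw [← h4 (a z), ← h4 (b z)]
          have h5 : ρ (a z) = ρ (b z) := h3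
          rw [h5]
    refine ⟨y, fun w K hK => hall w K (hc1 w K hK), ?_⟩
    intro X hX1
    by_cases htc : cr a b X t
    · -- the cut of the leaf edge
      have honly : ∀ t' ∈ T, t' ≠ t → ¬ cr a b X t' := by
        intro t' ht' hne hc
        unfold cn at hX1
        obtain ⟨t0, ht0⟩ := Finset.card_eq_one.1 hX1
        have h1 : t ∈ T.filter (fun e => ¬ (a e ∈ X ↔ b e ∈ X)) :=
          Finset.mem_filter.2 ⟨ht, htc⟩
        have h2 : t' ∈ T.filter (fun e => ¬ (a e ∈ X ↔ b e ∈ X)) :=
          Finset.mem_filter.2 ⟨ht', hc⟩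
        rw [ht0, Finset.mem_singleton] at h1 h2
        exact hne (h2.trans h1.symm)
      have hiff : ∀ e, cr a b X e ↔ cr a b {v} e := by
        intro e
        have h1 := hS (univ.filter (fun w => ¬ (w ∈ X ↔ w = v))) (by
          intro t' ht'
          by_cases htt : t' = t
          · subst htt
            have h2 : ¬ (v ∈ X ↔ u ∈ X) := fun h => (htX X).2 h htc
            rw [htX]
            simp only [Finset.mem_filter, Finset.mem_univ, true_and]
            exact lg_x3 h2 trivial hvu.symm
          · have h2 := honly t' ht' htt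
            obtain ⟨h3, h4⟩ := hleaf t' ht' htt
            simp only [cr, Finset.mem_filter, Finset.mem_univ, true_and]
            exact lg_x1 h2 h3 h4) e
        simp only [cr, Finset.mem_filter, Finset.mem_univ, true_and] at h1
        simp only [cr, Finset.mem_singleton]
        exact lg_x2 h1
      obtain ⟨e, he, e', he', hne⟩ := nonconst (D := univ.filter (fun e => e ∉ T ∧ cr a b {v} e))
        (heven1 v Kv hKv) (fun z hz => by
          rw [Finset.mem_filter]
          exact ⟨Finset.mem_univ _, hsup1 v Kv hKv z hz⟩) (hall v Kv hKv)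
      rw [Finset.mem_filter] at he he'
      exact ⟨e, e', he.2.1, (hiff e).2 he.2.2, he'.2.1, (hiff e').2 he'.2.2, hne⟩
    · have hXt := (htX X).1 htc
      have h1 : cn (fun e => ρ (a e)) (fun e => ρ (b e)) (T.erase t) X = 1 := by
        rw [← hX1]
        unfold cn
        congr 1
        ext e
        simp only [Finset.mem_filter, Finset.mem_erase]
        have h2 := hcrX X hXt e
        simp only [cr] at h2
        rw [h2]
        constructor
        · rintro ⟨⟨_, h3⟩, h4⟩
          exact ⟨h3, h4⟩
        · rintro ⟨h3, h4⟩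
          exact ⟨⟨fun h5 => htc (h5 ▸ h4), h3⟩, h4⟩
      obtain ⟨e, e', he1, he2, he'1, he'2, hne⟩ := hx2 X h1
      have key : ∀ e, e ∉ T.erase t → cr (fun e => ρ (a e)) (fun e => ρ (b e)) X e →
          e ∉ T ∧ cr a b X e ∧ y e = x e := by
        intro e h3 h4
        have h5 := (hcrX X hXt e).1 h4
        refine ⟨fun h6 => h3 (Finset.mem_erase.2 ⟨fun h7 => htc (h7 ▸ h5), h6⟩), h5, ?_⟩
        apply hyI
        intro h6
        apply h4
        have h7 : ρ (a e) = ρ (b e) := h6
        show ρ (a e) ∈ X ↔ ρ (b e) ∈ X
        rw [h7]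
      obtain ⟨p1, p2, p3⟩ := key e he1 he2
      obtain ⟨q1, q2, q3⟩ := key e' he'1 he'2
      exact ⟨e, e', p1, p2, q1, q2, by rw [p3, q3]; exact hne⟩

/-- Two-colouring lemma: if every fundamental cut of a spanning forest contains at least three
edges outside the forest, then the edges outside can be coloured with two colours such that every
fundamental cut has edges of both colours. -/
theorem exists_two_colouring (a b : E → W) (T : Finset E) (hA : Acy a b T) (hS : Spn a b T)
    (hcov : ∀ X : Finset W, cn a b T X = 1 →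
      3 ≤ (univ.filter (fun e => e ∉ T ∧ cr a b X e)).card) :
    ∃ c : E → ZMod 2, ∀ X : Finset W, cn a b T X = 1 →
        ∃ e e', e ∉ T ∧ cr a b X e ∧ e' ∉ T ∧ cr a b X e' ∧ c e ≠ c e' := by
  by_cases hE : IsEmpty E
  · refine ⟨fun _ => 0, ?_⟩
    intro X hX
    have h1 := hcov X hX
    have h2 : (univ.filter (fun e => e ∉ T ∧ cr a b X e)).card = 0 := by
      rw [Finset.card_eq_zero, Finset.eq_empty_iff_forall_notMem]
      intro e
      exact (hE.false e).elim
    omega
  rw [not_isEmpty_iff] at hE
  obtain ⟨x, -, hx⟩ := tree_two T.card a b T rfl hA hS hcov (fun _ => ∅) (by simp) (by simp)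
    (by simp) (by simp)
  exact ⟨x, hx⟩

end Pool.Agent.H88.God
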